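import Pool.Agent.W_MP_e98908_an_h58.Ops4

/-!
# MP_e98908_an (helper58) : the cubic group (sign changes and cyclic permutations)
-/

namespace W_MP_e98908_an.H58

open MeasureTheory Set Filter Topology Complex UnitAddTorus Matrix

/-- the group elements: signs and a cyclic shift -/
abbrev GI : Type := (Fin 3 → ℤˣ) × Fin 3

/-- the action on the cell -/
def act (g : GI) (x : Cell) : Cell := fun i => ((g.1 i : ℤ)) • x (i + g.2)

/-- composition -/
def gm (g h : GI) : GI := (fun i => g.1 i * h.1 (i + g.2), g.2 + h.2)

theorem act_gm (g h : GI) (x : Cell) : act (gm g h) x = act g (act h x) := by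
  funext i
  simp only [act, gm, Units.val_mul]
  rw [mul_smul, add_assoc]

theorem gm_right_bijective (h : GI) : Function.Bijective (fun g => gm g h) := by
  rw [← Finite.injective_iff_bijective]
  intro g g' hg
  have h2 : g.2 = g'.2 := by
    have := congrArg Prod.snd hg
    exact add_right_cancel this
  refine Prod.ext (funext fun i => ?_) h2
  have h1 := congrFun (congrArg Prod.fst hg) i
  simp only [gm] at h1
  rw [h2] at h1
  exact mul_right_cancel h1

theorem act_nmap (g : GI) (N : ℕ) (x : Cell) : act g (nmap N x) = nmap N (act g x) := by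
  funext i
  simp only [act, nmap, Pi.smul_apply]
  exact smul_comm _ _ _

theorem continuous_act (g : GI) : Continuous (act g) := by
  refine continuous_pi fun i => ?_
  exact (continuous_apply (i + g.2)).zsmul _

theorem act_mp (g : GI) : MeasurePreserving (act g) cellMeasure cellMeasure := by
  let f : Cell →+ Cell :=
    { toFun := act g
      map_zero' := by
        funext i
        simp only [act, Pi.zero_apply, smul_zero]
      map_add' := fun x y => by
        funext i
        simp only [act, Pi.add_apply, smul_add] }
  have hsurj : Function.Surjective f := by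
    intro y
    refine ⟨fun j => ((g.1 (j - g.2) : ℤ)) • y (j - g.2), ?_⟩
    funext i
    show ((g.1 i : ℤ)) • (((g.1 (i + g.2 - g.2) : ℤ)) • y (i + g.2 - g.2)) = y i
    rw [add_sub_cancel_right, ← mul_smul, ← Units.val_mul, Int.units_mul_self, Units.val_one,
      one_smul]
  exact AddMonoidHom.measurePreserving (f := f) (continuous_act g) hsurj rfl

/-- the matrix of the action -/
def Qg (g : GI) : Matrix (Fin 3) (Fin 3) ℂ := fun i j => if j = i + g.2 then ((g.1 i : ℤ) : ℂ) else 0

theorem Qg_aux1 (u : ℤˣ) : ((u : ℤ) : ℂ) * ((u : ℤ) : ℂ) = 1 := by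
  rw [← Int.cast_mul, ← Units.val_mul, Int.units_mul_self, Units.val_one, Int.cast_one]

theorem Qg_mul (g : GI) : Qg g * (Qg g)ᵀ = 1 := by
  ext i j
  rw [Matrix.mul_apply]
  simp only [Matrix.transpose_apply, Qg]
  rw [Finset.sum_eq_single (i + g.2)]
  · rw [if_pos rfl]
    by_cases hij : i = j
    · subst hij
      rw [if_pos rfl, Matrix.one_apply_eq, Qg_aux1]
    · rw [if_neg (fun h => hij (add_right_cancel h)), mul_zero, Matrix.one_apply_ne hij]
  · intro k _ hk
    rw [if_neg hk, zero_mul]
  · intro h
    exact absurd (Finset.mem_univ _) h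

theorem Qg_mul' (g : GI) : (Qg g)ᵀ * Qg g = 1 := by
  exact mul_eq_one_comm.1 (Qg_mul g)

end W_MP_e98908_an.H58
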