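import Pool.Agent.W_MP_e98908_an_h58.LA

/-!
# MP_e98908_an (helper58) : the example
-/

namespace W_MP_e98908_an.H58

open Matrix Complex

/-- directions with integer coordinates -/
def ZDir : Set (Fin 3 → ℝ) := {n | ∃ m : Fin 3 → ℤ, m ≠ 0 ∧ n = fun i => (m i : ℝ)}

/-! ### the laminate -/

noncomputable def exC1 : CFun := fun σ => layer ![1, -1, 0] (9 / 10) (σ • 1) 1
noncomputable def exC2 : CFun := fun σ => layer ![0, 0, 1] (5 / 6) (σ • 1) 1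
noncomputable def exB1 : CFun := fun σ => layer ![1, 1, 0] (2 / 5) (exC1 σ) (exC2 σ)
noncomputable def exE : CFun := fun σ => layer ![0, 0, 1] (11 / 13) (σ • 1) 1
noncomputable def exB2 : CFun := fun σ => layer ![1, 0, 0] (4 / 5) (exE σ) 1
noncomputable def exB : CFun := fun σ => layer ![5, 1, 0] (1 / 10) (exB1 σ) (exB2 σ)
noncomputable def exR : CFun := fun σ => layer ![0, 1, 0] (7 / 9) (exB σ) 1

theorem Ex_dir (a b c : ℤ) (h : a ≠ 0 ∨ b ≠ 0 ∨ c ≠ 0) :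
    (![(a : ℝ), (b : ℝ), (c : ℝ)] : Fin 3 → ℝ) ∈ ZDir := by
  refine ⟨![a, b, c], ?_, ?_⟩
  · intro h0
    have h1 : a = 0 := congrFun h0 0
    have h2 : b = 0 := congrFun h0 1
    have h3 : c = 0 := congrFun h0 2
    tauto
  · funext i
    fin_cases i <;> rfl

theorem exR_isLaminate : IsLaminate ZDir exR := by
  have d1 : (![1, -1, 0] : Fin 3 → ℝ) ∈ ZDir := by
    have := Ex_dir 1 (-1) 0 (by norm_num)
    simpa using this
  have d2 : (![0, 0, 1] : Fin 3 → ℝ) ∈ ZDir := by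
    have := Ex_dir 0 0 1 (by norm_num)
    simpa using this
  have d3 : (![1, 1, 0] : Fin 3 → ℝ) ∈ ZDir := by
    have := Ex_dir 1 1 0 (by norm_num)
    simpa using this
  have d4 : (![1, 0, 0] : Fin 3 → ℝ) ∈ ZDir := by
    have := Ex_dir 1 0 0 (by norm_num)
    simpa using this
  have d5 : (![5, 1, 0] : Fin 3 → ℝ) ∈ ZDir := by
    have := Ex_dir 5 1 0 (by norm_num)
    simpa using this
  have d6 : (![0, 1, 0] : Fin 3 → ℝ) ∈ ZDir := by
    have := Ex_dir 0 1 0 (by norm_num)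
    simpa using this
  have hC1 : IsLaminate ZDir exC1 :=
    IsLaminate.layer d1 (by norm_num) (by norm_num) IsLaminate.phase1 IsLaminate.phase2
  have hC2 : IsLaminate ZDir exC2 :=
    IsLaminate.layer d2 (by norm_num) (by norm_num) IsLaminate.phase1 IsLaminate.phase2
  have hB1 : IsLaminate ZDir exB1 :=
    IsLaminate.layer d3 (by norm_num) (by norm_num) hC1 hC2
  have hE : IsLaminate ZDir exE :=
    IsLaminate.layer d2 (by norm_num) (by norm_num) IsLaminate.phase1 IsLaminate.phase2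
  have hB2 : IsLaminate ZDir exB2 :=
    IsLaminate.layer d4 (by norm_num) (by norm_num) hE IsLaminate.phase2
  have hB : IsLaminate ZDir exB :=
    IsLaminate.layer d5 (by norm_num) (by norm_num) hB1 hB2
  exact IsLaminate.layer d6 (by norm_num) (by norm_num) hB IsLaminate.phase2

/-- block form: no coupling between the third axis and the other two -/
def Blk (A : Matrix (Fin 3) (Fin 3) ℂ) : Prop := A 0 2 = 0 ∧ A 1 2 = 0 ∧ A 2 0 = 0 ∧ A 2 1 = 0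

theorem Ex_layer_apply (n : Fin 3 → ℝ) (θ : ℝ) (A B : Matrix (Fin 3) (Fin 3) ℂ) (i j : Fin 3) :
    ∃ c : ℂ, layer n θ A B i j = (θ : ℂ) * A i j + (1 - θ : ℂ) * B i j -
      c * (((A - B) *ᵥ (fun i => (n i : ℂ))) i * ((fun i => (n i : ℂ)) ᵥ* (A - B)) j) := by
  refine ⟨((θ * (1 - θ) : ℂ) / ((fun i => (n i : ℂ)) ⬝ᵥ (((1 - θ : ℂ) • A + (θ : ℂ) • B) *ᵥ
      (fun i => (n i : ℂ))))), ?_⟩
  simp only [layer, Matrix.sub_apply, Matrix.add_apply, Matrix.smul_apply, vecMulVec_apply,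
    smul_eq_mul]

theorem Ex_zero {n : Fin 3 → ℝ} {θ : ℝ} {A B : Matrix (Fin 3) (Fin 3) ℂ} {i j : Fin 3}
    (hA : A i j = 0) (hB : B i j = 0)
    (h : ((A - B) *ᵥ (fun i => (n i : ℂ))) i = 0 ∨ ((fun i => (n i : ℂ)) ᵥ* (A - B)) j = 0) :
    layer n θ A B i j = 0 := by
  obtain ⟨c, hc⟩ := Ex_layer_apply n θ A B i j
  rw [hc, hA, hB]
  rcases h with h | h <;> rw [h] <;> ring

theorem blk_layer_planar (p q : ℝ) (θ : ℝ) {A B : Matrix (Fin 3) (Fin 3) ℂ} (hA : Blk A)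
    (hB : Blk B) : Blk (layer ![p, q, 0] θ A B) := by
  obtain ⟨a1, a2, a3, a4⟩ := hA
  obtain ⟨b1, b2, b3, b4⟩ := hB
  have hv : ((fun i => ((![p, q, 0] : Fin 3 → ℝ) i : ℂ)) ᵥ* (A - B)) 2 = 0 := by
    simp [vecMul, dotProduct, Fin.sum_univ_three, a1, a2, b1, b2]
  have hu : ((A - B) *ᵥ (fun i => ((![p, q, 0] : Fin 3 → ℝ) i : ℂ))) 2 = 0 := by
    simp [mulVec, dotProduct, Fin.sum_univ_three, a3, a4, b3, b4]
  exact ⟨Ex_zero a1 b1 (Or.inr hv), Ex_zero a2 b2 (Or.inr hv), Ex_zero a3 b3 (Or.inl hu),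
    Ex_zero a4 b4 (Or.inl hu)⟩

theorem blk_layer_z (θ : ℝ) {A B : Matrix (Fin 3) (Fin 3) ℂ} (hA : Blk A)
    (hB : Blk B) : Blk (layer ![0, 0, 1] θ A B) := by
  obtain ⟨a1, a2, a3, a4⟩ := hA
  obtain ⟨b1, b2, b3, b4⟩ := hB
  have hu0 : ((A - B) *ᵥ (fun i => ((![0, 0, 1] : Fin 3 → ℝ) i : ℂ))) 0 = 0 := by
    simp [mulVec, dotProduct, Fin.sum_univ_three, a1, b1]
  have hu1 : ((A - B) *ᵥ (fun i => ((![0, 0, 1] : Fin 3 → ℝ) i : ℂ))) 1 = 0 := by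
    simp [mulVec, dotProduct, Fin.sum_univ_three, a2, b2]
  have hv0 : ((fun i => ((![0, 0, 1] : Fin 3 → ℝ) i : ℂ)) ᵥ* (A - B)) 0 = 0 := by
    simp [vecMul, dotProduct, Fin.sum_univ_three, a3, b3]
  have hv1 : ((fun i => ((![0, 0, 1] : Fin 3 → ℝ) i : ℂ)) ᵥ* (A - B)) 1 = 0 := by
    simp [vecMul, dotProduct, Fin.sum_univ_three, a4, b4]
  exact ⟨Ex_zero a1 b1 (Or.inl hu0), Ex_zero a2 b2 (Or.inl hu1), Ex_zero a3 b3 (Or.inr hv0),
    Ex_zero a4 b4 (Or.inr hv1)⟩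

theorem Ex_blk_one : Blk (1 : Matrix (Fin 3) (Fin 3) ℂ) := by
  refine ⟨?_, ?_, ?_, ?_⟩ <;> exact Matrix.one_apply_ne (by decide)

theorem Ex_blk_smul (σ : ℂ) : Blk (σ • (1 : Matrix (Fin 3) (Fin 3) ℂ)) := by
  refine ⟨?_, ?_, ?_, ?_⟩ <;>
    rw [Matrix.smul_apply, Matrix.one_apply_ne (by decide), smul_zero]

theorem exR_blk (σ : ℂ) : Blk (exR σ) := by
  have h1 := Ex_blk_one
  have hs := Ex_blk_smul σ
  have hC1 : Blk (exC1 σ) := blk_layer_planar 1 (-1) _ hs h1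
  have hC2 : Blk (exC2 σ) := blk_layer_z _ hs h1
  have hB1 : Blk (exB1 σ) := blk_layer_planar 1 1 _ hC1 hC2
  have hE : Blk (exE σ) := blk_layer_z _ hs h1
  have hB2 : Blk (exB2 σ) := blk_layer_planar 1 0 _ hE h1
  have hB : Blk (exB σ) := blk_layer_planar 5 1 _ hB1 hB2
  exact blk_layer_planar 0 1 _ hB h1

end W_MP_e98908_an.H58
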