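import Pool.Agent.W_MP_e98908_an_h58.LamStep
import Pool.Agent.W_MP_e98908_an_h58.Ex

/-!
# MP_e98908_an (helper58) : laminates are limits of periodic composites
-/

namespace W_MP_e98908_an.H58

open MeasureTheory Set Filter Topology Complex UnitAddTorus Matrix

/-- the conductivity function `L` is approximated, at any finite number of positive real points, by
periodic composites -/
def Appr (L : CFun) : Prop :=
  ∀ X : Finset ℝ, (∀ x ∈ X, 0 < x) → ∀ ε : ℝ, 0 < ε →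
    ∃ (S : Set Cell) (hS : MeasurableSet S), ∀ x ∈ X, ∀ M, HasET hS x M →
      ∀ i j, ‖M i j - L x i j‖ ≤ ε

theorem appr_phase1 : Appr (fun σ => σ • (1 : Matrix (Fin 3) (Fin 3) ℂ)) := by
  intro X hX ε hε
  refine ⟨Set.univ, MeasurableSet.univ, ?_⟩
  intro x hx M hM i j
  have h := hM.unique (Complex.ofReal_mem_slitPlane.2 (hX x hx)) (hasET_univ (x : ℂ))
  rw [h, sub_self, norm_zero]
  exact hε.le

theorem appr_phase2 : Appr (fun _ => (1 : Matrix (Fin 3) (Fin 3) ℂ)) := by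
  intro X hX ε hε
  refine ⟨∅, MeasurableSet.empty, ?_⟩
  intro x hx M hM i j
  have h := hM.unique (Complex.ofReal_mem_slitPlane.2 (hX x hx)) (hasET_empty (x : ℂ))
  rw [h, sub_self, norm_zero]
  exact hε.le

theorem Appr_inner_mv (M : Matrix (Fin 3) (Fin 3) ℂ) (a : V3) :
    inner ℂ a (mv M a) = ∑ i, (∑ j, M i j * a j) * (starRingEnd ℂ) (a i) := by
  rw [PiLp.inner_apply]
  rfl

theorem Appr_continuous_inner (a : V3) :
    Continuous (fun M : Matrix (Fin 3) (Fin 3) ℂ => (inner ℂ a (mv M a)).re) := by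
  have h : (fun M : Matrix (Fin 3) (Fin 3) ℂ => (inner ℂ a (mv M a)).re) =
      fun M : Matrix (Fin 3) (Fin 3) ℂ =>
        (∑ i, (∑ j, M i j * a j) * (starRingEnd ℂ) (a i)).re := by
    funext M
    rw [Appr_inner_mv]
  rw [h]
  refine Complex.continuous_re.comp ?_
  refine continuous_finsetSum _ fun i _ => ?_
  refine Continuous.mul (continuous_finsetSum _ fun j _ => ?_) continuous_const
  exact ((continuous_id.matrix_elem i j)).mul continuous_const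

theorem Appr_tendsto {M : ℕ → Matrix (Fin 3) (Fin 3) ℂ} {L : Matrix (Fin 3) (Fin 3) ℂ}
    (h : ∀ (n : ℕ) i j, ‖M n i j - L i j‖ ≤ 1 / ((n : ℝ) + 1)) : Tendsto M atTop (𝓝 L) := by
  refine tendsto_pi_nhds.2 fun i => tendsto_pi_nhds.2 fun j => ?_
  rw [tendsto_iff_norm_sub_tendsto_zero]
  exact squeeze_zero (fun n => norm_nonneg _) (fun n => h n i j)
    tendsto_one_div_add_atTop_nhds_zero_nat

theorem Appr_entry {M : ℕ → Matrix (Fin 3) (Fin 3) ℂ} {L : Matrix (Fin 3) (Fin 3) ℂ}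
    (h : Tendsto M atTop (𝓝 L)) (i j : Fin 3) :
    Tendsto (fun n => ‖M n i j - L i j‖) atTop (𝓝 0) := by
  have h1 : Tendsto (fun n => M n i j) atTop (𝓝 (L i j)) :=
    ((continuous_id.matrix_elem i j).tendsto L).comp h
  exact tendsto_iff_norm_sub_tendsto_zero.1 h1

/-- the limit tensors are coercive -/
theorem appr_coercive {L : CFun} (h : Appr L) {x : ℝ} (hx : 0 < x) (a : V3) :
    min x 1 * ‖a‖ ^ 2 ≤ (inner ℂ a (mv (L x) a)).re := by
  have h1 : ∀ n : ℕ, ∃ M : Matrix (Fin 3) (Fin 3) ℂ,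
      min x 1 * ‖a‖ ^ 2 ≤ (inner ℂ a (mv M a)).re ∧
        ∀ i j, ‖M i j - L x i j‖ ≤ 1 / ((n : ℝ) + 1) := by
    intro n
    obtain ⟨S, hS, hM⟩ := h {x} (by simpa using hx) (1 / ((n : ℝ) + 1)) (by positivity)
    obtain ⟨M, hET⟩ := exists_ET hS (Complex.ofReal_mem_slitPlane.2 hx)
    exact ⟨M, hET.coercive hx a, hM x (Finset.mem_singleton_self x) M hET⟩
  choose M hM1 hM2 using h1
  have h2 : Tendsto M atTop (𝓝 (L x)) := Appr_tendsto hM2
  have h3 := ((Appr_continuous_inner a).tendsto (L x)).comp h2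
  exact ge_of_tendsto' h3 hM1

theorem Appr_den {m : Fin 3 → ℤ} (hm : m ≠ 0) {θ : ℝ} (h0 : 0 ≤ θ) (h1 : θ ≤ 1) {A B : CFun}
    (hA : Appr A) (hB : Appr B) {x : ℝ} (hx : 0 < x) :
    cv (fun i => (m i : ℝ)) ⬝ᵥ (((1 - θ : ℂ) • A x + (θ : ℂ) • B x) *ᵥ
      cv (fun i => (m i : ℝ))) ≠ 0 := by
  set a : V3 := WithLp.toLp 2 (cv (fun i => (m i : ℝ))) with ha
  have hcv : ∀ i, a i = ((m i : ℝ) : ℂ) := fun i => rfl
  have hconj : ∀ i, (starRingEnd ℂ) (a i) = a i := fun i => by rw [hcv, Complex.conj_ofReal]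
  have e : ∀ M : Matrix (Fin 3) (Fin 3) ℂ,
      cv (fun i => (m i : ℝ)) ⬝ᵥ (M *ᵥ cv (fun i => (m i : ℝ))) = inner ℂ a (mv M a) := by
    intro M
    rw [Appr_inner_mv]
    refine Finset.sum_congr rfl fun i _ => ?_
    rw [hconj, mul_comm]
    rfl
  have hne : a ≠ 0 := by
    intro h
    apply hm
    funext i
    have h2 : a i = 0 := by rw [h]; rfl
    rw [hcv] at h2
    exact Int.cast_eq_zero.1 (Complex.ofReal_eq_zero.1 h2)
  have hpos : 0 < ‖a‖ ^ 2 := by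
    have := norm_pos_iff.2 hne
    positivity
  have hmin : 0 < min x 1 := lt_min hx one_pos
  have cA := appr_coercive hA hx a
  have cB := appr_coercive hB hx a
  rw [← e] at cA cB
  intro hzero
  rw [Matrix.add_mulVec, Matrix.smul_mulVec, Matrix.smul_mulVec, dotProduct_add, dotProduct_smul,
    dotProduct_smul, smul_eq_mul, smul_eq_mul] at hzero
  have hre := congrArg Complex.re hzero
  rw [Complex.add_re, ← Complex.ofReal_one, ← Complex.ofReal_sub, Complex.re_ofReal_mul,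
    Complex.re_ofReal_mul, Complex.zero_re] at hre
  have hc : 0 < min x 1 * ‖a‖ ^ 2 := mul_pos hmin hpos
  have h2 := mul_le_mul_of_nonneg_left cA (sub_nonneg.2 h1)
  have h3 := mul_le_mul_of_nonneg_left cB h0
  nlinarith

theorem Appr_seq (f : Matrix (Fin 3) (Fin 3) ℂ → Matrix (Fin 3) (Fin 3) ℂ →
    Matrix (Fin 3) (Fin 3) ℂ) {A B : Matrix (Fin 3) (Fin 3) ℂ}
    (h : ContinuousAt (fun p : Matrix (Fin 3) (Fin 3) ℂ × Matrix (Fin 3) (Fin 3) ℂ =>
      f p.1 p.2) (A, B)) {P Q : ℕ → Matrix (Fin 3) (Fin 3) ℂ} (hP : Tendsto P atTop (𝓝 A))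
    (hQ : Tendsto Q atTop (𝓝 B)) {ε : ℝ} (hε : 0 < ε) :
    ∃ k, ∀ i j, ‖f (P k) (Q k) i j - f A B i j‖ < ε := by
  have h2 : Tendsto (fun k => f (P k) (Q k)) atTop (𝓝 (f A B)) :=
    h.tendsto.comp (hP.prodMk_nhds hQ)
  have h5 : ∀ᶠ k in atTop, ∀ p q : Fin 3, ‖f (P k) (Q k) p q - f A B p q‖ < ε :=
    eventually_all.2 fun p => eventually_all.2 fun q =>
      (Appr_entry h2 p q).eventually (gt_mem_nhds hε)
  exact h5.exists

theorem Appr_delta (f : Matrix (Fin 3) (Fin 3) ℂ → Matrix (Fin 3) (Fin 3) ℂ →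
    Matrix (Fin 3) (Fin 3) ℂ) {A B : Matrix (Fin 3) (Fin 3) ℂ}
    (h : ContinuousAt (fun p : Matrix (Fin 3) (Fin 3) ℂ × Matrix (Fin 3) (Fin 3) ℂ =>
      f p.1 p.2) (A, B)) {ε : ℝ} (hε : 0 < ε) :
    ∃ δ : ℝ, 0 < δ ∧ ∀ P Q : Matrix (Fin 3) (Fin 3) ℂ, (∀ i j, ‖P i j - A i j‖ ≤ δ) →
      (∀ i j, ‖Q i j - B i j‖ ≤ δ) → ∀ i j, ‖f P Q i j - f A B i j‖ ≤ ε := by
  by_contra hcon
  push Not at hcon
  have h1 : ∀ k : ℕ, ∃ P Q : Matrix (Fin 3) (Fin 3) ℂ,
      (∀ i j, ‖P i j - A i j‖ ≤ 1 / ((k : ℝ) + 1)) ∧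
        (∀ i j, ‖Q i j - B i j‖ ≤ 1 / ((k : ℝ) + 1)) ∧
          ∃ i j, ε < ‖f P Q i j - f A B i j‖ := fun k => hcon _ (by positivity)
  choose P Q hP hQ hij using h1
  obtain ⟨k, hk⟩ := Appr_seq f h (Appr_tendsto hP) (Appr_tendsto hQ) hε
  obtain ⟨i, j, h3⟩ := hij k
  exact absurd (hk i j) (not_lt.2 h3.le)

theorem appr_layer {m : Fin 3 → ℤ} (hm : m ≠ 0) {θ : ℝ} (h0 : 0 ≤ θ) (h1 : θ ≤ 1) {A B : CFun}
    (hA : Appr A) (hB : Appr B) :
    Appr (fun σ => layer (fun i => (m i : ℝ)) θ (A σ) (B σ)) := by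
  intro X hX ε hε
  have hδ : ∀ x : ℝ, ∃ δ : ℝ, 0 < δ ∧ (x ∈ X → ∀ P Q : Matrix (Fin 3) (Fin 3) ℂ,
      (∀ i j, ‖P i j - A x i j‖ ≤ δ) → (∀ i j, ‖Q i j - B x i j‖ ≤ δ) →
        ∀ i j, ‖layer (fun i => (m i : ℝ)) θ P Q i j -
          layer (fun i => (m i : ℝ)) θ (A x) (B x) i j‖ ≤ ε / 2) := by
    intro x
    by_cases hx : x ∈ X
    · obtain ⟨δ, hδ, h⟩ := Appr_delta (layer (fun i => (m i : ℝ)) θ)
        (layer_continuousAt _ θ (A x) (B x) (Appr_den hm h0 h1 hA hB (hX x hx))) (half_pos hε)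
      exact ⟨δ, hδ, fun _ => h⟩
    · exact ⟨1, one_pos, fun h => absurd h hx⟩
  choose δ hδ0 hδ using hδ
  have hmin : ∀ᶠ d in 𝓝[>] (0 : ℝ), 0 < d ∧ ∀ x ∈ X, d ≤ δ x := by
    refine (eventually_mem_nhdsWithin).and ?_
    rw [Filter.eventually_all_finset]
    intro x _
    exact eventually_nhdsWithin_of_eventually_nhds
      ((gt_mem_nhds (hδ0 x)).mono fun d hd => le_of_lt hd)
  obtain ⟨d, hd0, hd⟩ := hmin.exists
  obtain ⟨S, hS, hSM⟩ := hA X hX d hd0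
  obtain ⟨T, hT, hTM⟩ := hB X hX d hd0
  have hU : ∀ N, MeasurableSet
      ((slab m θ ∩ nmap N ⁻¹' S) ∪ ((slab m θ)ᶜ ∩ nmap N ⁻¹' T)) := by
    intro N
    have hn := (continuous_nmap N).measurable
    exact ((measurableSet_slab m θ).inter (hn hS)).union
      ((measurableSet_slab m θ).compl.inter (hn hT))
  have hev : ∀ x ∈ X, ∀ᶠ N in atTop, ∀ M, HasET (hU N) x M →
      ∀ i j, ‖M i j - layer (fun i => (m i : ℝ)) θ (A x) (B x) i j‖ ≤ ε := by
    intro x hx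
    obtain ⟨MA, hMA⟩ := exists_ET hS (Complex.ofReal_mem_slitPlane.2 (hX x hx))
    obtain ⟨MB, hMB⟩ := exists_ET hT (Complex.ofReal_mem_slitPlane.2 (hX x hx))
    have h2 := hδ x hx MA MB (fun i j => (hSM x hx MA hMA i j).trans (hd x hx))
      (fun i j => (hTM x hx MB hMB i j).trans (hd x hx))
    have h3 := lam_step hm h0 h1 hS hT (hX x hx) hMA hMB hU (fun _ => rfl) (half_pos hε)
    filter_upwards [h3] with N hN M hM i j
    have h4 := hN M hM i j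
    have h5 := h2 i j
    calc ‖M i j - layer (fun i => (m i : ℝ)) θ (A x) (B x) i j‖
        = ‖(M i j - layer (fun i => (m i : ℝ)) θ MA MB i j) +
          (layer (fun i => (m i : ℝ)) θ MA MB i j -
            layer (fun i => (m i : ℝ)) θ (A x) (B x) i j)‖ := by
          congr 1
          ring
      _ ≤ ε / 2 + ε / 2 := (norm_add_le _ _).trans (add_le_add h4 h5)
      _ = ε := by ring
  obtain ⟨N, hN⟩ := ((Filter.eventually_all_finset X).2 hev).exists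
  exact ⟨_, hU N, hN⟩

theorem appr_of_isLaminate {L : CFun} (hL : IsLaminate ZDir L) : Appr L := by
  induction hL with
  | phase1 => exact appr_phase1
  | phase2 => exact appr_phase2
  | layer hn h0 h1 _ _ ihA ihB =>
    obtain ⟨m, hm, rfl⟩ := hn
    exact appr_layer hm h0 h1 ihA ihB

end W_MP_e98908_an.H58
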