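import Pool.Agent.W_MP_e98908_an_h58.Ops1

/-!
# MP_e98908_an (helper58) : completeness of the plane waves
-/

namespace W_MP_e98908_an.H58

open MeasureTheory Set Filter Topology Complex UnitAddTorus

theorem Ops2_scalar {f : Cell → ℂ} (hm : MemLp f 2 cellMeasure) (h : ∀ n, fc f n = 0) :
    f =ᵐ[cellMeasure] 0 := by
  set F : Lp ℂ 2 cellMeasure := hm.toLp _ with hF
  have hFc : F =ᵐ[cellMeasure] f := hm.coeFn_toLp
  have h1 := UnitAddTorus.hasSum_sq_mFourierCoeff (d := Fin 3) (id F)
  have e1 : ∀ n, mFourierCoeff (id F : Lp ℂ 2 cellMeasure) n = 0 := by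
    intro n
    rw [← h n]
    show ∫ t, mFourier (-n) t • F t ∂cellMeasure = _
    unfold fc
    apply integral_congr_ae
    filter_upwards [hFc] with t ht
    rw [ht, smul_eq_mul]
  have h' : HasSum (fun n => ‖mFourierCoeff (id F : Lp ℂ 2 cellMeasure) n‖ ^ 2)
      (∫ t, ‖F t‖ ^ 2 ∂cellMeasure) := h1
  simp only [e1, norm_zero, ne_eq, OfNat.ofNat_ne_zero, not_false_eq_true, zero_pow] at h'
  have h2 : ∫ t, ‖F t‖ ^ 2 ∂cellMeasure = 0 := (h'.unique hasSum_zero)
  have hint : Integrable (fun t => ‖F t‖ ^ 2) cellMeasure := by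
    have := (Lp.memLp F).integrable_norm_pow (by norm_num)
    simpa using this
  have h3 := (integral_eq_zero_iff_of_nonneg (fun t => by positivity) hint).1 h2
  filter_upwards [h3, hFc] with t h4 h5
  rw [← h5]
  have h6 : ‖F t‖ ^ 2 = 0 := h4
  simpa using h6

/-- completeness of the plane waves -/
theorem eq_zero_of_coeff {e : Fld} (h : ∀ n i, fc (fun x => e x i) n = 0) : e = 0 := by
  have h1 : ∀ i, (fun x => e x i) =ᵐ[cellMeasure] 0 := fun i =>
    Ops2_scalar (memLp_comp e i) fun n => h n i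
  rw [Lp.eq_zero_iff_ae_eq_zero]
  filter_upwards [h1 0, h1 1, h1 2] with x h0 h1 h2
  ext i
  fin_cases i
  · exact h0
  · exact h1
  · exact h2

/-- the vector of Fourier coefficients -/
noncomputable def Ops2_cv (e : Fld) (n : Fin 3 → ℤ) : V3 :=
  WithLp.toLp 2 fun i => fc (fun x => e x i) n

theorem Ops2_cv_apply (e : Fld) (n : Fin 3 → ℤ) (i : Fin 3) :
    Ops2_cv e n i = fc (fun x => e x i) n := rfl

theorem Ops2_inner (a : V3) (n : Fin 3 → ℤ) (e : Fld) :
    inner ℂ (Wv a n) e = inner ℂ a (Ops2_cv e n) := by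
  rw [inner_Wv, PiLp.inner_apply]
  refine Finset.sum_congr rfl fun i _ => ?_
  rw [Ops2_cv_apply, RCLike.inner_apply]
  ring

theorem Ops2_cv_sub (e e' : Fld) (n : Fin 3 → ℤ) :
    Ops2_cv (e - e') n = Ops2_cv e n - Ops2_cv e' n := by
  ext i
  show fc (fun x => (e - e') x i) n = fc (fun x => e x i) n - fc (fun x => e' x i) n
  rw [← inner_Wsingle, ← inner_Wsingle, ← inner_Wsingle, ← inner_sub_right]

theorem Ops2_zero {e : Fld} (h : ∀ n, Ops2_cv e n = 0) : e = 0 := by
  refine eq_zero_of_coeff fun n i => ?_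
  rw [← Ops2_cv_apply, h n]
  rfl

/-- fields with Fourier coefficients in given subspaces -/
theorem Ops2_span (A : (Fin 3 → ℤ) → Submodule ℂ V3) {e : Fld} (h : ∀ n, Ops2_cv e n ∈ A n) :
    e ∈ (Submodule.span ℂ {w : Fld | ∃ n, ∃ a ∈ A n, w = Wv a n}).topologicalClosure := by
  obtain ⟨K, hK⟩ : ∃ K : Submodule ℂ Fld, K =
    (Submodule.span ℂ {w : Fld | ∃ n, ∃ a ∈ A n, w = Wv a n}).topologicalClosure := ⟨_, rfl⟩
  have : CompleteSpace K := by
    rw [hK]
    exact (Submodule.isClosed_topologicalClosure _).completeSpace_coe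
  rw [← hK]
  have hgen : ∀ n, ∀ a ∈ A n, Wv a n ∈ K := by
    intro n a ha
    rw [hK]
    exact Submodule.le_topologicalClosure _ (Submodule.subset_span ⟨n, a, ha, rfl⟩)
  have horth : ∀ n, ∀ c ∈ (A n)ᗮ, Wv c n ∈ Kᗮ := by
    intro n c hc
    rw [hK, Submodule.orthogonal_closure, Submodule.mem_orthogonal]
    intro u hu
    induction hu using Submodule.span_induction with
    | mem u hu =>
      obtain ⟨m, a, ha, rfl⟩ := hu
      rw [inner_WW]
      by_cases hnm : n = m
      · subst hnm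
        rw [if_pos rfl]
        exact (Submodule.mem_orthogonal _ _).1 hc a ha
      · rw [if_neg hnm]
    | zero => exact inner_zero_left _
    | add u v _ _ hu hv => rw [inner_add_left, hu, hv, add_zero]
    | smul c u _ hu => rw [inner_smul_left, hu, mul_zero]
  obtain ⟨p, hp⟩ : ∃ p, p = K.starProjection e := ⟨_, rfl⟩
  have hpK : p ∈ K := by rw [hp]; exact Submodule.starProjection_apply_mem K e
  have hyK : e - p ∈ Kᗮ := by rw [hp]; exact K.sub_starProjection_mem_orthogonal e
  have hcp : ∀ n, Ops2_cv p n ∈ A n := by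
    intro n
    rw [← Submodule.orthogonal_orthogonal (A n), Submodule.mem_orthogonal]
    intro c hc
    rw [← Ops2_inner]
    exact (Submodule.mem_orthogonal' _ _).1 (horth n c hc) p hpK
  have hy0 : e - p = 0 := by
    refine Ops2_zero fun n => ?_
    have h1 : Ops2_cv (e - p) n ∈ A n := by
      rw [Ops2_cv_sub]
      exact (A n).sub_mem (h n) (hcp n)
    have h2 : inner ℂ (Wv (Ops2_cv (e - p) n) n) (e - p) = 0 :=
      (Submodule.mem_orthogonal _ _).1 hyK _ (hgen n _ h1)
    rw [Ops2_inner] at h2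
    exact inner_self_eq_zero.1 h2
  rw [sub_eq_zero] at hy0
  rw [hy0]
  exact hpK

/-- gradient fields are characterised by their Fourier coefficients (converse of `Grd_coeff`) -/
theorem mem_Grd_of_coeff {e : Fld}
    (h : ∀ n, ∃ c : ℂ, ∀ i, fc (fun y => e y i) n = c * (waveVec b0 n i : ℂ)) :
    e ∈ Grd b0 := by
  have h1 := Ops2_span (fun n => ℂ ∙ kv b0 n) (e := e) (fun n => by
    obtain ⟨c, hc⟩ := h n
    rw [Submodule.mem_span_singleton]
    refine ⟨c, ?_⟩
    ext i
    rw [Ops2_cv_apply, hc i]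
    rfl)
  refine Submodule.topologicalClosure_mono (Submodule.span_le.2 ?_) h1
  rintro _ ⟨n, a, ha, rfl⟩
  obtain ⟨c, rfl⟩ := Submodule.mem_span_singleton.1 ha
  rw [Wv_smul]
  exact Submodule.smul_mem _ _ (Submodule.subset_span ⟨n, rfl⟩)

/-- the projection of a plane wave -/
theorem Γ_Wv (a : V3) (m : Fin 3 → ℤ) :
    Γ (Wv a m) = (inner ℂ (kv b0 m) a / (‖kv b0 m‖ : ℂ) ^ 2) • Wv (kv b0 m) m := by
  refine (Submodule.eq_starProjection_of_mem_orthogonal ?_ ?_)
  · exact Submodule.smul_mem _ _ (Wv_mem b0 m)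
  · rw [mem_Grd_orthogonal]
    intro n
    rw [inner_sub_right, inner_smul_right, inner_WW, inner_WW]
    by_cases hmn : m = n
    · subst hmn
      rw [if_pos rfl, if_pos rfl]
      by_cases hk : kv b0 m = 0
      · rw [hk]
        simp
      · rw [inner_self_eq_norm_sq_to_K]
        have h1 : (‖kv b0 m‖ : ℂ) ≠ 0 := by exact_mod_cast norm_ne_zero_iff.2 hk
        have h2 : ((‖kv b0 m‖ : ℂ)) ^ 2 ≠ 0 := pow_ne_zero 2 h1
        show inner ℂ (kv b0 m) a - inner ℂ (kv b0 m) a / (‖kv b0 m‖ : ℂ) ^ 2 *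
          ((‖kv b0 m‖ : ℂ)) ^ 2 = 0
        rw [div_mul_cancel₀ _ h2, sub_self]
    · rw [if_neg hmn, if_neg hmn, mul_zero, sub_zero]

/-- the indicator function times a constant vector is in the closed span of the plane waves with
that amplitude -/
theorem Pm_cst_mem {R : Set Cell} (hR : MeasurableSet R) (a : V3) :
    Pm hR (cst a) ∈ (Submodule.span ℂ (range fun k : Fin 3 → ℤ => Wv a k)).topologicalClosure := by
  have h1 := Ops2_span (fun _ => ℂ ∙ a) (e := Pm hR (cst a)) (fun n => by
    rw [Submodule.mem_span_singleton]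
    refine ⟨chat R n, ?_⟩
    ext i
    rw [Ops2_cv_apply]
    have h2 : (fun x => Pm hR (cst a) x i) =ᵐ[cellMeasure]
        fun x => a i * R.indicator (fun _ => (1 : ℂ)) x := by
      filter_upwards [Pm_coe hR (cst a), Wv_coe a 0] with x h3 h4
      rw [h3]
      by_cases hx : x ∈ R
      · rw [indicator_of_mem hx, indicator_of_mem hx, cst_apply, h4, mFourier_zero]
        simp
      · rw [indicator_of_notMem hx, indicator_of_notMem hx]
        simp
    rw [fc_congr h2]
    show chat R n * a i = _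
    unfold chat fc
    rw [← integral_mul_const]
    apply integral_congr_ae
    filter_upwards with x
    ring)
  refine Submodule.topologicalClosure_mono (Submodule.span_le.2 ?_) h1
  rintro _ ⟨n, c, hc, rfl⟩
  obtain ⟨d, rfl⟩ := Submodule.mem_span_singleton.1 hc
  rw [Wv_smul]
  exact Submodule.smul_mem _ _ (Submodule.subset_span ⟨n, rfl⟩)

/-- the divergence free fields of mean zero are in the closed span of the divergence free plane
waves -/
theorem orth_mean_zero_mem {e : Fld} (he : e ∈ (Grd b0)ᗮ) (h0 : mean e = 0) :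
    e ∈ (Submodule.span ℂ {w : Fld | ∃ (a : V3) (n : Fin 3 → ℤ), n ≠ 0 ∧
      inner ℂ (kv b0 n) a = 0 ∧ w = Wv a n}).topologicalClosure := by
  classical
  have h1 := Ops2_span (fun n => if n = 0 then ⊥ else (ℂ ∙ kv b0 n)ᗮ) (e := e) (fun n => by
    by_cases hn : n = 0
    · rw [if_pos hn, Submodule.mem_bot, hn]
      have h2 : Ops2_cv e 0 = mean e := rfl
      rw [h2, h0]
    · rw [if_neg hn, Submodule.mem_orthogonal_singleton_iff_inner_right, ← Ops2_inner]
      exact (mem_Grd_orthogonal b0).1 he n)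
  refine Submodule.topologicalClosure_mono (Submodule.span_le.2 ?_) h1
  rintro _ ⟨n, a, ha, rfl⟩
  by_cases hn : n = 0
  · rw [if_pos hn, Submodule.mem_bot] at ha
    rw [ha]
    have h2 : Wv (0 : V3) n = 0 := by
      have := Wv_smul 0 (0 : V3) n
      rwa [zero_smul, zero_smul] at this
    rw [h2]
    exact Submodule.zero_mem _
  · rw [if_neg hn, Submodule.mem_orthogonal_singleton_iff_inner_right] at ha
    exact Submodule.subset_span ⟨a, n, hn, ha, rfl⟩

end W_MP_e98908_an.H58
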