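import Pool.Agent.W_MP_e98908_an_h58.Solve
import Pool.Agent.W_MP_e98908_an_h58.Ops2

/-!
# MP_e98908_an (helper58) : effective tensors
-/

namespace W_MP_e98908_an.H58

open MeasureTheory Set Filter Topology Complex UnitAddTorus Matrix

/-- matrix times vector -/
noncomputable def mv (M : Matrix (Fin 3) (Fin 3) ℂ) (a : V3) : V3 :=
  WithLp.toLp 2 (M *ᵥ (WithLp.ofLp a))

/-- `M` is the effective tensor (with existence of the solutions built in) -/
def HasET {S : Set Cell} (hS : MeasurableSet S) (σ : ℂ) (M : Matrix (Fin 3) (Fin 3) ℂ) : Prop :=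
  ∀ a : V3, ∃ e, IsSol hS σ a e ∧ mean (Tc hS σ e) = mv M a

private theorem ET_mv_apply (M : Matrix (Fin 3) (Fin 3) ℂ) (a : V3) (i : Fin 3) :
    mv M a i = ∑ j, M i j * a j := rfl

private theorem ET_sum_single (a : V3) :
    ∑ j, a j • (EuclideanSpace.single j (1 : ℂ) : V3) = a := by
  ext i
  fin_cases i <;> simp [Fin.sum_univ_three]

theorem exists_ET {S : Set Cell} (hS : MeasurableSet S) {σ : ℂ} (hσ : σ ∈ slitPlane) :
    ∃ M, HasET hS σ M := by
  choose e he using fun j : Fin 3 => exists_sol hS hσ (EuclideanSpace.single j (1 : ℂ))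
  refine ⟨fun i j => mean (Tc hS σ (e j)) i, fun a => ⟨∑ j, a j • e j, ⟨?_, ?_⟩, ?_⟩⟩
  · have h1 : cst a = ∑ j, a j • cst (EuclideanSpace.single j (1 : ℂ)) := by
      conv_lhs => rw [← ET_sum_single a]
      rw [map_sum]
      exact Finset.sum_congr rfl fun j _ => map_smul _ _ _
    rw [h1, ← Finset.sum_sub_distrib]
    refine Submodule.sum_mem _ fun j _ => ?_
    rw [← smul_sub]
    exact Submodule.smul_mem _ _ (he j).fld
  · rw [map_sum]
    refine Submodule.sum_mem _ fun j _ => ?_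
    rw [map_smul]
    exact Submodule.smul_mem _ _ (he j).cur
  · rw [map_sum, map_sum]
    ext i
    rw [ET_mv_apply]
    have h2 : (∑ j, mean (Tc hS σ (a j • e j))) i = ∑ j, (mean (Tc hS σ (a j • e j))) i := by
      simp
    rw [h2]
    refine Finset.sum_congr rfl fun j _ => ?_
    rw [map_smul, map_smul, PiLp.smul_apply, smul_eq_mul, mul_comm]

theorem HasET.unique {S : Set Cell} {hS : MeasurableSet S} {σ : ℂ} (hσ : σ ∈ slitPlane)
    {M M' : Matrix (Fin 3) (Fin 3) ℂ} (h : HasET hS σ M) (h' : HasET hS σ M') : M = M' := by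
  ext i j
  obtain ⟨e, he, h1⟩ := h (EuclideanSpace.single j 1)
  obtain ⟨e', he', h1'⟩ := h' (EuclideanSpace.single j 1)
  rw [sol_unique hS hσ he he', h1'] at h1
  have h2 := congrArg (fun v : V3 => v i) h1
  simp only [ET_mv_apply] at h2
  simpa using h2.symm

/-- the coefficients of a sum -/
private theorem ET_fc_sub (e u : Fld) (n : Fin 3 → ℤ) (i : Fin 3) :
    fc (fun x => (e - u : Fld) x i) n = fc (fun x => e x i) n - fc (fun x => u x i) n := by
  rw [← inner_Wsingle, ← inner_Wsingle, ← inner_Wsingle, inner_sub_right]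

theorem HasET.isEffectiveTensor {S : Set Cell} {hS : MeasurableSet S} {σ : ℂ}
    (hσ : σ ∈ slitPlane) {M : Matrix (Fin 3) (Fin 3) ℂ} (h : HasET hS σ M) :
    IsEffectiveTensor b0 S σ M := by
  intro a e he hdiv i
  -- assemble the field
  have hm : MemLp (fun x => ∑ j, e j x • (EuclideanSpace.single j (1 : ℂ) : V3)) 2
      cellMeasure := by
    refine memLp_finsetSum _ fun j _ => ?_
    exact (ContinuousLinearMap.toSpanSingleton ℂ
      (EuclideanSpace.single j (1 : ℂ) : V3)).comp_memLp' (he.sqInt j)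
  obtain ⟨E, hE⟩ : ∃ E : Fld, E =ᵐ[cellMeasure]
      fun x => ∑ j, e j x • (EuclideanSpace.single j (1 : ℂ) : V3) := ⟨hm.toLp _, hm.coeFn_toLp⟩
  have hEi : ∀ j, (fun x => E x j) =ᵐ[cellMeasure] e j := by
    intro j
    filter_upwards [hE] with x hx
    rw [hx]
    fin_cases j <;> simp [Fin.sum_univ_three]
  have hfc : ∀ n j, fc (fun x => E x j) n = fc (e j) n := fun n j => fc_congr (hEi j) n
  set A : V3 := WithLp.toLp 2 a with hA
  have hAj : ∀ j, A j = a j := fun j => rfl
  have hfld : E - cst A ∈ Grd b0 := by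
    apply mem_Grd_of_coeff
    intro n
    by_cases hn : n = 0
    · refine ⟨0, fun j => ?_⟩
      subst hn
      rw [ET_fc_sub, hfc, he.mean, cst_apply, fc_Wv, if_pos rfl, hAj]
      simp
    · obtain ⟨V, hV⟩ := he.grad
      refine ⟨V n, fun j => ?_⟩
      rw [ET_fc_sub, hfc, hV n hn, cst_apply, fc_Wv, if_neg (Ne.symm hn), sub_zero]
  have hcur' : ∀ j, (fun x => Tc hS σ E x j) =ᵐ[cellMeasure] fun x => cond S σ x * e j x := by
    intro j
    filter_upwards [current_coe hS σ E j, hEi j] with x h1 h2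
    rw [Tc_apply, h1, h2]
  have hcur : Tc hS σ E ∈ (Grd b0)ᗮ := by
    rw [mem_Grd_orthogonal]
    intro n
    rw [inner_Wv, ← hdiv n]
    refine Finset.sum_congr rfl fun j _ => ?_
    rw [fc_congr (hcur' j)]
    simp [kv]
  obtain ⟨e', he', h1⟩ := h A
  rw [sol_unique hS hσ he' ⟨hfld, hcur⟩] at h1
  have h2 := congrArg (fun v : V3 => v i) h1
  simp only [ET_mv_apply] at h2
  rw [← fc_congr (hcur' i), ← mean_apply, h2]
  rfl

theorem HasET.coercive {S : Set Cell} {hS : MeasurableSet S} {x : ℝ} (hx : 0 < x)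
    {M : Matrix (Fin 3) (Fin 3) ℂ} (h : HasET hS x M) (a : V3) :
    min x 1 * ‖a‖ ^ 2 ≤ (inner ℂ a (mv M a)).re := by
  obtain ⟨e, he, h1⟩ := h a
  have h2 : inner ℂ (e - cst a) (Tc hS x e) = 0 :=
    (Submodule.mem_orthogonal _ _).1 he.cur _ he.fld
  rw [inner_sub_left, sub_eq_zero] at h2
  rw [← h1, ← inner_cst, ← h2]
  refine le_trans ?_ (Tc_coercive hS hx e)
  have h3 : mean e = a := by
    have h4 := mean_of_mem he.fld
    rw [map_sub, mean_cst, sub_eq_zero] at h4
    exact h4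
  have h5 : ‖a‖ ≤ ‖e‖ := by
    rw [← h3]; exact norm_mean_le e
  have h6 : 0 ≤ min x 1 := le_min hx.le zero_le_one
  exact mul_le_mul_of_nonneg_left (pow_le_pow_left₀ (norm_nonneg _) h5 2) h6

/-- the pure phases -/
theorem hasET_univ (σ : ℂ) : HasET MeasurableSet.univ σ (σ • 1) := by
  intro a
  have h1 : Pm MeasurableSet.univ (cst a) = cst a := by
    apply Lp.ext
    filter_upwards [Pm_coe MeasurableSet.univ (cst a)] with x hx
    rw [hx]; simp
  have h2 : Tc MeasurableSet.univ σ (cst a) = σ • cst a := by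
    rw [Tc_apply, h1, sub_self, add_zero]
  refine ⟨cst a, ⟨by rw [sub_self]; exact Submodule.zero_mem _, ?_⟩, ?_⟩
  · rw [h2]; exact Submodule.smul_mem _ _ (cst_orth a)
  · rw [h2, map_smul, mean_cst]
    ext i
    simp [mv, Matrix.smul_mulVec]

theorem hasET_empty (σ : ℂ) : HasET (S := (∅ : Set Cell)) MeasurableSet.empty σ 1 := by
  intro a
  have h1 : Pm MeasurableSet.empty (cst a) = 0 := by
    apply Lp.ext
    filter_upwards [Pm_coe MeasurableSet.empty (cst a), Lp.coeFn_zero V3 2 cellMeasure] with x hx h0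
    rw [hx, h0]; simp
  have h2 : Tc MeasurableSet.empty σ (cst a) = cst a := by
    rw [Tc_apply, h1, sub_zero, smul_zero, zero_add]
  refine ⟨cst a, ⟨by rw [sub_self]; exact Submodule.zero_mem _, ?_⟩, ?_⟩
  · rw [h2]; exact cst_orth a
  · rw [h2, mean_cst]
    ext i
    simp [mv]

end W_MP_e98908_an.H58
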