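import Pool.Agent.W_MP_e98908_an_h58.Act
import Pool.Agent.W_MP_e98908_an_h58.ET

/-!
# MP_e98908_an (helper58) : covariance of the effective tensor and isotropy
-/

namespace W_MP_e98908_an.H58

open MeasureTheory Set Filter Topology Complex UnitAddTorus Matrix

/-- multiplication by a matrix -/
noncomputable def Cov_T (M : Matrix (Fin 3) (Fin 3) ℂ) : V3 →L[ℂ] V3 :=
  LinearMap.toContinuousLinearMap
    { toFun := fun a => mv M a
      map_add' := fun a c => by
        unfold mv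
        rw [WithLp.ofLp_add, Matrix.mulVec_add, WithLp.toLp_add]
      map_smul' := fun c a => by
        unfold mv
        rw [WithLp.ofLp_smul, Matrix.mulVec_smul, WithLp.toLp_smul, RingHom.id_apply] }

theorem Cov_T_apply (M : Matrix (Fin 3) (Fin 3) ℂ) (a : V3) : Cov_T M a = mv M a := rfl

theorem Cov_mv_mv (M N : Matrix (Fin 3) (Fin 3) ℂ) (a : V3) : mv M (mv N a) = mv (M * N) a := by
  unfold mv
  rw [Matrix.mulVec_mulVec]

theorem Cov_mv_one (a : V3) : mv 1 a = a := by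
  unfold mv
  rw [Matrix.one_mulVec]

theorem Cov_conj (g : GI) (i j : Fin 3) : (starRingEnd ℂ) (Qg g i j) = Qg g i j := by
  unfold Qg
  split_ifs
  · simp
  · simp

theorem Cov_inner_mv (M : Matrix (Fin 3) (Fin 3) ℂ) (a c : V3) :
    inner ℂ (mv M a) (mv M c) = inner ℂ a (mv (Mᴴ * M) c) := by
  have h : ∀ u v : V3, inner ℂ u v = star (WithLp.ofLp u) ⬝ᵥ (WithLp.ofLp v) := by
    intro u v
    rw [PiLp.inner_apply]
    unfold dotProduct
    refine Finset.sum_congr rfl fun i _ => ?_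
    simp only [RCLike.inner_apply, Pi.star_apply, RCLike.star_def]
    ring
  rw [h, h]
  unfold mv
  rw [Matrix.star_mulVec, ← Matrix.mulVec_mulVec, Matrix.dotProduct_mulVec,
    Matrix.dotProduct_mulVec, Matrix.dotProduct_mulVec]

theorem Cov_inner (g : GI) (a c : V3) :
    inner ℂ (mv (Qg g)ᵀ a) (mv (Qg g)ᵀ c) = inner ℂ a c := by
  rw [Cov_inner_mv]
  have : (Qg g)ᵀᴴ = Qg g := by
    ext i j
    simp only [Matrix.conjTranspose_apply, Matrix.transpose_apply, RCLike.star_def]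
    exact Cov_conj g i j
  rw [this, Qg_mul, Cov_mv_one]

/-- the action on wave vectors -/
def Cov_n (g : GI) (n : Fin 3 → ℤ) : Fin 3 → ℤ := fun j => (g.1 (j - g.2) : ℤ) * n (j - g.2)

theorem Cov_n_surj (g : GI) (n : Fin 3 → ℤ) : ∃ m, Cov_n g m = n := by
  refine ⟨fun i => (g.1 i : ℤ) * n (i + g.2), ?_⟩
  funext j
  show (g.1 (j - g.2) : ℤ) * ((g.1 (j - g.2) : ℤ) * n (j - g.2 + g.2)) = n j
  rw [← mul_assoc, ← Units.val_mul, Int.units_mul_self, Units.val_one, one_mul, sub_add_cancel]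

theorem Cov_fourier (g : GI) (n : Fin 3 → ℤ) (x : Cell) :
    mFourier n (act g x) = mFourier (Cov_n g n) x := by
  unfold mFourier
  simp only [ContinuousMap.coe_mk]
  rw [← Equiv.prod_comp (Equiv.addRight g.2) (fun j => fourier (Cov_n g n j) (x j))]
  refine Finset.prod_congr rfl fun i _ => ?_
  simp only [Equiv.coe_addRight, Cov_n, act, add_sub_cancel_right]
  rw [fourier_apply, fourier_apply, smul_smul, mul_comm]

theorem Cov_kv (g : GI) (n : Fin 3 → ℤ) : mv (Qg g)ᵀ (kv b0 n) = kv b0 (Cov_n g n) := by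
  ext j
  rw [kv_b0]
  unfold mv
  simp only [Matrix.mulVec, dotProduct, Matrix.transpose_apply]
  rw [Finset.sum_eq_single (j - g.2)]
  · unfold Qg
    rw [if_pos (sub_add_cancel j g.2).symm, kv_b0]
    unfold Cov_n
    push_cast
    ring
  · intro i _ hi
    unfold Qg
    rw [if_neg (fun h => hi (by rw [h, add_sub_cancel_right])), zero_mul]
  · intro h
    exact absurd (Finset.mem_univ _) h

/-- the action on fields -/
noncomputable def Cov_U (g : GI) : Fld →L[ℂ] Fld :=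
  ((Cov_T (Qg g)ᵀ).compLpL 2 cellMeasure).comp
    (Lp.compMeasurePreservingₗᵢ ℂ (act g) (act_mp g)).toContinuousLinearMap

theorem Cov_U_coe (g : GI) (e : Fld) :
    Cov_U g e =ᵐ[cellMeasure] fun x => mv (Qg g)ᵀ (e (act g x)) := by
  have h1 := (Cov_T (Qg g)ᵀ).coeFn_compLpL (p := 2) (μ := cellMeasure)
    (Lp.compMeasurePreserving (act g) (act_mp g) e)
  have h2 := Lp.coeFn_compMeasurePreserving (E := V3) (p := 2) e (act_mp g)
  filter_upwards [h1, h2] with x hx1 hx2
  show ((Cov_T (Qg g)ᵀ).compLpL 2 cellMeasure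
    (Lp.compMeasurePreserving (act g) (act_mp g) e)) x = _
  rw [hx1, hx2]
  rfl

theorem Cov_U_inner (g : GI) (e f : Fld) : inner ℂ (Cov_U g e) (Cov_U g f) = inner ℂ e f := by
  rw [L2.inner_def, L2.inner_def]
  have h1 : ∫ x, inner ℂ (Cov_U g e x) (Cov_U g f x) ∂cellMeasure =
      ∫ x, inner ℂ (e (act g x)) (f (act g x)) ∂cellMeasure := by
    apply integral_congr_ae
    filter_upwards [Cov_U_coe g e, Cov_U_coe g f] with x h1 h2
    rw [h1, h2, Cov_inner]
  rw [h1]
  have h2 := (act_mp g).map_eq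
  have h3 : AEStronglyMeasurable (fun x => (inner ℂ (e x) (f x) : ℂ))
      (Measure.map (act g) cellMeasure) := by
    rw [h2]
    exact (Lp.aestronglyMeasurable e).inner (Lp.aestronglyMeasurable f)
  have h4 := integral_map (act_mp g).measurable.aemeasurable h3
  rw [h2] at h4
  exact h4.symm

theorem Cov_U_Wv (g : GI) (a : V3) (n : Fin 3 → ℤ) :
    Cov_U g (Wv a n) = Wv (mv (Qg g)ᵀ a) (Cov_n g n) := by
  apply Lp.ext
  have h1 : (fun x => Wv a n (act g x)) =ᵐ[cellMeasure] fun x => mFourier n (act g x) • a :=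
    (act_mp g).quasiMeasurePreserving.ae_eq_comp (Wv_coe a n)
  filter_upwards [Cov_U_coe g (Wv a n), h1, Wv_coe (mv (Qg g)ᵀ a) (Cov_n g n)] with x h1 h2 h3
  rw [h1, h2, h3, Cov_fourier]
  unfold mv
  rw [WithLp.ofLp_smul, Matrix.mulVec_smul, WithLp.toLp_smul]

theorem Cov_n_zero (g : GI) : Cov_n g 0 = 0 := by
  funext j
  unfold Cov_n
  simp

theorem Cov_U_cst (g : GI) (a : V3) : Cov_U g (cst a) = cst (mv (Qg g)ᵀ a) := by
  rw [cst_apply, cst_apply, Cov_U_Wv, Cov_n_zero]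

theorem Cov_U_Grd (g : GI) {e : Fld} (he : e ∈ Grd b0) : Cov_U g e ∈ Grd b0 := by
  unfold Grd at he ⊢
  have h1 : Submodule.span ℂ (range fun n => Wv (kv b0 n) n) ≤
      (Submodule.span ℂ (range fun n => Wv (kv b0 n) n)).topologicalClosure.comap
        (Cov_U g : Fld →ₗ[ℂ] Fld) := by
    rw [Submodule.span_le]
    rintro _ ⟨n, rfl⟩
    show Cov_U g (Wv (kv b0 n) n) ∈
      (Submodule.span ℂ (range fun n => Wv (kv b0 n) n)).topologicalClosure
    rw [Cov_U_Wv, Cov_kv]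
    exact Submodule.le_topologicalClosure _ (Submodule.subset_span ⟨_, rfl⟩)
  have h2 : IsClosed ((Submodule.span ℂ (range fun n => Wv (kv b0 n) n)).topologicalClosure.comap
        (Cov_U g : Fld →ₗ[ℂ] Fld) : Set Fld) :=
    (Submodule.isClosed_topologicalClosure _).preimage (Cov_U g).continuous
  exact Submodule.topologicalClosure_minimal _ h1 h2 he

theorem Cov_U_orth (g : GI) {e : Fld} (he : e ∈ (Grd b0)ᗮ) : Cov_U g e ∈ (Grd b0)ᗮ := by
  rw [mem_Grd_orthogonal] at he ⊢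
  intro n
  obtain ⟨m, rfl⟩ := Cov_n_surj g n
  rw [← Cov_kv, ← Cov_U_Wv, Cov_U_inner]
  exact he m

theorem Cov_mean (g : GI) (e : Fld) : mean (Cov_U g e) = mv (Qg g)ᵀ (mean e) := by
  refine ext_inner_left ℂ fun a => ?_
  have h1 : a = mv (Qg g)ᵀ (mv (Qg g) a) := by
    rw [Cov_mv_mv, Qg_mul', Cov_mv_one]
  rw [← inner_cst]
  conv_lhs => rw [h1]
  conv_rhs => rw [h1]
  rw [← Cov_U_cst, Cov_U_inner, inner_cst, Cov_inner]

theorem Cov_Pm (g : GI) {S : Set Cell} (hS : MeasurableSet S) (e : Fld) :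
    Pm ((continuous_act g).measurable hS) (Cov_U g e) = Cov_U g (Pm hS e) := by
  apply Lp.ext
  have h1 : (fun x => Pm hS e (act g x)) =ᵐ[cellMeasure] fun x => S.indicator e (act g x) :=
    (act_mp g).quasiMeasurePreserving.ae_eq_comp (Pm_coe hS e)
  filter_upwards [Pm_coe ((continuous_act g).measurable hS) (Cov_U g e), Cov_U_coe g e,
    Cov_U_coe g (Pm hS e), h1] with x h2 h3 h4 h5
  rw [h2, h4, h5]
  by_cases hx : act g x ∈ S
  · rw [indicator_of_mem (show x ∈ act g ⁻¹' S from hx), indicator_of_mem hx, h3]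
  · rw [indicator_of_notMem (show x ∉ act g ⁻¹' S from hx), indicator_of_notMem hx]
    unfold mv
    simp

theorem Cov_Tc (g : GI) {S : Set Cell} (hS : MeasurableSet S) (σ : ℂ) (e : Fld) :
    Tc ((continuous_act g).measurable hS) σ (Cov_U g e) = Cov_U g (Tc hS σ e) := by
  rw [Tc_apply, Tc_apply, Cov_Pm, map_add, map_sub, map_smul]

/-- **Covariance.** -/
theorem hasET_act (g : GI) {S : Set Cell} {hS : MeasurableSet S} {σ : ℂ}
    {M : Matrix (Fin 3) (Fin 3) ℂ} (h : HasET hS σ M) :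
    HasET ((continuous_act g).measurable hS) σ ((Qg g)ᵀ * M * Qg g) := by
  intro a
  obtain ⟨e, he, hm⟩ := h (mv (Qg g) a)
  refine ⟨Cov_U g e, ⟨?_, ?_⟩, ?_⟩
  · have h1 : Cov_U g e - cst a = Cov_U g (e - cst (mv (Qg g) a)) := by
      rw [map_sub, Cov_U_cst, Cov_mv_mv, Qg_mul', Cov_mv_one]
    rw [h1]
    exact Cov_U_Grd g he.fld
  · rw [Cov_Tc g hS]
    exact Cov_U_orth g he.cur
  · rw [Cov_Tc g hS, Cov_mean, hm, Cov_mv_mv, Cov_mv_mv]

theorem Cov_entry (g : GI) (M : Matrix (Fin 3) (Fin 3) ℂ) (i j : Fin 3) :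
    ((Qg g)ᵀ * M * Qg g) (i + g.2) (j + g.2) = ((g.1 i : ℤ) : ℂ) * M i j * ((g.1 j : ℤ) : ℂ) := by
  rw [Matrix.mul_apply, Finset.sum_eq_single j]
  · rw [Matrix.mul_apply, Finset.sum_eq_single i]
    · simp [Qg]
    · intro k _ hk
      have : ¬ (i + g.2 = k + g.2) := fun h => hk (add_right_cancel h).symm
      simp [Qg, this]
    · intro h
      exact absurd (Finset.mem_univ _) h
  · intro k _ hk
    have : ¬ (j + g.2 = k + g.2) := fun h => hk (add_right_cancel h).symm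
    simp [Qg, this]
  · intro h
    exact absurd (Finset.mem_univ _) h

theorem scalar_of_commute {M : Matrix (Fin 3) (Fin 3) ℂ}
    (h : ∀ g : GI, (Qg g)ᵀ * M * Qg g = M) : M = M 0 0 • (1 : Matrix (Fin 3) (Fin 3) ℂ) := by
  have h1 : ∀ i j, i ≠ j → M i j = 0 := by
    intro i j hij
    have h2 := Cov_entry (Function.update 1 i (-1), 0) M i j
    rw [h] at h2
    simp only [add_zero, Function.update_self, Function.update_of_ne (Ne.symm hij), Pi.one_apply,
      Units.val_neg, Units.val_one, Int.cast_neg, Int.cast_one, mul_one, neg_mul, one_mul] at h2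
    linear_combination (1 / 2) * h2
  have h3 : ∀ i, M i i = M 0 0 := by
    intro i
    have h2 := Cov_entry (1, i) M 0 0
    rw [h] at h2
    simpa using h2
  ext i j
  by_cases hij : i = j
  · subst hij
    rw [h3 i]
    simp
  · rw [h1 i j hij]
    simp [Matrix.one_apply_ne hij]

theorem Cov_congr {S S' : Set Cell} (h : S = S') (hS : MeasurableSet S)
    (hS' : MeasurableSet S') {σ : ℂ} {M : Matrix (Fin 3) (Fin 3) ℂ} (hM : HasET hS σ M) :
    HasET hS' σ M := by
  subst h; exact hM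

/-- **Isotropy of composites with cubic symmetry.** -/
theorem isotropic_of_act {S : Set Cell} (hS : MeasurableSet S)
    (h : ∀ g : GI, act g ⁻¹' S = S) :
    ∃ g : ℂ → ℂ, IsIsotropicComposite b0 S g ∧
      ∀ σ ∈ slitPlane, HasET hS σ (g σ • (1 : Matrix (Fin 3) (Fin 3) ℂ)) := by
  have h1 : ∀ σ : ℂ, ∃ c : ℂ, σ ∈ slitPlane → HasET hS σ (c • (1 : Matrix (Fin 3) (Fin 3) ℂ)) := by
    intro σ
    by_cases hσ : σ ∈ slitPlane
    · obtain ⟨M, hM⟩ := exists_ET hS hσ
      refine ⟨M 0 0, fun _ => ?_⟩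
      rw [← scalar_of_commute fun g => ?_]
      · exact hM
      · exact HasET.unique hσ (Cov_congr (h g) _ hS (hasET_act g hM)) hM
    · exact ⟨0, fun h' => absurd h' hσ⟩
  choose g hg using h1
  exact ⟨g, ⟨hS, fun σ hσ => (hg σ hσ).isEffectiveTensor hσ⟩, hg⟩

end W_MP_e98908_an.H58
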