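import Pool.Agent.W_MP_e98908_an_h58.Fund
import Pool.Agent.W_MP_e98908_an_h58.Cov
import Pool.Agent.W_MP_e98908_an_h58.Appr

/-!
# MP_e98908_an (helper58) : isotropic laminate functions are limits of isotropic periodic composites
-/

namespace W_MP_e98908_an.H58

open MeasureTheory Set Filter Topology Complex UnitAddTorus Matrix

theorem Cubic_sum_coe {J : Type} (s : Finset J) {R : J → Set Cell}
    (hR : ∀ j, MeasurableSet (R j)) (e : J → Fld) :
    (∑ j ∈ s, Pm (hR j) (e j) : Fld) =ᵐ[cellMeasure] fun x => ∑ j ∈ s, (R j).indicator (e j) x := by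
  classical
  induction s using Finset.induction_on with
  | empty =>
    filter_upwards [Lp.coeFn_zero V3 2 cellMeasure] with x hx
    simp only [Finset.sum_empty]
    exact hx
  | insert j s hj ih =>
    rw [Finset.sum_insert hj]
    filter_upwards [Lp.coeFn_add (Pm (hR j) (e j)) (∑ j ∈ s, Pm (hR j) (e j)), ih,
      Pm_coe (hR j) (e j)] with x h1 h2 h3
    rw [h1, Pi.add_apply, h2, h3, Finset.sum_insert hj]

theorem Cubic_sum_Pm (e : Fld) : ∑ g : GI, Pm (measurableSet_RD g) e = e := by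
  classical
  apply Lp.ext
  have hnull : ∀ᵐ x ∂cellMeasure, x ∈ ⋃ g, RD g := by
    rw [ae_iff]
    exact RD_null
  filter_upwards [Cubic_sum_coe Finset.univ measurableSet_RD (fun _ : GI => e), hnull] with x h1 h2
  rw [h1]
  obtain ⟨g0, hg0⟩ := mem_iUnion.1 h2
  rw [Finset.sum_eq_single g0]
  · exact indicator_of_mem hg0 _
  · intro g _ hg
    apply indicator_of_notMem
    intro hx
    exact (Set.disjoint_left.1 (RD_disjoint hg) hx) hg0
  · intro h
    exact absurd (Finset.mem_univ _) h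

theorem Cubic_sum_real : ∑ g : GI, cellMeasure.real (RD g) = 1 := by
  have h1 : cellMeasure (⋃ g, RD g) = 1 := by
    have h2 : MeasurableSet (⋃ g, RD g) := MeasurableSet.iUnion measurableSet_RD
    exact (prob_compl_eq_zero_iff h2).1 RD_null
  have h3 := measureReal_iUnion_fintype (μ := cellMeasure) RD_disjoint measurableSet_RD
  rw [← h3, Measure.real, h1, ENNReal.toReal_one]

theorem Cubic_conj_apply (g : GI) (N : Matrix (Fin 3) (Fin 3) ℂ) (i j : Fin 3) :
    ((Qg g)ᵀ * N * Qg g) i j =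
      ((g.1 (i - g.2) : ℤ) : ℂ) * N (i - g.2) (j - g.2) * ((g.1 (j - g.2) : ℤ) : ℂ) := by
  rw [Matrix.mul_apply, Finset.sum_eq_single (j - g.2)]
  · rw [Matrix.mul_apply, Finset.sum_eq_single (i - g.2)]
    · simp only [Matrix.transpose_apply, Qg, sub_add_cancel, if_true]
    · intro k _ hk
      have : i ≠ k + g.2 := fun h => hk (by rw [h, add_sub_cancel_right])
      simp only [Matrix.transpose_apply, Qg, if_neg this, zero_mul]
    · intro h
      exact absurd (Finset.mem_univ _) h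
  · intro k _ hk
    have : j ≠ k + g.2 := fun h => hk (by rw [h, add_sub_cancel_right])
    simp only [Qg, if_neg this, mul_zero]
  · intro h
    exact absurd (Finset.mem_univ _) h

theorem Cubic_norm_unit (u : ℤˣ) : ‖((u : ℤ) : ℂ)‖ = 1 := by
  rcases Int.units_eq_one_or u with h | h <;> rw [h] <;> simp

theorem Cubic_norm_conj (g : GI) {N : Matrix (Fin 3) (Fin 3) ℂ} {ε : ℝ}
    (h : ∀ i j, ‖N i j‖ ≤ ε) (i j : Fin 3) : ‖((Qg g)ᵀ * N * Qg g) i j‖ ≤ ε := by
  rw [Cubic_conj_apply, norm_mul, norm_mul, Cubic_norm_unit, Cubic_norm_unit, one_mul, mul_one]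
  exact h _ _

theorem Cubic_norm_le (a : V3) {ε : ℝ} (h : ∀ i, ‖a i‖ ≤ ε) : ‖a‖ ≤ 3 * ε := by
  have h0 : 0 ≤ ε := (norm_nonneg _).trans (h 0)
  rw [EuclideanSpace.norm_eq]
  have h1 : ∑ i, ‖a i‖ ^ 2 ≤ (3 * ε) ^ 2 := by
    have h2 : ∑ i : Fin 3, ‖a i‖ ^ 2 ≤ ∑ _i : Fin 3, ε ^ 2 :=
      Finset.sum_le_sum fun i _ => pow_le_pow_left₀ (norm_nonneg _) (h i) 2
    simp only [Finset.sum_const, Finset.card_univ, Fintype.card_fin, nsmul_eq_mul] at h2
    push_cast at h2
    nlinarith [sq_nonneg ε]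
  calc √(∑ i, ‖a i‖ ^ 2) ≤ √((3 * ε) ^ 2) := Real.sqrt_le_sqrt h1
    _ = 3 * ε := Real.sqrt_sq (by positivity)

theorem Cubic_mv_add (M N : Matrix (Fin 3) (Fin 3) ℂ) (a : V3) :
    mv (M + N) a = mv M a + mv N a := by
  unfold mv
  rw [Matrix.add_mulVec, WithLp.toLp_add]

theorem Cubic_mv_smul_one (c : ℂ) (a : V3) :
    mv (c • (1 : Matrix (Fin 3) (Fin 3) ℂ)) a = c • a := by
  unfold mv
  rw [Matrix.smul_mulVec, Matrix.one_mulVec, WithLp.toLp_smul]

theorem Cubic_hasET_congr {A B : Set Cell} (h : A = B) (hA : MeasurableSet A)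
    (hB : MeasurableSet B) {σ : ℂ} {M : Matrix (Fin 3) (Fin 3) ℂ} (hM : HasET hA σ M) :
    HasET hB σ M := by
  subst h
  exact hM

/-- if the effective tensor of `S` is nearly isotropic, then the symmetrised composite has nearly
the same conductivity (at one point `x`) -/
theorem sym_step {S : Set Cell} (hS : MeasurableSet S) {x : ℝ} (hx : 0 < x) {t ε : ℝ} (hε : 0 < ε)
    {M : Matrix (Fin 3) (Fin 3) ℂ} (hM : HasET hS x M)
    (hMt : ∀ i j, ‖M i j - (if i = j then (t : ℂ) else 0)‖ ≤ ε)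
    {U : ℕ → Set Cell} (hU : ∀ N, MeasurableSet (U N)) (hUe : ∀ N, U N = sym S N) :
    ∀ᶠ N in atTop, ∀ c : ℂ, HasET (hU N) x (c • (1 : Matrix (Fin 3) (Fin 3) ℂ)) →
      ‖c - t‖ ≤ 1000 * (1 + max x 1 / min x 1) * ε := by
  set r : ℝ := max x 1 / min x 1 with hr
  have hr0 : 0 ≤ r := by
    rw [hr]
    exact div_nonneg (le_max_of_le_right zero_le_one) (le_min hx.le zero_le_one)
  let a : V3 := EuclideanSpace.single 0 1
  have ha : ‖a‖ = 1 := by simp [a]
  let N' : Matrix (Fin 3) (Fin 3) ℂ := M - (t : ℂ) • (1 : Matrix (Fin 3) (Fin 3) ℂ)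
  have hN' : ∀ i j, ‖N' i j‖ ≤ ε := by
    intro i j
    have h1 : N' i j = M i j - (if i = j then (t : ℂ) else 0) := by
      simp only [N', Matrix.sub_apply, Matrix.smul_apply, Matrix.one_apply, smul_eq_mul, mul_ite,
        mul_one, mul_zero]
    rw [h1]
    exact hMt i j
  let Mg : GI → Matrix (Fin 3) (Fin 3) ℂ := fun g => (Qg g)ᵀ * M * Qg g
  have hMg : ∀ g, Mg g = (t : ℂ) • (1 : Matrix (Fin 3) (Fin 3) ℂ) + (Qg g)ᵀ * N' * Qg g := by
    intro g
    have h1 : M = (t : ℂ) • (1 : Matrix (Fin 3) (Fin 3) ℂ) + N' := by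
      simp only [N']; abel
    have h2 : Mg g = (Qg g)ᵀ * ((t : ℂ) • (1 : Matrix (Fin 3) (Fin 3) ℂ) + N') * Qg g := by
      rw [← h1]
    rw [h2, mul_add, add_mul, Matrix.mul_smul, Matrix.smul_mul, Matrix.mul_one, Qg_mul']
  let d : GI → V3 := fun g => mv ((Qg g)ᵀ * N' * Qg g) a
  have hd : ∀ g, ‖d g‖ ≤ 3 * ε := by
    intro g
    apply Cubic_norm_le
    intro i
    have h1 : d g i = ((Qg g)ᵀ * N' * Qg g) i 0 := by
      simp [d, mv, a]
    rw [h1]
    exact Cubic_norm_conj g hN' i 0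
  have hmv : ∀ g, mv (Mg g) a = (t : ℂ) • a + d g := by
    intro g
    rw [hMg, Cubic_mv_add, Cubic_mv_smul_one]
  have hET : ∀ g : GI, HasET ((continuous_act g).measurable hS) x (Mg g) := fun g => hasET_act g hM
  have hE : ∑ g : GI, Pm (measurableSet_RD g) (cst a) - cst a ∈ Grd b0 := by
    rw [Cubic_sum_Pm, sub_self]
    exact zero_mem _
  have h2s := two_scale (J := GI) (R := RD) (S := fun g => act g ⁻¹' S) measurableSet_RD
    (fun g => (continuous_act g).measurable hS) RD_disjoint hx Mg hET a (fun _ => a) hE hε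
  filter_upwards [h2s] with N hN
  intro c hc
  have hc' : HasET (measurable_comb measurableSet_RD
      (fun g => (continuous_act g).measurable hS) N) x (c • (1 : Matrix (Fin 3) (Fin 3) ℂ)) :=
    Cubic_hasET_congr (hUe N) (hU N) _ hc
  have h3 := hN _ hc'
  have h4 : ∑ g : GI, Pm (measurableSet_RD g) (cst (mv (Mg g) a)) =
      cst ((t : ℂ) • a) + ∑ g : GI, Pm (measurableSet_RD g) (cst (d g)) := by
    simp only [hmv, map_add]
    rw [Finset.sum_add_distrib, Cubic_sum_Pm]
  have h5 : ‖Γ (∑ g : GI, Pm (measurableSet_RD g) (cst (mv (Mg g) a)))‖ ≤ 72 * ε := by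
    rw [h4, map_add, Γ_cst, zero_add]
    have h6 : ‖Γ (∑ g : GI, Pm (measurableSet_RD g) (cst (d g)))‖ ≤
        ‖∑ g : GI, Pm (measurableSet_RD g) (cst (d g))‖ := by
      have := (Grd b0).starProjection.le_of_opNorm_le (Submodule.starProjection_norm_le _)
        (∑ g : GI, Pm (measurableSet_RD g) (cst (d g)))
      rwa [one_mul] at this
    refine h6.trans ((norm_sum_le _ _).trans ?_)
    have h7 : ∀ g : GI, ‖Pm (measurableSet_RD g) (cst (d g))‖ ≤ 3 * ε := by
      intro g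
      refine (PF_norm (measurableSet_RD g) (cst (d g))).trans ?_
      rw [norm_cst]
      exact hd g
    refine (Finset.sum_le_sum fun g _ => h7 g).trans ?_
    rw [Finset.sum_const, Finset.card_univ, nsmul_eq_mul]
    have h8 : Fintype.card GI = 24 := by
      simp [GI, Fintype.card_prod, Fintype.card_units_int]
    rw [h8]
    push_cast
    linarith
  have h9 : ∑ g : GI, (cellMeasure.real (RD g) : ℂ) • mv (Mg g) a =
      (t : ℂ) • a + ∑ g : GI, (cellMeasure.real (RD g) : ℂ) • d g := by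
    simp only [hmv, smul_add]
    rw [Finset.sum_add_distrib, ← Finset.sum_smul, ← Complex.ofReal_sum, Cubic_sum_real,
      Complex.ofReal_one, one_smul]
  have h10 : ‖∑ g : GI, (cellMeasure.real (RD g) : ℂ) • d g‖ ≤ 3 * ε := by
    refine (norm_sum_le _ _).trans ?_
    have h11 : ∀ g : GI, ‖(cellMeasure.real (RD g) : ℂ) • d g‖ ≤
        cellMeasure.real (RD g) * (3 * ε) := by
      intro g
      rw [norm_smul, Complex.norm_real, Real.norm_of_nonneg measureReal_nonneg]
      exact mul_le_mul_of_nonneg_left (hd g) measureReal_nonneg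
    refine (Finset.sum_le_sum fun g _ => h11 g).trans ?_
    rw [← Finset.sum_mul, Cubic_sum_real, one_mul]
  rw [Cubic_mv_smul_one, h9] at h3
  have h12 : (c - t) • a = (c • a - ((t : ℂ) • a + ∑ g : GI, (cellMeasure.real (RD g) : ℂ) • d g)) +
      ∑ g : GI, (cellMeasure.real (RD g) : ℂ) • d g := by
    rw [sub_smul]; abel
  have h13 : ‖c - t‖ = ‖(c - t) • a‖ := by rw [norm_smul, ha, mul_one]
  rw [h13, h12]
  refine (norm_add_le _ _).trans ?_
  have h14 : r * ‖Γ (∑ g : GI, Pm (measurableSet_RD g) (cst (mv (Mg g) a)))‖ ≤ r * (72 * ε) :=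
    mul_le_mul_of_nonneg_left h5 hr0
  nlinarith [mul_nonneg hr0 hε.le]

/-- **Isotropic laminate functions are limits of conductivity functions of isotropic periodic
composites.** -/
theorem appr_isotropic {L : CFun} (hL : IsLaminate ZDir L) {t : ℝ → ℝ} {X : Finset ℝ}
    (hX : ∀ x ∈ X, 0 < x) (ht : ∀ x ∈ X, L x = (t x : ℂ) • (1 : Matrix (Fin 3) (Fin 3) ℂ))
    {ε : ℝ} (hε : 0 < ε) :
    ∃ (S : Set Cell) (g : ℂ → ℂ), IsIsotropicComposite b0 S g ∧ ∀ x ∈ X, ‖g x - t x‖ ≤ ε := by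
  have hpos : ∀ x ∈ X, 0 ≤ max x 1 / min x 1 := fun x hx =>
    div_nonneg (le_max_of_le_right zero_le_one) (le_min (hX x hx).le zero_le_one)
  set R : ℝ := 1 + ∑ x ∈ X, max x 1 / min x 1 with hR
  have hR1 : 1 ≤ R := by
    rw [hR]
    have := Finset.sum_nonneg hpos
    linarith
  have hRx : ∀ x ∈ X, 1 + max x 1 / min x 1 ≤ R := by
    intro x hx
    rw [hR]
    have := Finset.single_le_sum hpos hx
    linarith
  obtain ⟨S, hS, hSX⟩ := appr_of_isLaminate hL X hX (ε / (1000 * R)) (by positivity)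
  have hUm : ∀ N, MeasurableSet (sym S N) := by
    intro N
    refine MeasurableSet.iUnion fun g => (measurableSet_RD g).inter ?_
    exact (continuous_nmap N).measurable ((continuous_act g).measurable hS)
  have hiso : ∀ N, ∃ g : ℂ → ℂ, IsIsotropicComposite b0 (sym S N) g ∧
      ∀ σ ∈ slitPlane, HasET (hUm N) σ (g σ • (1 : Matrix (Fin 3) (Fin 3) ℂ)) := fun N =>
    isotropic_of_act (hUm N) fun h => act_sym h S N
  choose g hg1 hg2 using hiso
  have hev : ∀ x ∈ X, ∀ᶠ N in atTop, ‖g N x - t x‖ ≤ ε := by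
    intro x hx
    have hxs : (x : ℂ) ∈ slitPlane := by
      rw [Complex.ofReal_mem_slitPlane]
      exact hX x hx
    obtain ⟨M, hM⟩ := exists_ET hS hxs
    have hMt : ∀ i j, ‖M i j - (if i = j then (t x : ℂ) else 0)‖ ≤ ε / (1000 * R) := by
      intro i j
      have h1 := hSX x hx M hM i j
      rw [ht x hx] at h1
      simp only [Matrix.smul_apply, Matrix.one_apply, smul_eq_mul, mul_ite, mul_one,
        mul_zero] at h1
      exact h1
    filter_upwards [sym_step hS (hX x hx) (by positivity) hM hMt hUm (fun _ => rfl)] with N hN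
    refine (hN _ (hg2 N x hxs)).trans ?_
    have h2 : 1000 * (1 + max x 1 / min x 1) * (ε / (1000 * R)) ≤
        1000 * R * (ε / (1000 * R)) := by
      refine mul_le_mul_of_nonneg_right ?_ (by positivity)
      have := hRx x hx
      linarith
    refine h2.trans (le_of_eq ?_)
    field_simp
  obtain ⟨N, hN⟩ := ((Filter.eventually_all_finset X).2 hev).exists
  exact ⟨sym S N, g N, hg1 N, hN⟩

end W_MP_e98908_an.H58
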