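import Pool.Agent.W_MP_e98908_an_h58.Ex

/-!
# MP_e98908_an (helper58) : evaluation of the example at rational points
-/

namespace W_MP_e98908_an.H58

open Matrix Complex

/-! ### evaluation at rational points -/

/-- block tensors with rational entries -/
structure T4 where
  a : ℚ
  b : ℚ
  c : ℚ
  z : ℚ

def T4.m (t : T4) : Matrix (Fin 3) (Fin 3) ℂ :=
  !![(t.a : ℂ), (t.b : ℂ), 0; (t.b : ℂ), (t.c : ℂ), 0; 0, 0, (t.z : ℂ)]

def layP (p q θ : ℚ) (A B : T4) : T4 :=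
  ⟨θ * A.a + (1 - θ) * B.a - θ * (1 - θ) / (p ^ 2 * ((1 - θ) * A.a + θ * B.a) +
      2 * p * q * ((1 - θ) * A.b + θ * B.b) + q ^ 2 * ((1 - θ) * A.c + θ * B.c)) *
      (((A.a - B.a) * p + (A.b - B.b) * q) * ((A.a - B.a) * p + (A.b - B.b) * q)),
    θ * A.b + (1 - θ) * B.b - θ * (1 - θ) / (p ^ 2 * ((1 - θ) * A.a + θ * B.a) +
      2 * p * q * ((1 - θ) * A.b + θ * B.b) + q ^ 2 * ((1 - θ) * A.c + θ * B.c)) *
      (((A.a - B.a) * p + (A.b - B.b) * q) * ((A.b - B.b) * p + (A.c - B.c) * q)),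
    θ * A.c + (1 - θ) * B.c - θ * (1 - θ) / (p ^ 2 * ((1 - θ) * A.a + θ * B.a) +
      2 * p * q * ((1 - θ) * A.b + θ * B.b) + q ^ 2 * ((1 - θ) * A.c + θ * B.c)) *
      (((A.b - B.b) * p + (A.c - B.c) * q) * ((A.b - B.b) * p + (A.c - B.c) * q)),
    θ * A.z + (1 - θ) * B.z⟩

def layZ (θ : ℚ) (A B : T4) : T4 :=
  ⟨θ * A.a + (1 - θ) * B.a, θ * A.b + (1 - θ) * B.b, θ * A.c + (1 - θ) * B.c,
    θ * A.z + (1 - θ) * B.z - θ * (1 - θ) / ((1 - θ) * A.z + θ * B.z) *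
      ((A.z - B.z) * (A.z - B.z))⟩

theorem layer_layP (p q θ : ℚ) (A B : T4) :
    layer ![(p : ℝ), (q : ℝ), 0] (θ : ℝ) A.m B.m = (layP p q θ A B).m := by
  have hv : (fun i : Fin 3 => ((![(p : ℝ), (q : ℝ), 0] : Fin 3 → ℝ) i : ℂ)) =
      ![(p : ℂ), (q : ℂ), 0] := by
    funext i
    fin_cases i <;> simp
  unfold layer
  rw [hv]
  ext i j
  fin_cases i <;> fin_cases j <;>
    simp [T4.m, layP, Matrix.mulVec, Matrix.vecMul, dotProduct, Fin.sum_univ_three,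
      vecMulVec] <;> ring

theorem layer_layZ (θ : ℚ) (A B : T4) :
    layer ![0, 0, 1] (θ : ℝ) A.m B.m = (layZ θ A B).m := by
  have hv : (fun i : Fin 3 => ((![0, 0, 1] : Fin 3 → ℝ) i : ℂ)) = ![0, 0, 1] := by
    funext i
    fin_cases i <;> simp
  unfold layer
  rw [hv]
  ext i j
  fin_cases i <;> fin_cases j <;>
    simp [T4.m, layZ, Matrix.mulVec, Matrix.vecMul, dotProduct, Fin.sum_univ_three,
      vecMulVec]

/-- the value of the example at a rational point -/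
def exT (x : ℚ) : T4 :=
  layP 0 1 (7 / 9) (layP 5 1 (1 / 10)
    (layP 1 1 (2 / 5) (layP 1 (-1) (9 / 10) ⟨x, 0, x, x⟩ ⟨1, 0, 1, 1⟩)
      (layZ (5 / 6) ⟨x, 0, x, x⟩ ⟨1, 0, 1, 1⟩))
    (layP 1 0 (4 / 5) (layZ (11 / 13) ⟨x, 0, x, x⟩ ⟨1, 0, 1, 1⟩) ⟨1, 0, 1, 1⟩)) ⟨1, 0, 1, 1⟩

theorem m_smul_one (x : ℚ) : ((x : ℂ) • (1 : Matrix (Fin 3) (Fin 3) ℂ)) =
    (⟨x, 0, x, x⟩ : T4).m := by
  ext i j
  fin_cases i <;> fin_cases j <;> simp [T4.m]

theorem m_one : (1 : Matrix (Fin 3) (Fin 3) ℂ) = (⟨1, 0, 1, 1⟩ : T4).m := by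
  ext i j
  fin_cases i <;> fin_cases j <;> simp [T4.m]

theorem layP' {n : Fin 3 → ℝ} {t : ℝ} (p q θ : ℚ) (A B : T4) (hn : n = ![(p : ℝ), (q : ℝ), 0])
    (ht : t = (θ : ℝ)) : layer n t A.m B.m = (layP p q θ A B).m := by
  rw [hn, ht]
  exact layer_layP p q θ A B

theorem layZ' {t : ℝ} (θ : ℚ) (A B : T4) (ht : t = (θ : ℝ)) :
    layer ![0, 0, 1] t A.m B.m = (layZ θ A B).m := by
  rw [ht]
  exact layer_layZ θ A B

theorem exR_eq (x : ℚ) : exR (x : ℂ) = (exT x).m := by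
  unfold exR exB exB1 exB2 exC1 exC2 exE exT
  rw [m_smul_one, m_one]
  rw [layZ' (5 / 6) _ _ (by push_cast; norm_num), layZ' (11 / 13) _ _ (by push_cast; norm_num),
    layP' 1 (-1) (9 / 10) _ _ (by push_cast; norm_num) (by push_cast; norm_num),
    layP' 1 1 (2 / 5) _ _ (by push_cast; norm_num) (by push_cast; norm_num),
    layP' 1 0 (4 / 5) _ _ (by push_cast; norm_num) (by push_cast; norm_num),
    layP' 5 1 (1 / 10) _ _ (by push_cast; norm_num) (by push_cast; norm_num),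
    layP' 0 1 (7 / 9) _ _ (by push_cast; norm_num) (by push_cast; norm_num)]

/-- the trace of the example at a rational point -/
def exG (x : ℚ) : ℚ := (exT x).a + (exT x).c + (exT x).z

theorem exR_trace (x : ℚ) : (exR (x : ℂ)).trace = ((exG x : ℚ) : ℂ) := by
  rw [exR_eq, Matrix.trace_fin_three]
  unfold exG
  push_cast
  simp [T4.m]

end W_MP_e98908_an.H58
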