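import Pool.Agent.W_MP_e98908_an_h58.Orth

/-!
# MP_e98908_an (helper58) : the inequality satisfied by orthogonal laminates
-/

namespace W_MP_e98908_an.H58

open Matrix Complex

/-- the pointwise inequality -/
theorem OrthIneq_pt (a b c p q r : ℝ) (ha : 0 ≤ a) (hb : 0 ≤ b) (hc : 0 ≤ c)
    (h : p + q + r = 0) :
    (a * p + b * q + c * r) ^ 2 ≤ 2 / 3 * (a ^ 2 + b ^ 2 + c ^ 2) * (p ^ 2 + q ^ 2 + r ^ 2) := by
  obtain rfl : r = -p - q := by linarith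
  have h1 : (a * p + b * q + c * (-p - q)) ^ 2 ≤
      (a ^ 2 + b ^ 2 + c ^ 2 - (a + b + c) ^ 2 / 3) * (p ^ 2 + q ^ 2 + (-p - q) ^ 2) := by
    have h2 : (a ^ 2 + b ^ 2 + c ^ 2 - (a + b + c) ^ 2 / 3) * (p ^ 2 + q ^ 2 + (-p - q) ^ 2) -
        (a * p + b * q + c * (-p - q)) ^ 2 =
        ((a - c) * (p + 2 * q) - (b - c) * (2 * p + q)) ^ 2 / 3 := by
      ring
    have h3 := sq_nonneg ((a - c) * (p + 2 * q) - (b - c) * (2 * p + q))
    linarith
  refine h1.trans ?_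
  apply mul_le_mul_of_nonneg_right _ (by positivity)
  nlinarith [mul_nonneg ha hb, mul_nonneg hb hc, mul_nonneg ha hc]

/-- `∑ ⟨χ D_i⟩ = f (1 - f)` -/
theorem OrthData.chiD {v : Fin 3 → Fin 3 → ℝ} {L : CFun} (d : OrthData v L) :
    letI := d.fin
    ∑ i, ∑ a, d.w a * (d.χ a * d.D i a) = d.f * (1 - d.f) := by
  letI := d.fin
  show ∑ i, ∑ a, d.w a * (d.χ a * d.D i a) = d.f * (1 - d.f)
  rw [Finset.sum_comm]
  have h1 : ∀ a, ∑ i, d.w a * (d.χ a * d.D i a) = (1 - d.f) * (d.w a * d.χ a) := by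
    intro a
    have h2 : ∑ i, d.w a * (d.χ a * d.D i a) = d.w a * (d.χ a * ∑ i, d.D i a) := by
      rw [Finset.mul_sum, Finset.mul_sum]
    rw [h2, d.D_sum a]
    rcases d.χ_val a with h | h <;> rw [h] <;> ring
  rw [Finset.sum_congr rfl (fun a _ => h1 a), ← Finset.mul_sum, d.χ_mean]
  ring

/-- energy bound: any trial field `1 + φ` with `φ` a mean free gradient field -/
theorem OrthData.energy {v : Fin 3 → Fin 3 → ℝ} {L : CFun} (d : OrthData v L) {x : ℝ}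
    (hx : 0 < x) (i : Fin 3) {φ : d.ι → ℝ} (hφ : φ ∈ d.W i) :
    letI := d.fin
    d.l x i ≤ ∑ a, d.w a * ((1 + (x - 1) * d.χ a) * (1 + φ a) ^ 2) := by
  letI := d.fin
  show d.l x i ≤ ∑ a, d.w a * ((1 + (x - 1) * d.χ a) * (1 + φ a) ^ 2)
  have h1 := d.E_orth x hx i φ hφ
  have h2 := d.E_orth x hx i _ (d.E_mem x hx i)
  have h3 := d.l_eq x hx i
  have h4 : ∑ a, d.w a * ((1 + (x - 1) * d.χ a) * (1 + φ a) ^ 2) =
      ∑ a, d.w a * ((1 + (x - 1) * d.χ a) * (d.E x i a - (1 + φ a)) ^ 2) + d.l x i := by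
    have h5 : ∑ a, d.w a * ((1 + (x - 1) * d.χ a) * (1 + φ a) ^ 2) =
        ∑ a, d.w a * ((1 + (x - 1) * d.χ a) * (d.E x i a - (1 + φ a)) ^ 2) +
          ∑ a, d.w a * ((1 + (x - 1) * d.χ a) * d.E x i a) +
          2 * ∑ a, d.w a * ((1 + (x - 1) * d.χ a) * d.E x i a * φ a) -
          ∑ a, d.w a * ((1 + (x - 1) * d.χ a) * d.E x i a * (d.E x i a - 1)) := by
      rw [Finset.mul_sum, ← Finset.sum_add_distrib, ← Finset.sum_add_distrib,
        ← Finset.sum_sub_distrib]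
      refine Finset.sum_congr rfl (fun a _ => ?_)
      ring
    rw [h5, h1, h2, h3]
    ring
  rw [h4]
  have h6 : 0 ≤ ∑ a, d.w a * ((1 + (x - 1) * d.χ a) * (d.E x i a - (1 + φ a)) ^ 2) := by
    refine Finset.sum_nonneg (fun a _ => ?_)
    refine mul_nonneg (d.w_nonneg a) (mul_nonneg ?_ (sq_nonneg _))
    rcases d.χ_val a with h | h <;> rw [h] <;> linarith
  linarith

/-- `⟨χ E_i²⟩` is at most the slope of a chord of `l_i` to the left of `x` -/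
theorem OrthData.slope {v : Fin 3 → Fin 3 → ℝ} {L : CFun} (d : OrthData v L) {x x' : ℝ}
    (hx' : 0 < x') (hxx : x' < x) (i : Fin 3) :
    letI := d.fin
    ∑ a, d.w a * (d.χ a * d.E x i a ^ 2) ≤ (d.l x i - d.l x' i) / (x - x') := by
  letI := d.fin
  show ∑ a, d.w a * (d.χ a * d.E x i a ^ 2) ≤ (d.l x i - d.l x' i) / (x - x')
  have hx : 0 < x := hx'.trans hxx
  have h0 := d.energy hx' i (d.E_mem x hx i)
  have h1 : d.l x' i ≤ ∑ a, d.w a * ((1 + (x' - 1) * d.χ a) * (1 + (d.E x i a - 1)) ^ 2) := h0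
  have h2 := d.E_orth x hx i _ (d.E_mem x hx i)
  have h3 := d.l_eq x hx i
  have h4 : ∑ a, d.w a * ((1 + (x' - 1) * d.χ a) * (1 + (d.E x i a - 1)) ^ 2) =
      ∑ a, d.w a * ((1 + (x - 1) * d.χ a) * d.E x i a * (d.E x i a - 1)) +
      ∑ a, d.w a * ((1 + (x - 1) * d.χ a) * d.E x i a) -
      (x - x') * ∑ a, d.w a * (d.χ a * d.E x i a ^ 2) := by
    rw [Finset.mul_sum, ← Finset.sum_add_distrib, ← Finset.sum_sub_distrib]
    refine Finset.sum_congr rfl (fun a _ => ?_)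
    ring
  rw [h4, h2, h3] at h1
  rw [le_div_iff₀ (by linarith)]
  linarith

/-- `∑ ⟨χ D_i²⟩` is bounded in terms of the value at a point `x₀ < 1` -/
theorem OrthData.dsq {v : Fin 3 → Fin 3 → ℝ} {L : CFun} (d : OrthData v L) {x₀ : ℝ}
    (h0 : 0 < x₀) (h1 : x₀ < 1) :
    letI := d.fin
    ∑ i, ∑ a, d.w a * (d.χ a * d.D i a ^ 2) ≤
      ((∑ i, d.l x₀ i) - 3 - 3 * d.f * (x₀ - 1) + d.f * (1 - d.f) * (x₀ - 1) ^ 2) /
        (x₀ - 1) ^ 3 := by
  letI := d.fin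
  show ∑ i, ∑ a, d.w a * (d.χ a * d.D i a ^ 2) ≤
      ((∑ i, d.l x₀ i) - 3 - 3 * d.f * (x₀ - 1) + d.f * (1 - d.f) * (x₀ - 1) ^ 2) /
        (x₀ - 1) ^ 3
  have h2 : ∀ i, d.l x₀ i ≤ 1 + (x₀ - 1) * d.f - (x₀ - 1) ^ 2 * ∑ a, d.w a * (d.χ a * d.D i a) +
      (x₀ - 1) ^ 3 * ∑ a, d.w a * (d.χ a * d.D i a ^ 2) := by
    intro i
    have h3 := d.energy h0 i ((d.W i).smul_mem (-(x₀ - 1)) (d.D_mem i))
    have h4 : d.l x₀ i ≤ ∑ a, d.w a * ((1 + (x₀ - 1) * d.χ a) *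
        (1 + (-(x₀ - 1) * d.D i a)) ^ 2) := h3
    have h5 : ∑ a, d.w a * ((1 + (x₀ - 1) * d.χ a) * (1 + (-(x₀ - 1) * d.D i a)) ^ 2) =
        ∑ a, d.w a + (x₀ - 1) * ∑ a, d.w a * d.χ a - 2 * (x₀ - 1) * ∑ a, d.w a * d.D i a -
        (x₀ - 1) ^ 2 * ∑ a, d.w a * (d.D i a * (d.χ a - d.D i a)) -
        (x₀ - 1) ^ 2 * ∑ a, d.w a * (d.χ a * d.D i a) +
        (x₀ - 1) ^ 3 * ∑ a, d.w a * (d.χ a * d.D i a ^ 2) := by
      simp only [Finset.mul_sum]
      simp only [← Finset.sum_add_distrib, ← Finset.sum_sub_distrib]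
      refine Finset.sum_congr rfl (fun a _ => ?_)
      ring
    rw [h5, d.w_sum, d.χ_mean, d.W_mean i _ (d.D_mem i), d.D_proj i _ (d.D_mem i)] at h4
    linarith
  have h6 : ∑ i, d.l x₀ i ≤ ∑ i : Fin 3, (1 + (x₀ - 1) * d.f -
      (x₀ - 1) ^ 2 * ∑ a, d.w a * (d.χ a * d.D i a) +
      (x₀ - 1) ^ 3 * ∑ a, d.w a * (d.χ a * d.D i a ^ 2)) := Finset.sum_le_sum (fun i _ => h2 i)
  have h7 := d.chiD
  rw [Finset.sum_add_distrib, Finset.sum_sub_distrib, ← Finset.mul_sum, ← Finset.mul_sum, h7,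
    Finset.sum_const, Finset.card_univ, Fintype.card_fin] at h6
  have h8 : (x₀ - 1) ^ 3 < 0 := by
    have : (x₀ - 1) < 0 := by linarith
    exact Odd.pow_neg (by decide) this
  rw [le_div_iff_of_neg h8]
  simp only [nsmul_eq_mul, Nat.cast_ofNat] at h6
  linarith

/-- the mixed average `⟨χ ∑ E_i (D_i - (1 - f) / 3)⟩` -/
theorem OrthData.mixed {v : Fin 3 → Fin 3 → ℝ} {L : CFun} (d : OrthData v L) {x : ℝ}
    (hx : 0 < x) (hx1 : x ≠ 1) :
    letI := d.fin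
    ∑ a, d.w a * (d.χ a * ∑ i, d.E x i a * (d.D i a - (1 - d.f) / 3)) =
      (3 * d.f - ((∑ i, d.l x i) - 3) / (x - 1)) / (x - 1) -
        (1 - d.f) / 3 * (((∑ i, d.l x i) - 3) / (x - 1)) := by
  letI := d.fin
  show ∑ a, d.w a * (d.χ a * ∑ i, d.E x i a * (d.D i a - (1 - d.f) / 3)) =
      (3 * d.f - ((∑ i, d.l x i) - 3) / (x - 1)) / (x - 1) -
        (1 - d.f) / 3 * (((∑ i, d.l x i) - 3) / (x - 1))
  have hx2 : x - 1 ≠ 0 := sub_ne_zero.mpr hx1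
  have h1 : ∀ i, ∑ a, d.w a * (d.χ a * d.E x i a) = (d.l x i - 1) / (x - 1) := by
    intro i
    have h2 := d.l_eq x hx i
    have h3 := d.W_mean i _ (d.E_mem x hx i)
    have h4 : ∑ a, d.w a * ((1 + (x - 1) * d.χ a) * d.E x i a) =
        ∑ a, d.w a * (d.E x i a - 1) + ∑ a, d.w a +
          (x - 1) * ∑ a, d.w a * (d.χ a * d.E x i a) := by
      rw [Finset.mul_sum, ← Finset.sum_add_distrib, ← Finset.sum_add_distrib]
      refine Finset.sum_congr rfl (fun a _ => ?_)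
      ring
    rw [h4, h3, d.w_sum] at h2
    rw [eq_div_iff hx2]
    linarith
  have h5 : ∀ i, ∑ a, d.w a * (d.χ a * (d.E x i a * d.D i a)) =
      (d.f - (d.l x i - 1) / (x - 1)) / (x - 1) := by
    intro i
    have h6 := d.E_orth x hx i _ (d.D_mem i)
    have h7 := d.D_proj i _ (d.E_mem x hx i)
    have h8 := d.W_mean i _ (d.D_mem i)
    have h9 : ∑ a, d.w a * ((1 + (x - 1) * d.χ a) * d.E x i a * d.D i a) =
        ∑ a, d.w a * (d.E x i a * d.D i a) +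
          (x - 1) * ∑ a, d.w a * (d.χ a * (d.E x i a * d.D i a)) := by
      rw [Finset.mul_sum, ← Finset.sum_add_distrib]
      refine Finset.sum_congr rfl (fun a _ => ?_)
      ring
    have h10 : ∑ a, d.w a * ((d.E x i a - 1) * (d.χ a - d.D i a)) =
        ∑ a, d.w a * (d.χ a * d.E x i a) - ∑ a, d.w a * d.χ a + ∑ a, d.w a * d.D i a -
          ∑ a, d.w a * (d.E x i a * d.D i a) := by
      rw [← Finset.sum_sub_distrib, ← Finset.sum_add_distrib, ← Finset.sum_sub_distrib]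
      refine Finset.sum_congr rfl (fun a _ => ?_)
      ring
    rw [h9] at h6
    rw [h10, h1 i, d.χ_mean, h8] at h7
    rw [eq_div_iff hx2]
    linarith
  have h11 : ∑ a, d.w a * (d.χ a * ∑ i, d.E x i a * (d.D i a - (1 - d.f) / 3)) =
      ∑ i, (∑ a, d.w a * (d.χ a * (d.E x i a * d.D i a)) -
        (1 - d.f) / 3 * ∑ a, d.w a * (d.χ a * d.E x i a)) := by
    simp only [Finset.mul_sum]
    rw [Finset.sum_comm]
    refine Finset.sum_congr rfl (fun i _ => ?_)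
    rw [← Finset.sum_sub_distrib]
    refine Finset.sum_congr rfl (fun a _ => ?_)
    ring
  rw [h11]
  simp only [h1, h5, Fin.sum_univ_three]
  field_simp
  ring

/-- **The inequality.** -/
theorem OrthData.ineq {v : Fin 3 → Fin 3 → ℝ} {L : CFun} (d : OrthData v L) {x x' x₀ : ℝ}
    (hx' : 0 < x') (hxx : x' < x) (hx1 : x ≠ 1) (h0 : 0 < x₀) (h1 : x₀ < 1) :
    ((3 * d.f - ((∑ i, d.l x i) - 3) / (x - 1)) / (x - 1) -
        (1 - d.f) / 3 * (((∑ i, d.l x i) - 3) / (x - 1))) ^ 2 ≤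
      2 / 3 * (((∑ i, d.l x i) - ∑ i, d.l x' i) / (x - x')) *
        (((∑ i, d.l x₀ i) - 3 - 3 * d.f * (x₀ - 1) + d.f * (1 - d.f) * (x₀ - 1) ^ 2) /
          (x₀ - 1) ^ 3 - d.f * (1 - d.f) ^ 2 / 3) := by
  letI := d.fin
  have hx : 0 < x := hx'.trans hxx
  have hm : ∑ a, d.w a * (d.χ a * ∑ i, d.E x i a * (d.D i a - (1 - d.f) / 3)) =
      (3 * d.f - ((∑ i, d.l x i) - 3) / (x - 1)) / (x - 1) -
        (1 - d.f) / 3 * (((∑ i, d.l x i) - 3) / (x - 1)) := d.mixed hx hx1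
  rw [← hm]
  have hslope : ∑ i, ∑ a, d.w a * (d.χ a * d.E x i a ^ 2) ≤
      ((∑ i, d.l x i) - ∑ i, d.l x' i) / (x - x') := by
    have h2 : ∀ i, ∑ a, d.w a * (d.χ a * d.E x i a ^ 2) ≤ (d.l x i - d.l x' i) / (x - x') :=
      fun i => d.slope hx' hxx i
    refine (Finset.sum_le_sum (fun i _ => h2 i)).trans (le_of_eq ?_)
    rw [← Finset.sum_div, Finset.sum_sub_distrib]
  have hdsq : ∑ i, ∑ a, d.w a * (d.χ a * d.D i a ^ 2) ≤
      ((∑ i, d.l x₀ i) - 3 - 3 * d.f * (x₀ - 1) + d.f * (1 - d.f) * (x₀ - 1) ^ 2) /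
        (x₀ - 1) ^ 3 := d.dsq h0 h1
  have hχ0 : ∀ a, 0 ≤ d.χ a := by
    intro a
    rcases d.χ_val a with h | h <;> rw [h] <;> norm_num
  have hP : ∑ a, d.w a * (d.χ a * ∑ i, d.E x i a ^ 2) =
      ∑ i, ∑ a, d.w a * (d.χ a * d.E x i a ^ 2) := by
    simp only [Finset.mul_sum]
    rw [Finset.sum_comm]
  have hQ : ∑ a, d.w a * (d.χ a * ∑ i, (d.D i a - (1 - d.f) / 3) ^ 2) =
      ∑ i, ∑ a, d.w a * (d.χ a * d.D i a ^ 2) - d.f * (1 - d.f) ^ 2 / 3 := by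
    have h2 : ∑ a, d.w a * (d.χ a * ∑ i, (d.D i a - (1 - d.f) / 3) ^ 2) =
        ∑ i, ∑ a, d.w a * (d.χ a * d.D i a ^ 2) -
          2 * (1 - d.f) / 3 * ∑ i, ∑ a, d.w a * (d.χ a * d.D i a) +
          (1 - d.f) ^ 2 / 3 * ∑ a, d.w a * d.χ a := by
      simp only [Fin.sum_univ_three, Finset.mul_sum, ← Finset.sum_add_distrib,
        ← Finset.sum_sub_distrib]
      refine Finset.sum_congr rfl (fun a _ => ?_)
      ring
    rw [h2, d.chiD, d.χ_mean]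
    ring
  have hP0 : 0 ≤ ∑ a, d.w a * (d.χ a * ∑ i, d.E x i a ^ 2) :=
    Finset.sum_nonneg (fun a _ => mul_nonneg (d.w_nonneg a) (mul_nonneg (hχ0 a)
      (Finset.sum_nonneg (fun i _ => sq_nonneg _))))
  have hQ0 : 0 ≤ ∑ a, d.w a * (d.χ a * ∑ i, (d.D i a - (1 - d.f) / 3) ^ 2) :=
    Finset.sum_nonneg (fun a _ => mul_nonneg (d.w_nonneg a) (mul_nonneg (hχ0 a)
      (Finset.sum_nonneg (fun i _ => sq_nonneg _))))
  have hCS : (∑ a, d.w a * (d.χ a * ∑ i, d.E x i a * (d.D i a - (1 - d.f) / 3))) ^ 2 ≤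
      (∑ a, d.w a * (d.χ a * (2 / 3 * ∑ i, d.E x i a ^ 2))) *
        ∑ a, d.w a * (d.χ a * ∑ i, (d.D i a - (1 - d.f) / 3) ^ 2) := by
    refine Finset.sum_sq_le_sum_mul_sum_of_sq_le_mul _ ?_ ?_ ?_
    · intro a _
      exact mul_nonneg (d.w_nonneg a) (mul_nonneg (hχ0 a)
        (mul_nonneg (by norm_num) (Finset.sum_nonneg (fun i _ => sq_nonneg _))))
    · intro a _
      exact mul_nonneg (d.w_nonneg a) (mul_nonneg (hχ0 a)
        (Finset.sum_nonneg (fun i _ => sq_nonneg _)))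
    · intro a _
      rcases d.χ_val a with h | h
      · rw [h]
        simp
      · have hs := d.D_sum a
        have e0 := d.E_pos x hx 0 a
        have e1 := d.E_pos x hx 1 a
        have e2 := d.E_pos x hx 2 a
        rw [h, Fin.sum_univ_three] at hs
        rw [h]
        simp only [one_mul, Fin.sum_univ_three]
        have key := OrthIneq_pt (d.E x 0 a) (d.E x 1 a) (d.E x 2 a)
          (d.D 0 a - (1 - d.f) / 3) (d.D 1 a - (1 - d.f) / 3) (d.D 2 a - (1 - d.f) / 3)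
          e0.le e1.le e2.le (by linarith)
        have hw := mul_le_mul_of_nonneg_left key (sq_nonneg (d.w a))
        calc _ = d.w a ^ 2 * (d.E x 0 a * (d.D 0 a - (1 - d.f) / 3) +
              d.E x 1 a * (d.D 1 a - (1 - d.f) / 3) + d.E x 2 a * (d.D 2 a - (1 - d.f) / 3)) ^ 2 := by
              ring
          _ ≤ _ := hw
          _ = _ := by ring
  refine hCS.trans ?_
  have h3 : ∑ a, d.w a * (d.χ a * (2 / 3 * ∑ i, d.E x i a ^ 2)) =
      2 / 3 * ∑ a, d.w a * (d.χ a * ∑ i, d.E x i a ^ 2) := by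
    rw [Finset.mul_sum]
    refine Finset.sum_congr rfl (fun a _ => ?_)
    ring
  rw [h3]
  apply mul_le_mul
  · apply mul_le_mul_of_nonneg_left _ (by norm_num)
    rw [hP]
    exact hslope
  · rw [hQ]
    linarith
  · exact hQ0
  · apply mul_nonneg (by norm_num)
    rw [hP] at hP0
    exact hP0.trans hslope

/-- the volume fraction lies between `0` and `1`, and is related to the conductivity at any point -/
theorem OrthData.frac {v : Fin 3 → Fin 3 → ℝ} {L : CFun} (d : OrthData v L) :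
    0 ≤ d.f ∧ d.f ≤ 1 ∧ ∀ y, 0 < y → ∑ i, d.l y i ≤ 3 + 3 * (y - 1) * d.f := by
  letI := d.fin
  have hχ0 : ∀ a, 0 ≤ d.χ a := by
    intro a
    rcases d.χ_val a with h | h <;> rw [h] <;> norm_num
  have hχ1 : ∀ a, d.χ a ≤ 1 := by
    intro a
    rcases d.χ_val a with h | h <;> rw [h] <;> norm_num
  refine ⟨?_, ?_, ?_⟩
  · rw [← d.χ_mean]
    exact Finset.sum_nonneg (fun a _ => mul_nonneg (d.w_nonneg a) (hχ0 a))
  · rw [← d.χ_mean, ← d.w_sum]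
    refine Finset.sum_le_sum (fun a _ => ?_)
    exact mul_le_of_le_one_right (d.w_nonneg a) (hχ1 a)
  · intro y hy
    have h1 : ∀ i, d.l y i ≤ 1 + (y - 1) * d.f := by
      intro i
      have h2 := d.energy hy i (d.W i).zero_mem
      have h3 : d.l y i ≤ ∑ a, d.w a * ((1 + (y - 1) * d.χ a) * (1 + (0 : d.ι → ℝ) a) ^ 2) := h2
      have h4 : ∑ a, d.w a * ((1 + (y - 1) * d.χ a) * (1 + (0 : d.ι → ℝ) a) ^ 2) =
          ∑ a, d.w a + (y - 1) * ∑ a, d.w a * d.χ a := by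
        rw [Finset.mul_sum, ← Finset.sum_add_distrib]
        refine Finset.sum_congr rfl (fun a _ => ?_)
        simp only [Pi.zero_apply]
        ring
      rw [h4, d.w_sum, d.χ_mean] at h3
      exact h3
    rw [Fin.sum_univ_three]
    have := h1 0
    have := h1 1
    have := h1 2
    linarith

/-- **Necessary conditions for laminates in mutually orthogonal directions.** -/
theorem orth_necessary {v : Fin 3 → Fin 3 → ℝ} (hv : IsOrthoBasis v) {L : CFun}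
    (hL : IsLaminate (Set.range v) L) :
    ∃ (f : ℝ) (G : ℝ → ℝ), 0 ≤ f ∧ f ≤ 1 ∧ (∀ x : ℝ, 0 < x → (L x).trace = (G x : ℂ)) ∧
      (∀ y, 0 < y → G y ≤ 3 + 3 * (y - 1) * f) ∧
      ∀ x x' x₀ : ℝ, 0 < x' → x' < x → x ≠ 1 → 0 < x₀ → x₀ < 1 →
        ((3 * f - (G x - 3) / (x - 1)) / (x - 1) - (1 - f) / 3 * ((G x - 3) / (x - 1))) ^ 2 ≤
          2 / 3 * ((G x - G x') / (x - x')) *
            ((G x₀ - 3 - 3 * f * (x₀ - 1) + f * (1 - f) * (x₀ - 1) ^ 2) / (x₀ - 1) ^ 3 -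
              f * (1 - f) ^ 2 / 3) := by
  obtain ⟨d⟩ := orthData_of_isLaminate hv hL
  refine ⟨d.f, fun x => ∑ i, d.l x i, d.frac.1, d.frac.2.1, ?_, d.frac.2.2, ?_⟩
  · intro x hx
    rw [d.L_eq x hx, trace_diagT hv]
  · intro x x' x₀ hx' hxx hx1 h0 h1
    exact d.ineq hx' hxx hx1 h0 h1

end W_MP_e98908_an.H58
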