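import Pool.Agent.W_MP_e98908_an_h58.Vals
import Pool.Agent.W_MP_e98908_an_h58.OrthIneq

/-!
# MP_e98908_an (helper58) : the example is far from all laminates in orthogonal directions
-/

namespace W_MP_e98908_an.H58

open Matrix Complex

theorem Far_cast {a b : ℚ} (h : a ≤ b) : ((a : ℚ) : ℝ) ≤ ((b : ℚ) : ℝ) := Rat.cast_le.2 h

/-- the pure real-number core -/
theorem Far_core {f G₁ G₂ G₃ : ℝ} (hf1 : (0.54073504273495 : ℝ) ≤ f) (hf2 : f ≤ 0.54073504273513)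
    (b1 : G₁ ≤ 312.36754726511)
    (a1' : (312.36754726499 : ℝ) ≤ G₁)
    (a2 : (43.11066815119 : ℝ) ≤ G₂) (b2 : G₂ ≤ 43.1106681514)
    (a3 : (2.9983775464920793468 : ℝ) ≤ G₃)
    (h : ((3 * f - (G₁ - 3) / 9999) / 9999 - (1 - f) / 3 * ((G₁ - 3) / 9999)) ^ 2 ≤
          2 / 3 * ((G₁ - G₂) / 9000) *
            ((G₃ - 3 - 3 * f * (-(1 / 1000)) + f * (1 - f) * (-(1 / 1000)) ^ 2) /
              (-(1 / 1000)) ^ 3 - f * (1 - f) ^ 2 / 3)) : False := by
  obtain ⟨K, hK⟩ : ∃ K : ℝ, K = (G₁ - 3) / 9999 := ⟨_, rfl⟩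
  rw [← hK] at h
  have hK1 : (0.030939848711 : ℝ) ≤ K := by rw [hK]; norm_num; linarith
  have hprod : (1 - 0.54073504273513) * (0.030939848711 : ℝ) ≤ (1 - f) * K :=
    mul_le_mul (by linarith) hK1 (by norm_num) (by linarith)
  have hX : (3 * f - K) / 9999 - (1 - f) / 3 * K ≤ -0.00457738698 := by
    have e1 : (1 - f) / 3 * K = (1 - f) * K / 3 := by ring
    rw [e1]
    norm_num at hprod ⊢
    linarith
  have hX2 : (0.00457738698 : ℝ) ^ 2 ≤ ((3 * f - K) / 9999 - (1 - f) / 3 * K) ^ 2 := by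
    have h1 : (0.00457738698 : ℝ) ≤ -((3 * f - K) / 9999 - (1 - f) / 3 * K) := by linarith
    have h2 := pow_le_pow_left₀ (by norm_num) h1 2
    rwa [neg_sq] at h2
  have hA0 : 0 ≤ (G₁ - G₂) / 9000 := by
    apply div_nonneg _ (by norm_num)
    linarith
  have hA : (G₁ - G₂) / 9000 ≤ 0.0299174310128 := by
    rw [div_le_iff₀ (by norm_num)]
    norm_num
    linarith
  have hM : (G₃ - 3 - 3 * f * (-(1 / 1000)) + f * (1 - f) * (-(1 / 1000)) ^ 2) /
              (-(1 / 1000)) ^ 3 - f * (1 - f) ^ 2 / 3 ≤ 0.0010415 := by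
    have e2 : (G₃ - 3 - 3 * f * (-(1 / 1000)) + f * (1 - f) * (-(1 / 1000)) ^ 2) /
              (-(1 / 1000)) ^ 3 - f * (1 - f) ^ 2 / 3
        = 1000000000 * (3 - G₃) - 3000000 * f - 1000 * (f * (1 - f)) - (f * (1 - f) ^ 2) / 3 := by
      ring
    rw [e2]
    obtain ⟨d, hd⟩ : ∃ d : ℝ, d = f - 0.54073504273495 := ⟨_, rfl⟩
    have hf : f = 0.54073504273495 + d := by linarith
    have hd0 : 0 ≤ d := by linarith
    have hd1 : d ≤ 1 / 1000000 := by
      norm_num at hf2 hd ⊢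
      linarith
    have h5 : (0.54073504273495 : ℝ) * (1 - 0.54073504273495) - d ≤ f * (1 - f) := by
      rw [hf]
      nlinarith
    have h6 : (0.54073504273495 : ℝ) * (1 - 0.54073504273495) ^ 2 - d ≤ f * (1 - f) ^ 2 := by
      rw [hf]
      nlinarith [mul_nonneg hd0 hd0, mul_nonneg (mul_nonneg hd0 hd0) hd0]
    have h7 : (1000000000 : ℝ) * (3 - G₃) ≤ 1622453.5079206532 := by
      norm_num at a3 ⊢
      linarith
    norm_num at h5 h6 h7 hf ⊢
    linarith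
  have hR : 2 / 3 * ((G₁ - G₂) / 9000) *
            ((G₃ - 3 - 3 * f * (-(1 / 1000)) + f * (1 - f) * (-(1 / 1000)) ^ 2) /
              (-(1 / 1000)) ^ 3 - f * (1 - f) ^ 2 / 3)
      ≤ 2 / 3 * 0.0299174310128 * 0.0010415 := by
    have h8 : 2 / 3 * ((G₁ - G₂) / 9000) *
            ((G₃ - 3 - 3 * f * (-(1 / 1000)) + f * (1 - f) * (-(1 / 1000)) ^ 2) /
              (-(1 / 1000)) ^ 3 - f * (1 - f) ^ 2 / 3)
        ≤ 2 / 3 * ((G₁ - G₂) / 9000) * 0.0010415 :=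
      mul_le_mul_of_nonneg_left hM (by positivity)
    refine h8.trans ?_
    exact mul_le_mul_of_nonneg_right (mul_le_mul_of_nonneg_left hA (by norm_num)) (by norm_num)
  have h9 := (hX2.trans h).trans hR
  norm_num at h9

/-- The arithmetic contradiction: the numbers `G₁, …, G₅` are the traces at `10⁴`, `10³`,
`999/1000`, `1 + 10⁻¹²`, `1 - 10⁻¹²`. -/
theorem arith {f G₁ G₂ G₃ G₄ G₅ : ℝ} (h1 : |G₁ - (exG 10000 : ℚ)| ≤ 1 / 10 ^ 26)
    (h2 : |G₂ - (exG 1000 : ℚ)| ≤ 1 / 10 ^ 26)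
    (h3 : |G₃ - (exG (999 / 1000) : ℚ)| ≤ 1 / 10 ^ 26)
    (h4 : |G₄ - (exG (1 + 1 / 10 ^ 12) : ℚ)| ≤ 1 / 10 ^ 26)
    (h5 : |G₅ - (exG (1 - 1 / 10 ^ 12) : ℚ)| ≤ 1 / 10 ^ 26)
    (hf4 : G₄ ≤ 3 + 3 * (1 / 10 ^ 12) * f) (hf5 : G₅ ≤ 3 + 3 * (-(1 / 10 ^ 12)) * f)
    (h : ((3 * f - (G₁ - 3) / 9999) / 9999 - (1 - f) / 3 * ((G₁ - 3) / 9999)) ^ 2 ≤
          2 / 3 * ((G₁ - G₂) / 9000) *
            ((G₃ - 3 - 3 * f * (-(1 / 1000)) + f * (1 - f) * (-(1 / 1000)) ^ 2) /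
              (-(1 / 1000)) ^ 3 - f * (1 - f) ^ 2 / 3)) : False := by
  have v1a := Far_cast val1.1
  have v1b := Far_cast val1.2
  have v2a := Far_cast val2.1
  have v2b := Far_cast val2.2
  have v3a := Far_cast val3.1
  have v4 := Far_cast val4
  have v5 := Far_cast val5
  rw [Rat.cast_sub] at v4 v5
  generalize ((exG 10000 : ℚ) : ℝ) = g1 at *
  generalize ((exG 1000 : ℚ) : ℝ) = g2 at *
  generalize ((exG (999 / 1000) : ℚ) : ℝ) = g3 at *
  generalize ((exG (1 + 1 / 10 ^ 12) : ℚ) : ℝ) = g4 at *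
  generalize ((exG (1 - 1 / 10 ^ 12) : ℚ) : ℝ) = g5 at *
  rw [abs_le] at h1 h2 h3 h4 h5
  push_cast at v1a v1b v2a v2b v3a v4 v5
  norm_num at v1a v1b v2a v2b v3a v4 v5 h1 h2 h3 h4 h5 hf4 hf5
  refine Far_core (f := f) (G₁ := G₁) (G₂ := G₂) (G₃ := G₃) ?_ ?_ ?_ ?_ ?_ ?_ ?_ h
  · norm_num; linarith [h4.1]
  · norm_num; linarith [h5.1]
  · norm_num; linarith [h1.2]
  · norm_num; linarith [h1.1]
  · norm_num; linarith [h2.1]
  · norm_num; linarith [h2.2]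
  · norm_num; linarith [h3.1]

/-- the test points -/
noncomputable def testX : Finset ℝ :=
  {10000, 1000, 999 / 1000, 1 + 1 / 10 ^ 12, 1 - 1 / 10 ^ 12}

theorem testX_pos : ∀ x ∈ testX, 0 < x := by
  intro x hx
  unfold testX at hx
  simp only [Finset.mem_insert, Finset.mem_singleton] at hx
  rcases hx with rfl | rfl | rfl | rfl | rfl <;> norm_num

theorem Far_rat (x : ℝ) (hx : x ∈ testX) : ∃ q : ℚ, x = (q : ℝ) := by
  unfold testX at hx
  simp only [Finset.mem_insert, Finset.mem_singleton] at hx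
  rcases hx with rfl | rfl | rfl | rfl | rfl
  · exact ⟨10000, by norm_num⟩
  · exact ⟨1000, by norm_num⟩
  · exact ⟨999 / 1000, by push_cast; norm_num⟩
  · exact ⟨1 + 1 / 10 ^ 12, by push_cast; norm_num⟩
  · exact ⟨1 - 1 / 10 ^ 12, by push_cast; norm_num⟩

/-- the example at a test point -/
theorem exR_trace_real (x : ℝ) (hx : x ∈ testX) :
    ∃ r : ℝ, (exR (x : ℂ)).trace = (r : ℂ) := by
  obtain ⟨q, hq⟩ := Far_rat x hx
  refine ⟨(exG q : ℚ), ?_⟩
  have h := exR_trace q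
  rw [hq]
  push_cast
  exact h

/-- **No laminate in mutually orthogonal directions is near the example.** -/
theorem ex_far {v : Fin 3 → Fin 3 → ℝ} (hv : IsOrthoBasis v) {L : CFun}
    (hL : IsLaminate (Set.range v) L) :
    ∃ x ∈ testX, (1 / 10 ^ 26 : ℝ) ≤ ‖(L x).trace - (exR x).trace‖ := by
  by_contra hcon
  push Not at hcon
  obtain ⟨f, G, hf0, hf1, hG, hfr, hin⟩ := orth_necessary hv hL
  have key : ∀ (x : ℝ) (q : ℚ), x ∈ testX → x = (q : ℝ) → |G x - (exG q : ℚ)| ≤ 1 / 10 ^ 26 := by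
    intro x q hx hq
    have h1 := (hcon x hx).le
    rw [hG x (testX_pos x hx)] at h1
    have h2 : (exR (x : ℂ)).trace = (((exG q : ℚ) : ℝ) : ℂ) := by
      have h := exR_trace q
      rw [hq]
      push_cast
      exact h
    rw [h2, ← Complex.ofReal_sub, Complex.norm_real, Real.norm_eq_abs] at h1
    exact h1
  have m1 : (10000 : ℝ) ∈ testX := by unfold testX; simp
  have m2 : (1000 : ℝ) ∈ testX := by unfold testX; simp
  have m3 : (999 / 1000 : ℝ) ∈ testX := by unfold testX; simp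
  have m4 : (1 + 1 / 10 ^ 12 : ℝ) ∈ testX := by unfold testX; simp
  have m5 : (1 - 1 / 10 ^ 12 : ℝ) ∈ testX := by unfold testX; simp
  have k1 := key 10000 10000 m1 (by norm_num)
  have k2 := key 1000 1000 m2 (by norm_num)
  have k3 := key (999 / 1000) (999 / 1000) m3 (by push_cast; norm_num)
  have k4 := key (1 + 1 / 10 ^ 12) (1 + 1 / 10 ^ 12) m4 (by push_cast; norm_num)
  have k5 := key (1 - 1 / 10 ^ 12) (1 - 1 / 10 ^ 12) m5 (by push_cast; norm_num)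
  have f4 := hfr (1 + 1 / 10 ^ 12) (testX_pos _ m4)
  have f5 := hfr (1 - 1 / 10 ^ 12) (testX_pos _ m5)
  have hi := hin 10000 1000 (999 / 1000) (by norm_num) (by norm_num) (by norm_num) (by norm_num)
    (by norm_num)
  refine arith (f := f) k1 k2 k3 k4 k5 ?_ ?_ ?_
  · refine f4.trans (le_of_eq ?_)
    ring
  · refine f5.trans (le_of_eq ?_)
    ring
  · have e1 : (10000 : ℝ) - 1 = 9999 := by norm_num
    have e2 : (10000 : ℝ) - 1000 = 9000 := by norm_num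
    have e3 : (999 / 1000 : ℝ) - 1 = -(1 / 1000) := by norm_num
    rw [e1, e2, e3] at hi
    exact hi

end W_MP_e98908_an.H58
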