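import Pool.Agent.W_MP_e98908_an_h58.Ex

/-!
# MP_e98908_an (helper58) : isotropization without loss
-/

namespace W_MP_e98908_an.H58

open Matrix Complex

/-! ### isotropization without loss -/

/-- mirror image in the first axis -/
def QM : Matrix (Fin 3) (Fin 3) ℝ := !![-1, 0, 0; 0, 1, 0; 0, 0, 1]
/-- exchange of two axes -/
def Q12 : Matrix (Fin 3) (Fin 3) ℝ := !![0, 1, 0; 1, 0, 0; 0, 0, 1]
def Q23 : Matrix (Fin 3) (Fin 3) ℝ := !![1, 0, 0; 0, 0, 1; 0, 1, 0]
def Q13 : Matrix (Fin 3) (Fin 3) ℝ := !![0, 0, 1; 0, 1, 0; 1, 0, 0]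

/-- the isotropized laminate -/
noncomputable def iso1 (L : CFun) : CFun := fun σ =>
  layer ![0, 0, 1] (1 / 2) (L σ) (cm QM * L σ * (cm QM)ᵀ)
noncomputable def iso2 (L : CFun) : CFun := fun σ =>
  layer ![0, 0, 1] (1 / 2) (L σ) (cm Q12 * L σ * (cm Q12)ᵀ)
noncomputable def iso3 (L : CFun) : CFun := fun σ =>
  layer ![1, 0, 0] (2 / 3) (L σ) (cm Q23 * L σ * (cm Q23)ᵀ)
noncomputable def iso4 (L : CFun) : CFun := fun σ =>
  layer ![0, 1, 0] (1 / 2) (L σ) (cm Q13 * L σ * (cm Q13)ᵀ)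
noncomputable def iso (L : CFun) : CFun := iso4 (iso3 (iso2 (iso1 L)))

theorem Iso_hQ : QM * QMᵀ = 1 ∧ Q12 * Q12ᵀ = 1 ∧ Q23 * Q23ᵀ = 1 ∧ Q13 * Q13ᵀ = 1 := by
  refine ⟨?_, ?_, ?_, ?_⟩
  · ext i j
    fin_cases i <;> fin_cases j <;>
      simp [QM, Matrix.mul_apply, Fin.sum_univ_three, Matrix.one_apply]
  · ext i j
    fin_cases i <;> fin_cases j <;>
      simp [Q12, Matrix.mul_apply, Fin.sum_univ_three, Matrix.one_apply]
  · ext i j
    fin_cases i <;> fin_cases j <;>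
      simp [Q23, Matrix.mul_apply, Fin.sum_univ_three, Matrix.one_apply]
  · ext i j
    fin_cases i <;> fin_cases j <;>
      simp [Q13, Matrix.mul_apply, Fin.sum_univ_three, Matrix.one_apply]

theorem Iso_dirM : ∀ n ∈ ZDir, QM *ᵥ n ∈ ZDir := by
  rintro n ⟨m, hm, rfl⟩
  refine ⟨![-m 0, m 1, m 2], ?_, ?_⟩
  · intro h
    apply hm
    have h0 : -m 0 = 0 := congrFun h 0
    have h1 : m 1 = 0 := congrFun h 1
    have h2 : m 2 = 0 := congrFun h 2
    funext i
    fin_cases i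
    · simpa using h0
    · exact h1
    · exact h2
  · funext i
    fin_cases i <;> simp [QM, mulVec, dotProduct, Fin.sum_univ_three]

theorem Iso_dir12 : ∀ n ∈ ZDir, Q12 *ᵥ n ∈ ZDir := by
  rintro n ⟨m, hm, rfl⟩
  refine ⟨![m 1, m 0, m 2], ?_, ?_⟩
  · intro h
    apply hm
    have h0 : m 1 = 0 := congrFun h 0
    have h1 : m 0 = 0 := congrFun h 1
    have h2 : m 2 = 0 := congrFun h 2
    funext i
    fin_cases i
    · exact h1
    · exact h0
    · exact h2
  · funext i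
    fin_cases i <;> simp [Q12, mulVec, dotProduct, Fin.sum_univ_three]

theorem Iso_dir23 : ∀ n ∈ ZDir, Q23 *ᵥ n ∈ ZDir := by
  rintro n ⟨m, hm, rfl⟩
  refine ⟨![m 0, m 2, m 1], ?_, ?_⟩
  · intro h
    apply hm
    have h0 : m 0 = 0 := congrFun h 0
    have h1 : m 2 = 0 := congrFun h 1
    have h2 : m 1 = 0 := congrFun h 2
    funext i
    fin_cases i
    · exact h0
    · exact h2
    · exact h1
  · funext i
    fin_cases i <;> simp [Q23, mulVec, dotProduct, Fin.sum_univ_three]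

theorem Iso_dir13 : ∀ n ∈ ZDir, Q13 *ᵥ n ∈ ZDir := by
  rintro n ⟨m, hm, rfl⟩
  refine ⟨![m 2, m 1, m 0], ?_, ?_⟩
  · intro h
    apply hm
    have h0 : m 2 = 0 := congrFun h 0
    have h1 : m 1 = 0 := congrFun h 1
    have h2 : m 0 = 0 := congrFun h 2
    funext i
    fin_cases i
    · exact h2
    · exact h1
    · exact h0
  · funext i
    fin_cases i <;> simp [Q13, mulVec, dotProduct, Fin.sum_univ_three]

theorem iso_isLaminate {L : CFun} (hL : IsLaminate ZDir L) : IsLaminate ZDir (iso L) := by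
  obtain ⟨q1, q2, q3, q4⟩ := Iso_hQ
  have d2 : (![0, 0, 1] : Fin 3 → ℝ) ∈ ZDir := by
    have := Ex_dir 0 0 1 (by norm_num)
    simpa using this
  have d4 : (![1, 0, 0] : Fin 3 → ℝ) ∈ ZDir := by
    have := Ex_dir 1 0 0 (by norm_num)
    simpa using this
  have d6 : (![0, 1, 0] : Fin 3 → ℝ) ∈ ZDir := by
    have := Ex_dir 0 1 0 (by norm_num)
    simpa using this
  have h1 : IsLaminate ZDir (iso1 L) :=
    IsLaminate.layer d2 (by norm_num) (by norm_num) hL (isLaminate_conj q1 Iso_dirM hL)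
  have h2 : IsLaminate ZDir (iso2 (iso1 L)) :=
    IsLaminate.layer d2 (by norm_num) (by norm_num) h1 (isLaminate_conj q2 Iso_dir12 h1)
  have h3 : IsLaminate ZDir (iso3 (iso2 (iso1 L))) :=
    IsLaminate.layer d4 (by norm_num) (by norm_num) h2 (isLaminate_conj q3 Iso_dir23 h2)
  exact IsLaminate.layer d6 (by norm_num) (by norm_num) h3 (isLaminate_conj q4 Iso_dir13 h3)

theorem Iso_layer {n : Fin 3 → ℝ} {θ : ℝ} {A B : Matrix (Fin 3) (Fin 3) ℂ}
    (h : (A - B) *ᵥ (fun i => (n i : ℂ)) = 0) :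
    layer n θ A B = (θ : ℂ) • A + (1 - θ : ℂ) • B := by
  unfold layer
  rw [h]
  simp

theorem iso_eq {L : CFun} (hL : ∀ σ, Blk (L σ)) (σ : ℂ) :
    iso L σ = ((L σ).trace / 3) • (1 : Matrix (Fin 3) (Fin 3) ℂ) := by
  obtain ⟨b1, b2, b3, b4⟩ := hL σ
  set a : ℂ := L σ 0 0 with ha
  set d : ℂ := L σ 1 1 with hd
  set z : ℂ := L σ 2 2 with hz
  have e1 : iso1 L σ = Matrix.diagonal ![a, d, z] := by
    unfold iso1
    rw [Iso_layer]
    · ext i j
      fin_cases i <;> fin_cases j <;>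
        simp [cm, QM, Matrix.mul_apply, Fin.sum_univ_three, Matrix.diagonal, b1, b2, b3, b4,
          ← ha, ← hd, ← hz] <;> ring
    · funext i
      fin_cases i <;>
        simp [cm, QM, Matrix.mul_apply, Fin.sum_univ_three, mulVec, dotProduct, b1, b2]
  have e2 : iso2 (iso1 L) σ = Matrix.diagonal ![(a + d) / 2, (a + d) / 2, z] := by
    unfold iso2
    rw [e1, Iso_layer]
    · ext i j
      fin_cases i <;> fin_cases j <;>
        simp [cm, Q12, Matrix.mul_apply, Fin.sum_univ_three, Matrix.diagonal] <;> ring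
    · funext i
      fin_cases i <;>
        simp [cm, Q12, Matrix.mul_apply, Fin.sum_univ_three, mulVec, dotProduct, Matrix.diagonal]
  have e3 : iso3 (iso2 (iso1 L)) σ = Matrix.diagonal ![(a + d) / 2, (a + d + z) / 3,
      (2 * z + (a + d) / 2) / 3] := by
    unfold iso3
    rw [e2, Iso_layer]
    · ext i j
      fin_cases i <;> fin_cases j <;>
        simp [cm, Q23, Matrix.mul_apply, Fin.sum_univ_three, Matrix.diagonal] <;> ring
    · funext i
      fin_cases i <;>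
        simp [cm, Q23, Matrix.mul_apply, Fin.sum_univ_three, mulVec, dotProduct, Matrix.diagonal]
  have e4 : iso L σ = Matrix.diagonal ![(a + d + z) / 3, (a + d + z) / 3, (a + d + z) / 3] := by
    unfold iso iso4
    rw [e3, Iso_layer]
    · ext i j
      fin_cases i <;> fin_cases j <;>
        simp [cm, Q13, Matrix.mul_apply, Fin.sum_univ_three, Matrix.diagonal] <;> ring
    · funext i
      fin_cases i <;>
        simp [cm, Q13, Matrix.mul_apply, Fin.sum_univ_three, mulVec, dotProduct, Matrix.diagonal]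
  rw [e4]
  ext i j
  fin_cases i <;> fin_cases j <;>
    simp [Matrix.diagonal, Matrix.trace, Fin.sum_univ_three, Matrix.one_apply, ← ha, ← hd, ← hz]

end W_MP_e98908_an.H58
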