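import Pool.Agent.W_MP_e98908_an_h58.Far
import Pool.Agent.W_MP_e98908_an_h58.Cubic
import Pool.Agent.W_MP_e98908_an_h58.Iso

/-!
# MP_e98908_an (helper58) : laminating in orthogonal directions does not suffice
-/

namespace W_MP_e98908_an.H58

open Matrix Complex

/-- the conductivity function of the isotropized example -/
noncomputable def exg (σ : ℂ) : ℂ := (exR σ).trace / 3

theorem exIso_isLaminate : IsLaminate ZDir (iso exR) := iso_isLaminate exR_isLaminate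

theorem exIso_eq (σ : ℂ) : iso exR σ = exg σ • (1 : Matrix (Fin 3) (Fin 3) ℂ) :=
  iso_eq exR_blk σ

/-- far from a function near the example -/
theorem far_of_near {g : ℂ → ℂ} (hg : ∀ x ∈ testX, ‖g x - exg x‖ ≤ 1 / 10 ^ 27)
    {v : Fin 3 → Fin 3 → ℝ} (hv : IsOrthoBasis v) {L : CFun}
    (hL : IsLaminate (Set.range v) L) :
    ∃ x ∈ testX, ∃ i j,
      (1 / 10 ^ 27 : ℝ) ≤ ‖(L x - g x • (1 : Matrix (Fin 3) (Fin 3) ℂ)) i j‖ := by
  obtain ⟨x, hx, h⟩ := ex_far hv hL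
  refine ⟨x, hx, ?_⟩
  by_contra hcon
  push Not at hcon
  have h1 := hcon 0 0
  have h2 := hcon 1 1
  have h3 := hcon 2 2
  have e : (L x).trace - (exR x).trace =
      (L x - g x • (1 : Matrix (Fin 3) (Fin 3) ℂ)) 0 0 +
      (L x - g x • (1 : Matrix (Fin 3) (Fin 3) ℂ)) 1 1 +
      (L x - g x • (1 : Matrix (Fin 3) (Fin 3) ℂ)) 2 2 + 3 * (g x - exg x) := by
    rw [Matrix.trace_fin_three (L x)]
    unfold exg
    simp only [Matrix.sub_apply, Matrix.smul_apply, Matrix.one_apply_eq, smul_eq_mul, mul_one]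
    ring
  have h4 : ‖(3 : ℂ) * (g x - exg x)‖ ≤ 3 * (1 / 10 ^ 27) := by
    rw [norm_mul]
    have : ‖(3 : ℂ)‖ = 3 := by norm_num
    rw [this]
    exact mul_le_mul_of_nonneg_left (hg x hx) (by norm_num)
  rw [e] at h
  have h5 := norm_add_le ((L x - g x • (1 : Matrix (Fin 3) (Fin 3) ℂ)) 0 0 +
      (L x - g x • (1 : Matrix (Fin 3) (Fin 3) ℂ)) 1 1 +
      (L x - g x • (1 : Matrix (Fin 3) (Fin 3) ℂ)) 2 2) (3 * (g x - exg x))
  have h6 := norm_add₃_le (a := (L x - g x • (1 : Matrix (Fin 3) (Fin 3) ℂ)) 0 0)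
    (b := (L x - g x • (1 : Matrix (Fin 3) (Fin 3) ℂ)) 1 1)
    (c := (L x - g x • (1 : Matrix (Fin 3) (Fin 3) ℂ)) 2 2)
  have h7 : (1 / 10 ^ 26 : ℝ) < 1 / 10 ^ 27 + 1 / 10 ^ 27 + 1 / 10 ^ 27 + 3 * (1 / 10 ^ 27) := by
    linarith
  norm_num at h7

theorem final : (∃ (S : Set Cell) (g : ℂ → ℂ),
      IsIsotropicComposite (Pi.basisFun ℝ (Fin 3)) S g ∧
      ∃ (X : Finset ℝ) (ε : ℝ), (∀ x ∈ X, 0 < x) ∧ 0 < ε ∧
        ∀ v : Fin 3 → Fin 3 → ℝ, IsOrthoBasis v → ∀ L : CFun, IsLaminate (Set.range v) L →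
          ∃ x ∈ X, ∃ i j, ε ≤ ‖(L x - g x • (1 : Matrix (Fin 3) (Fin 3) ℂ)) i j‖) ∧
    ∃ (L' : CFun) (g' : ℂ → ℂ), IsLaminate {n | n ≠ 0} L' ∧
      (∀ σ ∈ slitPlane, L' σ = g' σ • (1 : Matrix (Fin 3) (Fin 3) ℂ)) ∧
      ∃ (X : Finset ℝ) (ε : ℝ), (∀ x ∈ X, 0 < x) ∧ 0 < ε ∧
        ∀ v : Fin 3 → Fin 3 → ℝ, IsOrthoBasis v → ∀ L : CFun, IsLaminate (Set.range v) L →
          ∃ x ∈ X, ∃ i j, ε ≤ ‖(L x - g' x • (1 : Matrix (Fin 3) (Fin 3) ℂ)) i j‖ := by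
  refine ⟨?_, iso exR, exg, ?_, fun σ _ => exIso_eq σ, testX, 1 / 10 ^ 27, testX_pos,
    by positivity, fun v hv L hL => far_of_near (g := exg) ?_ hv hL⟩
  · -- real values at the test points
    have hr : ∀ x : ℝ, ∃ t : ℝ, x ∈ testX → exg x = (t : ℂ) := by
      intro x
      by_cases hx : x ∈ testX
      · obtain ⟨r, hr⟩ := exR_trace_real x hx
        refine ⟨r / 3, fun _ => ?_⟩
        unfold exg
        rw [hr]
        push_cast
        rfl
      · exact ⟨0, fun h => absurd h hx⟩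
    choose t ht using hr
    obtain ⟨S, g, hS, hg⟩ := appr_isotropic exIso_isLaminate (t := t) (X := testX) testX_pos
      (fun x hx => by rw [exIso_eq, ht x hx]) (ε := 1 / 10 ^ 27) (by positivity)
    refine ⟨S, g, hS, testX, 1 / 10 ^ 27, testX_pos, by positivity, fun v hv L hL =>
      far_of_near (g := g) (fun x hx => ?_) hv hL⟩
    rw [ht x hx]
    exact hg x hx
  · refine isLaminate_mono ?_ exIso_isLaminate
    rintro n ⟨m, hm, rfl⟩ h
    apply hm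
    ext i
    have := congrFun h i
    simpa using this
  · intro x _
    rw [sub_self, norm_zero]
    positivity

end W_MP_e98908_an.H58
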