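import Pool.Agent.W_MP_e98908_an_h58.Ops1

/-!
# MP_e98908_an (helper58) : dilations
-/

namespace W_MP_e98908_an.H58

open MeasureTheory Set Filter Topology Complex UnitAddTorus

instance : cellMeasure.IsAddHaarMeasure := by
  unfold cellMeasure
  infer_instance

/-- the `(N+1)`-fold dilation -/
def nmap (N : ℕ) (x : Cell) : Cell := (N + 1) • x

theorem continuous_nmap (N : ℕ) : Continuous (nmap N) := by
  unfold nmap
  exact continuous_nsmul (N + 1)

theorem nmap_mp (N : ℕ) : MeasurePreserving (nmap N) cellMeasure cellMeasure := by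
  have h1 : nmap N = (nsmulAddMonoidHom (α := Cell) (N + 1)) := rfl
  rw [h1]
  refine AddMonoidHom.measurePreserving (continuous_nmap N) ?_ rfl
  intro y
  have h2 : ∀ i, ∃ z : UnitAddCircle, (N + 1) • z = y i := by
    intro i
    obtain ⟨t, ht⟩ := QuotientAddGroup.mk_surjective (y i)
    refine ⟨((t / (N + 1) : ℝ) : UnitAddCircle), ?_⟩
    rw [← ht, ← AddCircle.coe_nsmul]
    congr 1
    rw [nsmul_eq_mul]
    push_cast
    field_simp
  choose z hz using h2
  exact ⟨z, funext hz⟩

/-- the field `e((N+1)x)` -/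
noncomputable def dil (N : ℕ) : Fld →L[ℂ] Fld :=
  (Lp.compMeasurePreservingₗᵢ ℂ (nmap N) (nmap_mp N)).toContinuousLinearMap

theorem dil_coe (N : ℕ) (e : Fld) : dil N e =ᵐ[cellMeasure] fun x => e (nmap N x) :=
  Lp.coeFn_compMeasurePreserving e (nmap_mp N)

theorem norm_dil (N : ℕ) (e : Fld) : ‖dil N e‖ = ‖e‖ :=
  LinearIsometry.norm_map (Lp.compMeasurePreservingₗᵢ ℂ (nmap N) (nmap_mp N)) e

theorem Ops4_mFourier (N : ℕ) (n : Fin 3 → ℤ) (x : Cell) :
    mFourier n (nmap N x) = mFourier ((N + 1 : ℤ) • n) x := by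
  show ∏ i, fourier (n i) ((nmap N x) i) = ∏ i, fourier (((N + 1 : ℤ) • n) i) (x i)
  refine Finset.prod_congr rfl fun i _ => ?_
  show fourier (n i) ((N + 1) • x i) = fourier ((N + 1 : ℤ) • n i) (x i)
  rw [fourier_apply, fourier_apply]
  congr 2
  rw [← natCast_zsmul, smul_smul, smul_eq_mul]
  congr 1
  push_cast
  ring

theorem dil_Wv (N : ℕ) (a : V3) (n : Fin 3 → ℤ) : dil N (Wv a n) = Wv a ((N + 1 : ℤ) • n) := by
  apply Lp.ext
  filter_upwards [dil_coe N (Wv a n), Wv_coe a ((N + 1 : ℤ) • n),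
    (nmap_mp N).quasiMeasurePreserving.ae (Wv_coe a n)] with x h1 h2 h3
  rw [h1, h2, h3, Ops4_mFourier]

theorem mean_dil (N : ℕ) (e : Fld) : mean (dil N e) = mean e := by
  ext i
  rw [mean_apply, mean_apply]
  unfold fc
  have h1 : ∫ x, mFourier (-0) x * (dil N e x) i ∂cellMeasure =
      ∫ x, (fun y => mFourier (-0) y * (e y) i) (nmap N x) ∂cellMeasure := by
    apply integral_congr_ae
    filter_upwards [dil_coe N e] with x hx
    rw [hx, neg_zero, mFourier_zero]
    rfl
  have h2 : AEStronglyMeasurable (fun x => (e x) i) cellMeasure := (memLp_comp e i).1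
  have h3 : AEStronglyMeasurable (fun y => mFourier (-0) y * (e y) i)
      (Measure.map (nmap N) cellMeasure) := by
    rw [(nmap_mp N).map_eq]
    exact ((mFourier (-0)).continuous.aestronglyMeasurable).mul h2
  have h4 := integral_map (nmap_mp N).measurable.aemeasurable h3
  rw [(nmap_mp N).map_eq] at h4
  rw [h1, ← h4]

theorem Pm_dil (N : ℕ) {S : Set Cell} (hS : MeasurableSet S) (e : Fld) :
    Pm ((continuous_nmap N).measurable hS) (dil N e) = dil N (Pm hS e) := by
  apply Lp.ext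
  filter_upwards [Pm_coe ((continuous_nmap N).measurable hS) (dil N e), dil_coe N e,
    dil_coe N (Pm hS e), (nmap_mp N).quasiMeasurePreserving.ae (Pm_coe hS e)] with x h1 h2 h3 h4
  rw [h1, h3, h4]
  by_cases hx : nmap N x ∈ S
  · rw [indicator_of_mem hx, indicator_of_mem (show x ∈ nmap N ⁻¹' S from hx), h2]
  · rw [indicator_of_notMem hx, indicator_of_notMem (show x ∉ nmap N ⁻¹' S from hx)]

end W_MP_e98908_an.H58
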