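import Pool.Agent.W_MP_e98908_an_h58.Ops1
import Pool.Agent.W_MP_e98908_an_h58.Ops4

/-!
# MP_e98908_an (helper58) : slabs and their measure
-/

namespace W_MP_e98908_an.H58

open MeasureTheory Set Filter Topology Complex UnitAddTorus Matrix

/-- the phase `m·x` -/
def phs (m : Fin 3 → ℤ) (x : Cell) : UnitAddCircle := ∑ i, m i • x i

theorem continuous_phs (m : Fin 3 → ℤ) : Continuous (phs m) := by
  unfold phs
  exact continuous_finsetSum _ fun i _ => (continuous_zsmul (m i)).comp (continuous_apply i)

/-- the phase as a homomorphism -/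
def phsHom (m : Fin 3 → ℤ) : Cell →+ UnitAddCircle where
  toFun := phs m
  map_zero' := by simp [phs]
  map_add' := fun x y => by
    simp only [phs, Pi.add_apply, smul_add, Finset.sum_add_distrib]

theorem phs_surj {m : Fin 3 → ℤ} (hm : m ≠ 0) : Function.Surjective (phs m) := by
  obtain ⟨i, hi⟩ : ∃ i, m i ≠ 0 := by
    by_contra h
    push Not at h
    exact hm (funext h)
  intro y
  obtain ⟨t, rfl⟩ := QuotientAddGroup.mk_surjective y
  refine ⟨Pi.single i ((t / m i : ℝ) : UnitAddCircle), ?_⟩
  unfold phs
  rw [Finset.sum_eq_single i]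
  · rw [Pi.single_eq_same]
    have h1 : m i • ((t / m i : ℝ) : UnitAddCircle) = ((m i • (t / m i : ℝ) : ℝ) : UnitAddCircle) :=
      (AddCircle.coe_zsmul 1).symm
    rw [h1]
    have h2 : (m i • (t / m i : ℝ) : ℝ) = t := by
      rw [zsmul_eq_mul]
      have : (m i : ℝ) ≠ 0 := by exact_mod_cast hi
      field_simp
    rw [h2]
  · intro j _ hj
    rw [Pi.single_eq_of_ne hj, smul_zero]
  · intro h
    exact absurd (Finset.mem_univ i) h

theorem phs_mp {m : Fin 3 → ℤ} (hm : m ≠ 0) :
    MeasurePreserving (phs m) cellMeasure AddCircle.haarAddCircle := by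
  have h := AddMonoidHom.measurePreserving (μ := cellMeasure)
    (ν := (AddCircle.haarAddCircle : Measure UnitAddCircle)) (f := phsHom m)
    (continuous_phs m) (phs_surj hm) (by
      have h1 : IsProbabilityMeasure cellMeasure := by
        unfold cellMeasure; infer_instance
      rw [measure_univ, measure_univ])
  exact h

theorem haar_eq_volume :
    (AddCircle.haarAddCircle : Measure UnitAddCircle) = volume := by
  rw [AddCircle.volume_eq_smul_haarAddCircle]
  simp

theorem haar_singleton (y : UnitAddCircle) :
    (AddCircle.haarAddCircle : Measure UnitAddCircle) {y} = 0 := by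
  rw [haar_eq_volume]
  have h := AddCircle.volume_closedBall (T := (1 : ℝ)) (x := y) 0
  simpa using h

/-- the phase is constant on a null set only -/
theorem phs_null {m : Fin 3 → ℤ} (hm : m ≠ 0) (y : UnitAddCircle) :
    cellMeasure {x | phs m x = y} = 0 := by
  have h : {x | phs m x = y} = phs m ⁻¹' {y} := rfl
  rw [h, (phs_mp hm).measure_preimage (measurableSet_singleton y).nullMeasurableSet]
  exact haar_singleton y

/-- the arc `[0, θ)` of the circle -/
def arc (θ : ℝ) : Set UnitAddCircle := {y | ((AddCircle.equivIco 1 0 y : ℝ)) < θ}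

theorem measurableSet_arc (θ : ℝ) : MeasurableSet (arc θ) := by
  have h : Measurable fun y : UnitAddCircle => ((AddCircle.measurableEquivIco 1 0 y : ℝ)) :=
    measurable_subtype_coe.comp (AddCircle.measurableEquivIco (1 : ℝ) 0).measurable
  exact measurableSet_lt h measurable_const

theorem measure_arc {θ : ℝ} (h0 : 0 ≤ θ) (h1 : θ ≤ 1) :
    (AddCircle.haarAddCircle : Measure UnitAddCircle).real (arc θ) = θ := by
  have hv : (volume : Measure UnitAddCircle) (arc θ) = ENNReal.ofReal θ := by
    rw [AddCircle.add_projection_respects_measure (1 : ℝ) 0 (measurableSet_arc θ), zero_add]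
    have hA : ∀ x : ℝ, (QuotientAddGroup.mk x : UnitAddCircle) ∈ arc θ ↔ Int.fract x < θ := by
      intro x
      unfold arc
      rw [mem_ofPred_eq, AddCircle.coe_equivIco_mk_apply]
      simp
    apply le_antisymm
    · calc volume ((QuotientAddGroup.mk : ℝ → UnitAddCircle) ⁻¹' arc θ ∩ Ioc 0 1)
          ≤ volume (Ioc (0 : ℝ) θ ∪ {1}) := by
            apply measure_mono
            rintro x ⟨hx1, hx2, hx3⟩
            rcases eq_or_lt_of_le hx3 with h | h
            · exact Or.inr h
            · left
              have h4 : Int.fract x = x := Int.fract_eq_self.mpr ⟨hx2.le, h⟩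
              have h5 := (hA x).mp hx1
              rw [h4] at h5
              exact ⟨hx2, h5.le⟩
        _ ≤ volume (Ioc (0 : ℝ) θ) + volume ({1} : Set ℝ) := measure_union_le _ _
        _ = ENNReal.ofReal θ := by
            rw [Real.volume_Ioc, Real.volume_singleton, add_zero, sub_zero]
    · calc ENNReal.ofReal θ = volume (Ioo (0 : ℝ) θ) := by rw [Real.volume_Ioo, sub_zero]
        _ ≤ _ := by
            apply measure_mono
            rintro x ⟨hx1, hx2⟩
            refine ⟨(hA x).mpr ?_, hx1, by linarith⟩
            have h4 : Int.fract x = x := Int.fract_eq_self.mpr ⟨hx1.le, by linarith⟩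
            rw [h4]
            exact hx2
  rw [haar_eq_volume, measureReal_def, hv, ENNReal.toReal_ofReal h0]

/-- layers normal to `m` of relative thickness `θ` -/
def slab (m : Fin 3 → ℤ) (θ : ℝ) : Set Cell := phs m ⁻¹' arc θ

theorem measurableSet_slab (m : Fin 3 → ℤ) (θ : ℝ) : MeasurableSet (slab m θ) :=
  (continuous_phs m).measurable (measurableSet_arc θ)

theorem measure_slab {m : Fin 3 → ℤ} (hm : m ≠ 0) {θ : ℝ} (h0 : 0 ≤ θ) (h1 : θ ≤ 1) :
    cellMeasure.real (slab m θ) = θ := by
  rw [measureReal_def, slab,
    (phs_mp hm).measure_preimage (measurableSet_arc θ).nullMeasurableSet, ← measureReal_def]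
  exact measure_arc h0 h1

end W_MP_e98908_an.H58
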