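import Pool.Agent.W_MP_e98908_an_h58.Act
import Pool.Agent.W_MP_e98908_an_h58.SlabA

/-!
# MP_e98908_an (helper58) : a fundamental domain
-/

namespace W_MP_e98908_an.H58

open MeasureTheory Set Filter Topology Complex UnitAddTorus Matrix

/-- the point of the unit circle -/
noncomputable def zc (y : UnitAddCircle) : ℂ := (AddCircle.toCircle y : ℂ)

/-- the fundamental domain -/
def FD : Set Cell := {x | (∀ i, 0 < (zc (x i)).im) ∧ (zc (x 0)).re < (zc (x 1)).re ∧
  (zc (x 0)).re < (zc (x 2)).re}

theorem Fund_zc_neg (y : UnitAddCircle) : zc (-y) = (starRingEnd ℂ) (zc y) := by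
  rw [zc, AddCircle.toCircle_neg, Circle.coe_inv_eq_conj]
  rfl

theorem Fund_zc_sq (y : UnitAddCircle) : (zc y).re ^ 2 + (zc y).im ^ 2 = 1 := by
  have h := Circle.normSq_coe (AddCircle.toCircle y)
  rw [Complex.normSq_apply] at h
  rw [zc]
  nlinarith [h]

theorem Fund_zc_inj {y y' : UnitAddCircle} (h : zc y = zc y') : y = y' :=
  AddCircle.injective_toCircle one_ne_zero (Circle.coe_injective h)

theorem Fund_zc_cont : Continuous zc :=
  continuous_induced_dom.comp AddCircle.continuous_toCircle

theorem Fund_re_unit (u : ℤˣ) (y : UnitAddCircle) : (zc ((u : ℤ) • y)).re = (zc y).re := by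
  rcases Int.units_eq_one_or u with rfl | rfl
  · simp
  · simp [Fund_zc_neg]

theorem Fund_im_unit (u : ℤˣ) (y : UnitAddCircle) :
    (zc ((u : ℤ) • y)).im = ((u : ℤ) : ℝ) * (zc y).im := by
  rcases Int.units_eq_one_or u with rfl | rfl
  · simp
  · simp [Fund_zc_neg]

theorem Fund_sign {u u' : ℤˣ} {t : ℝ} (h : 0 < ((u : ℤ) : ℝ) * t) (h' : 0 < ((u' : ℤ) : ℝ) * t) :
    u = u' := by
  rcases Int.units_eq_one_or u with rfl | rfl <;> rcases Int.units_eq_one_or u' with rfl | rfl
  · rfl
  · simp at h h'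
    linarith
  · simp at h h'
    linarith
  · rfl

theorem Fund_shift (c j : Fin 3) (h : j ≠ c) : j = 1 + c ∨ j = 2 + c := by
  revert c j
  decide

theorem Fund_shift' (c j : Fin 3) (h : j ≠ 0) : j + c ≠ c := by
  revert c j
  decide

theorem measurableSet_FD : MeasurableSet FD := by
  have h : IsOpen FD := by
    have h1 : ∀ i, Continuous fun x : Cell => zc (x i) := fun i =>
      Fund_zc_cont.comp (continuous_apply i)
    have h2 : FD = (⋂ i, {x : Cell | 0 < (zc (x i)).im}) ∩
        ({x : Cell | (zc (x 0)).re < (zc (x 1)).re} ∩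
          {x : Cell | (zc (x 0)).re < (zc (x 2)).re}) := by
      ext x
      simp only [FD, Set.mem_ofPred_eq, Set.mem_inter_iff, Set.mem_iInter]
    rw [h2]
    refine (isOpen_iInter_of_finite fun i => ?_).inter (IsOpen.inter ?_ ?_)
    · exact isOpen_lt continuous_const (Complex.continuous_im.comp (h1 i))
    · exact isOpen_lt (Complex.continuous_re.comp (h1 0)) (Complex.continuous_re.comp (h1 1))
    · exact isOpen_lt (Complex.continuous_re.comp (h1 0)) (Complex.continuous_re.comp (h1 2))
  exact h.measurableSet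

/-- the images of the fundamental domain -/
def RD (g : GI) : Set Cell := act g ⁻¹' FD

theorem measurableSet_RD (g : GI) : MeasurableSet (RD g) :=
  (continuous_act g).measurable measurableSet_FD

theorem Fund_mem_RD {g : GI} {x : Cell} : x ∈ RD g ↔
    (∀ i, 0 < ((g.1 i : ℤ) : ℝ) * (zc (x (i + g.2))).im) ∧
      ∀ j, j ≠ g.2 → (zc (x g.2)).re < (zc (x j)).re := by
  have h0 : x ∈ RD g ↔ (∀ i, 0 < (zc (act g x i)).im) ∧
      (zc (act g x 0)).re < (zc (act g x 1)).re ∧ (zc (act g x 0)).re < (zc (act g x 2)).re :=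
    Iff.rfl
  rw [h0]
  simp only [act, Fund_im_unit, Fund_re_unit, zero_add]
  refine and_congr Iff.rfl ⟨?_, ?_⟩
  · rintro ⟨h1, h2⟩ j hj
    rcases Fund_shift g.2 j hj with rfl | rfl
    · exact h1
    · exact h2
  · intro h
    exact ⟨h _ (Fund_shift' _ _ (by decide)), h _ (Fund_shift' _ _ (by decide))⟩

theorem RD_disjoint : Pairwise (Function.onFun Disjoint RD) := by
  intro g g' hgg
  show Disjoint (RD g) (RD g')
  rw [Set.disjoint_left]
  intro x hx hx'
  rw [Fund_mem_RD] at hx hx'
  apply hgg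
  have h2 : g.2 = g'.2 := by
    by_contra hne
    have h3 := hx.2 _ (Ne.symm hne)
    have h4 := hx'.2 _ hne
    linarith
  refine Prod.ext (funext fun i => ?_) h2
  have h5 := hx.1 i
  have h6 := hx'.1 i
  rw [h2] at h5
  exact Fund_sign h5 h6

theorem Fund_phs_single (i : Fin 3) (k : ℤ) (x : Cell) : phs (Pi.single i k) x = k • x i := by
  rw [phs, Finset.sum_eq_single i]
  · rw [Pi.single_eq_same]
  · intro j _ hj
    rw [Pi.single_eq_of_ne hj, zero_smul]
  · intro h
    exact absurd (Finset.mem_univ i) h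

theorem Fund_phs_add (m m' : Fin 3 → ℤ) (x : Cell) : phs (m + m') x = phs m x + phs m' x := by
  rw [phs, phs, phs, ← Finset.sum_add_distrib]
  refine Finset.sum_congr rfl fun i _ => ?_
  rw [Pi.add_apply, add_smul]

theorem Fund_generic {x : Cell} (h : ∀ m : Fin 3 → ℤ, m ≠ 0 → phs m x ≠ 0) : ∃ g, x ∈ RD g := by
  have him : ∀ i, (zc (x i)).im ≠ 0 := by
    intro i hi
    apply h (Pi.single i 2)
    · intro h0
      have := congrFun h0 i
      rw [Pi.single_eq_same] at this
      exact two_ne_zero this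
    · rw [Fund_phs_single]
      have h1 : zc (-x i) = zc (x i) := by
        rw [Fund_zc_neg]
        apply Complex.ext
        · rw [Complex.conj_re]
        · rw [Complex.conj_im, hi, neg_zero]
      have h2 := Fund_zc_inj h1
      rw [two_smul]
      nth_rewrite 1 [← h2]
      rw [neg_add_cancel]
  have hre : ∀ i j, i ≠ j → (zc (x i)).re ≠ (zc (x j)).re := by
    intro i j hij hr
    have h1 := Fund_zc_sq (x i)
    have h2 := Fund_zc_sq (x j)
    rw [hr] at h1
    have h3 : (zc (x i)).im ^ 2 = (zc (x j)).im ^ 2 := by linarith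
    rcases sq_eq_sq_iff_eq_or_eq_neg.mp h3 with h4 | h4
    · have h5 : x i = x j := Fund_zc_inj (Complex.ext hr h4)
      apply h (Pi.single i 1 + Pi.single j (-1))
      · intro h0
        have := congrFun h0 i
        rw [Pi.add_apply, Pi.single_eq_same, Pi.single_eq_of_ne hij, add_zero] at this
        exact one_ne_zero this
      · rw [Fund_phs_add, Fund_phs_single, Fund_phs_single, h5, one_smul, neg_smul, one_smul,
          add_neg_cancel]
    · have h5 : x i = -x j := by
        apply Fund_zc_inj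
        rw [Fund_zc_neg]
        apply Complex.ext
        · rw [Complex.conj_re, hr]
        · rw [Complex.conj_im, h4]
      apply h (Pi.single i 1 + Pi.single j 1)
      · intro h0
        have := congrFun h0 i
        rw [Pi.add_apply, Pi.single_eq_same, Pi.single_eq_of_ne hij, add_zero] at this
        exact one_ne_zero this
      · rw [Fund_phs_add, Fund_phs_single, Fund_phs_single, h5, one_smul, one_smul,
          neg_add_cancel]
  obtain ⟨c, hc⟩ := Finite.exists_min fun i : Fin 3 => (zc (x i)).re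
  refine ⟨(fun i => if 0 < (zc (x (i + c))).im then 1 else -1, c), ?_⟩
  rw [Fund_mem_RD]
  constructor
  · intro i
    show 0 < (((if 0 < (zc (x (i + c))).im then 1 else -1 : ℤˣ) : ℤ) : ℝ) * (zc (x (i + c))).im
    split_ifs with h1
    · simpa using h1
    · have h2 : (zc (x (i + c))).im < 0 := lt_of_le_of_ne (not_lt.mp h1) (him _)
      simpa using h2
  · intro j hj
    exact lt_of_le_of_ne (hc j) (hre c j (Ne.symm hj))

theorem RD_null : cellMeasure (⋃ g, RD g)ᶜ = 0 := by
  have h1 : (⋃ g, RD g)ᶜ ⊆ ⋃ m : {m : Fin 3 → ℤ // m ≠ 0}, {x : Cell | phs m.1 x = 0} := by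
    intro x hx
    by_contra hcon
    apply hx
    rw [Set.mem_iUnion]
    apply Fund_generic
    intro m hm h0
    exact hcon (Set.mem_iUnion.mpr ⟨⟨m, hm⟩, h0⟩)
  refine measure_mono_null h1 (measure_iUnion_null fun m => ?_)
  exact phs_null m.2 0

/-- the symmetrised composite -/
def sym (S : Set Cell) (N : ℕ) : Set Cell := ⋃ g : GI, RD g ∩ nmap N ⁻¹' (act g ⁻¹' S)

theorem act_sym (h : GI) (S : Set Cell) (N : ℕ) : act h ⁻¹' sym S N = sym S N := by
  ext x
  simp only [sym, Set.mem_preimage, Set.mem_iUnion, Set.mem_inter_iff, RD]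
  constructor
  · rintro ⟨g, h1, h2⟩
    refine ⟨gm g h, ?_, ?_⟩
    · rw [act_gm]
      exact h1
    · rw [act_gm, act_nmap h]
      exact h2
  · rintro ⟨g', h1, h2⟩
    obtain ⟨g, rfl⟩ := (gm_right_bijective h).2 g'
    refine ⟨g, ?_, ?_⟩
    · rw [act_gm] at h1
      exact h1
    · rw [act_gm, act_nmap h] at h2
      exact h2

end W_MP_e98908_an.H58
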