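import Pool.Agent.W_MP_e98908_an_h89.Defs

/-!
# MP_e98908_an (helper58) : linear algebra of the lamination formula
-/

namespace W_MP_e98908_an.H58

open Matrix Complex

/-- complexification of a real direction -/
def cv (n : Fin 3 → ℝ) : Fin 3 → ℂ := fun i => (n i : ℂ)

/-- complexification of a real matrix -/
def cm (Q : Matrix (Fin 3) (Fin 3) ℝ) : Matrix (Fin 3) (Fin 3) ℂ := Q.map (fun t => (t : ℂ))

theorem cm_orth {Q : Matrix (Fin 3) (Fin 3) ℝ} (hQ : Q * Qᵀ = 1) : cm Q * (cm Q)ᵀ = 1 := by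
  have h : (Q * Qᵀ).map (Complex.ofRealHom) = 1 := by
    rw [hQ]; exact Matrix.map_one _ (map_zero _) (map_one _)
  rw [Matrix.map_mul] at h
  exact h

theorem cm_orth' {Q : Matrix (Fin 3) (Fin 3) ℝ} (hQ : Q * Qᵀ = 1) : (cm Q)ᵀ * cm Q = 1 :=
  mul_eq_one_comm.mp (cm_orth hQ)

theorem cv_mulVec (Q : Matrix (Fin 3) (Fin 3) ℝ) (n : Fin 3 → ℝ) :
    cv (Q *ᵥ n) = cm Q *ᵥ cv n := by
  funext i
  simp [cv, cm, Matrix.mulVec, dotProduct]

theorem layer_def (n : Fin 3 → ℝ) (θ : ℝ) (A B : Matrix (Fin 3) (Fin 3) ℂ) :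
    layer n θ A B = (θ : ℂ) • A + (1 - θ : ℂ) • B -
    ((θ * (1 - θ) : ℂ) / (cv n ⬝ᵥ (((1 - θ : ℂ) • A + (θ : ℂ) • B) *ᵥ cv n))) •
      vecMulVec ((A - B) *ᵥ cv n) (cv n ᵥ* (A - B)) := rfl

/-- Conjugating a layered material by a real orthogonal matrix. -/
theorem layer_conj {Q : Matrix (Fin 3) (Fin 3) ℝ} (hQ : Q * Qᵀ = 1) (n : Fin 3 → ℝ) (θ : ℝ)
    (A B : Matrix (Fin 3) (Fin 3) ℂ) :
    layer (Q *ᵥ n) θ (cm Q * A * (cm Q)ᵀ) (cm Q * B * (cm Q)ᵀ) =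
      cm Q * layer n θ A B * (cm Q)ᵀ := by
  have h1 := cm_orth hQ
  have h2 := cm_orth' hQ
  rw [layer_def, layer_def, cv_mulVec]
  generalize cm Q = P at h1 h2 ⊢
  generalize cv n = v
  have hC : ∀ C : Matrix (Fin 3) (Fin 3) ℂ, (P * C * Pᵀ) *ᵥ (P *ᵥ v) = P *ᵥ (C *ᵥ v) := by
    intro C
    rw [Matrix.mulVec_mulVec, Matrix.mul_assoc, h2, Matrix.mul_one, ← Matrix.mulVec_mulVec]
  have hD : ∀ C : Matrix (Fin 3) (Fin 3) ℂ, (P *ᵥ v) ᵥ* (P * C * Pᵀ) = (v ᵥ* C) ᵥ* Pᵀ := by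
    intro C
    rw [← Matrix.vecMul_transpose, Matrix.vecMul_vecMul, Matrix.mul_assoc P, ← Matrix.mul_assoc,
      h2, Matrix.one_mul, ← Matrix.vecMul_vecMul]
  have hdot : ∀ w : Fin 3 → ℂ, (P *ᵥ v) ⬝ᵥ (P *ᵥ w) = v ⬝ᵥ w := by
    intro w
    rw [← Matrix.vecMul_transpose, ← Matrix.dotProduct_mulVec, Matrix.mulVec_mulVec, h2,
      Matrix.one_mulVec]
  have e1 : P * A * Pᵀ - P * B * Pᵀ = P * (A - B) * Pᵀ := by
    rw [Matrix.mul_sub, Matrix.sub_mul]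
  have e2 : ∀ s t : ℂ, s • (P * A * Pᵀ) + t • (P * B * Pᵀ) = P * (s • A + t • B) * Pᵀ := by
    intro s t
    rw [Matrix.mul_add, Matrix.add_mul, Matrix.mul_smul, Matrix.mul_smul, Matrix.smul_mul,
      Matrix.smul_mul]
  rw [e1, e2, e2, hC, hC, hdot, hD, Matrix.mul_sub, Matrix.sub_mul, Matrix.mul_smul,
    Matrix.smul_mul, Matrix.mul_vecMulVec, Matrix.vecMulVec_mul]

/-- The class of laminates is closed under conjugation by an orthogonal matrix preserving the set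
of directions. -/
theorem isLaminate_conj {N : Set (Fin 3 → ℝ)} {Q : Matrix (Fin 3) (Fin 3) ℝ} (hQ : Q * Qᵀ = 1)
    (hN : ∀ n ∈ N, Q *ᵥ n ∈ N) {L : CFun} (hL : IsLaminate N L) :
    IsLaminate N (fun σ => cm Q * L σ * (cm Q)ᵀ) := by
  induction hL with
  | phase1 =>
    have : (fun σ : ℂ => cm Q * (σ • (1 : Matrix (Fin 3) (Fin 3) ℂ)) * (cm Q)ᵀ) =
        fun σ => σ • (1 : Matrix (Fin 3) (Fin 3) ℂ) := by
      funext σ
      rw [Matrix.mul_smul, Matrix.mul_one, Matrix.smul_mul, cm_orth hQ]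
    rw [this]
    exact IsLaminate.phase1
  | phase2 =>
    have : (fun _ : ℂ => cm Q * (1 : Matrix (Fin 3) (Fin 3) ℂ) * (cm Q)ᵀ) =
        fun _ => (1 : Matrix (Fin 3) (Fin 3) ℂ) := by
      funext σ
      rw [Matrix.mul_one, cm_orth hQ]
    rw [this]
    exact IsLaminate.phase2
  | @layer n hn θ h0 h1 A B hA hB ihA ihB =>
    have : (fun σ : ℂ => cm Q * layer n θ (A σ) (B σ) * (cm Q)ᵀ) =
        fun σ => layer (Q *ᵥ n) θ (cm Q * A σ * (cm Q)ᵀ) (cm Q * B σ * (cm Q)ᵀ) := by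
      funext σ
      rw [layer_conj hQ]
    rw [this]
    exact IsLaminate.layer (hN n hn) h0 h1 ihA ihB

theorem isLaminate_mono {N N' : Set (Fin 3 → ℝ)} (h : N ⊆ N') {L : CFun} (hL : IsLaminate N L) :
    IsLaminate N' L := by
  induction hL with
  | phase1 => exact IsLaminate.phase1
  | phase2 => exact IsLaminate.phase2
  | layer hn h0 h1 hA hB ihA ihB => exact IsLaminate.layer (h hn) h0 h1 ihA ihB

/-- The action of the layered tensor on a vector: the macroscopic field `e` produces the fields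
`e + (1 - θ) c n` and `e - θ c n` in the two layers. -/
theorem layer_mulVec (n : Fin 3 → ℝ) (θ : ℝ) (A B : Matrix (Fin 3) (Fin 3) ℂ)
    (hden : cv n ⬝ᵥ (((1 - θ : ℂ) • A + (θ : ℂ) • B) *ᵥ cv n) ≠ 0)
    (e : Fin 3 → ℂ) :
    ∃ c : ℂ, cv n ⬝ᵥ (A *ᵥ (e + ((1 - θ : ℂ) * c) • cv n) - B *ᵥ (e - ((θ : ℂ) * c) • cv n)) = 0 ∧
      layer n θ A B *ᵥ e = (θ : ℂ) • (A *ᵥ (e + ((1 - θ : ℂ) * c) • cv n)) +
        (1 - θ : ℂ) • (B *ᵥ (e - ((θ : ℂ) * c) • cv n)) := by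
  rw [layer_def]
  generalize hD : cv n ⬝ᵥ (((1 - θ : ℂ) • A + (θ : ℂ) • B) *ᵥ cv n) = D at hden ⊢
  have hD' : (1 - θ : ℂ) * (cv n ⬝ᵥ (A *ᵥ cv n)) + (θ : ℂ) * (cv n ⬝ᵥ (B *ᵥ cv n)) = D := by
    rw [← hD, Matrix.add_mulVec, Matrix.smul_mulVec, Matrix.smul_mulVec, dotProduct_add,
      dotProduct_smul, dotProduct_smul, smul_eq_mul, smul_eq_mul]
  generalize cv n = v at hD' ⊢
  refine ⟨-(v ⬝ᵥ ((A - B) *ᵥ e)) / D, ?_, ?_⟩
  · generalize hc : -(v ⬝ᵥ ((A - B) *ᵥ e)) / D = c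
    have hc' : c * D = -(v ⬝ᵥ ((A - B) *ᵥ e)) := by
      rw [← hc]; field_simp
    rw [Matrix.mulVec_add, Matrix.mulVec_sub, Matrix.mulVec_smul, Matrix.mulVec_smul,
      dotProduct_sub, dotProduct_add, dotProduct_sub, dotProduct_smul, dotProduct_smul,
      smul_eq_mul, smul_eq_mul]
    rw [Matrix.sub_mulVec, dotProduct_sub, ← hD'] at hc'
    linear_combination hc'
  · rw [Matrix.sub_mulVec, Matrix.add_mulVec, Matrix.smul_mulVec, Matrix.smul_mulVec,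
      Matrix.smul_mulVec, Matrix.vecMulVec_mulVec, ← Matrix.dotProduct_mulVec,
      Matrix.mulVec_add, Matrix.mulVec_sub, Matrix.mulVec_smul, Matrix.mulVec_smul,
      Matrix.sub_mulVec, Matrix.sub_mulVec A B v]
    funext i
    simp only [Pi.add_apply, Pi.sub_apply, Pi.smul_apply, smul_eq_mul, MulOpposite.smul_eq_mul_unop,
      MulOpposite.unop_op]
    field_simp
    ring

/-- the lamination formula is continuous where the denominator does not vanish -/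
theorem layer_continuousAt (n : Fin 3 → ℝ) (θ : ℝ) (A B : Matrix (Fin 3) (Fin 3) ℂ)
    (hden : cv n ⬝ᵥ (((1 - θ : ℂ) • A + (θ : ℂ) • B) *ᵥ cv n) ≠ 0) :
    ContinuousAt (fun p : Matrix (Fin 3) (Fin 3) ℂ × Matrix (Fin 3) (Fin 3) ℂ =>
      layer n θ p.1 p.2) (A, B) := by
  simp only [layer_def]
  have h1 : Continuous (fun p : Matrix (Fin 3) (Fin 3) ℂ × Matrix (Fin 3) (Fin 3) ℂ =>
      (θ : ℂ) • p.1 + (1 - θ : ℂ) • p.2) :=
    (continuous_fst.const_smul (θ : ℂ)).add (continuous_snd.const_smul (1 - θ : ℂ))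
  have h2 : Continuous (fun p : Matrix (Fin 3) (Fin 3) ℂ × Matrix (Fin 3) (Fin 3) ℂ =>
      cv n ⬝ᵥ (((1 - θ : ℂ) • p.1 + (θ : ℂ) • p.2) *ᵥ cv n)) :=
    Continuous.dotProduct continuous_const
      (Continuous.matrix_mulVec ((continuous_fst.const_smul (1 - θ : ℂ)).add
        (continuous_snd.const_smul (θ : ℂ))) continuous_const)
  have h3 : Continuous (fun p : Matrix (Fin 3) (Fin 3) ℂ × Matrix (Fin 3) (Fin 3) ℂ =>
      vecMulVec ((p.1 - p.2) *ᵥ cv n) (cv n ᵥ* (p.1 - p.2))) := by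
    exact Continuous.matrix_vecMulVec
      (Continuous.matrix_mulVec (continuous_fst.sub continuous_snd) continuous_const)
      (Continuous.matrix_vecMul continuous_const (continuous_fst.sub continuous_snd))
  have h4 : ContinuousAt (fun p : Matrix (Fin 3) (Fin 3) ℂ × Matrix (Fin 3) (Fin 3) ℂ =>
      (θ * (1 - θ) : ℂ) / (cv n ⬝ᵥ (((1 - θ : ℂ) • p.1 + (θ : ℂ) • p.2) *ᵥ cv n))) (A, B) :=
    ContinuousAt.div continuousAt_const h2.continuousAt hden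
  have h5 : ContinuousAt (fun p : Matrix (Fin 3) (Fin 3) ℂ × Matrix (Fin 3) (Fin 3) ℂ =>
      ((θ * (1 - θ) : ℂ) / (cv n ⬝ᵥ (((1 - θ : ℂ) • p.1 + (θ : ℂ) • p.2) *ᵥ cv n))) •
        vecMulVec ((p.1 - p.2) *ᵥ cv n) (cv n ᵥ* (p.1 - p.2))) (A, B) :=
    ContinuousAt.smul h4 h3.continuousAt
  exact ContinuousAt.sub h1.continuousAt h5

end W_MP_e98908_an.H58
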