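import Pool.Agent.W_MP_e98908_an_h58.Ops2
import Pool.Agent.W_MP_e98908_an_h58.SlabA

/-!
# MP_e98908_an (helper58) : the fields of a slab structure
-/

namespace W_MP_e98908_an.H58

open MeasureTheory Set Filter Topology Complex UnitAddTorus Matrix

theorem Slab_mF (n : Fin 3 → ℤ) (x : Cell) :
    mFourier n x = ((AddCircle.toCircle (phs n x) : Circle) : ℂ) := by
  show ∏ i, fourier (n i) (x i) = _
  unfold phs
  simp only [fourier_apply, Fin.prod_univ_three, Fin.sum_univ_three, AddCircle.toCircle_add,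
    Circle.coe_mul]

theorem Slab_phs_coe (n : Fin 3 → ℤ) (t : Fin 3 → ℝ) :
    phs n (fun l => ((t l : ℝ) : UnitAddCircle)) = ((∑ l, (n l : ℝ) * t l : ℝ) : UnitAddCircle) := by
  unfold phs
  simp only [Fin.sum_univ_three, AddCircle.coe_add, ← zsmul_eq_mul, AddCircle.coe_zsmul]

/-- the Fourier coefficients of the indicator function of a slab vanish off the line `ℤ m`
(translate by `t` with `m·t = 0`, `k·t = 1/2`) -/
theorem chat_slab (m : Fin 3 → ℤ) (θ : ℝ) (k : Fin 3 → ℤ)
    (h : ∃ i j, k i * m j ≠ k j * m i) : chat (slab m θ) k = 0 := by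
  obtain ⟨i, j, hij⟩ := h
  have hne : i ≠ j := by rintro rfl; exact hij rfl
  set D : ℝ := (k i : ℝ) * m j - k j * m i with hD
  have hD0 : D ≠ 0 := by
    rw [hD, sub_ne_zero]
    exact_mod_cast hij
  set tv : Fin 3 → ℝ := Pi.single i ((m j : ℝ) / (2 * D)) + Pi.single j (-(m i : ℝ) / (2 * D))
    with htv
  set t : Cell := fun l => ((tv l : ℝ) : UnitAddCircle) with ht
  have hsum : ∀ n : Fin 3 → ℤ, (∑ l, (n l : ℝ) * tv l : ℝ) =
      ((n i : ℝ) * m j - n j * m i) / (2 * D) := by
    intro n
    rw [htv]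
    simp only [Pi.add_apply, mul_add, Finset.sum_add_distrib]
    rw [Finset.sum_eq_single i, Finset.sum_eq_single j]
    · rw [Pi.single_eq_same, Pi.single_eq_same]; ring
    · intro l _ hl; rw [Pi.single_eq_of_ne hl, mul_zero]
    · intro h; exact absurd (Finset.mem_univ _) h
    · intro l _ hl; rw [Pi.single_eq_of_ne hl, mul_zero]
    · intro h; exact absurd (Finset.mem_univ _) h
  have h1 : phs m t = 0 := by
    rw [ht, Slab_phs_coe, hsum]
    have : ((m i : ℝ) * m j - m j * m i) / (2 * D) = 0 := by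
      rw [mul_comm (m j : ℝ), sub_self, zero_div]
    rw [this]; rfl
  have h2 : phs (-k) t = ((-(1 / 2) : ℝ) : UnitAddCircle) := by
    rw [ht, Slab_phs_coe, hsum]
    have : (((-k) i : ℤ) : ℝ) * m j - (((-k) j : ℤ) : ℝ) * m i = -D := by
      rw [hD]; push_cast [Pi.neg_apply]; ring
    rw [this]
    have h3 : -D / (2 * D) = (-(1 / 2) : ℝ) := by field_simp
    rw [h3]
  have h3 : ∀ x : Cell, mFourier (-k) (x + t) = - mFourier (-k) x := by
    intro x
    rw [Slab_mF, Slab_mF]
    have h4 : phs (-k) (x + t) = phs (-k) x + phs (-k) t := (phsHom (-k)).map_add x t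
    rw [h4, h2, AddCircle.toCircle_add, Circle.coe_mul, AddCircle.toCircle_apply_mk,
      Circle.coe_exp]
    have h5 : ((2 * Real.pi / 1 * (-(1 / 2)) : ℝ) : ℂ) * I = -(Real.pi * I) := by
      push_cast; ring
    rw [h5, Complex.exp_neg, Complex.exp_pi_mul_I]
    norm_num
  have h4 : ∀ x : Cell, (x + t ∈ slab m θ ↔ x ∈ slab m θ) := by
    intro x
    unfold slab
    rw [mem_preimage, mem_preimage]
    have h5 : phs m (x + t) = phs m x + phs m t := (phsHom m).map_add x t
    rw [h5, h1, add_zero]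
  have h5 : ∀ x : Cell, mFourier (-k) (x + t) * (slab m θ).indicator (fun _ => (1 : ℂ)) (x + t) =
      -(mFourier (-k) x * (slab m θ).indicator (fun _ => (1 : ℂ)) x) := by
    intro x
    rw [h3]
    by_cases hx : x ∈ slab m θ
    · rw [indicator_of_mem hx, indicator_of_mem ((h4 x).mpr hx)]; ring
    · rw [indicator_of_notMem hx, indicator_of_notMem (fun h => hx ((h4 x).mp h))]; ring
  have h6 : chat (slab m θ) k = - chat (slab m θ) k := by
    unfold chat fc
    conv_lhs => rw [← integral_add_right_eq_self _ t]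
    simp_rw [h5]
    rw [integral_neg]
  have h7 : (2 : ℂ) * chat (slab m θ) k = 0 := by linear_combination h6
  simpa using h7

theorem fc_Pm_cst {S : Set Cell} (hS : MeasurableSet S) (a : V3) (i : Fin 3) (n : Fin 3 → ℤ) :
    fc (fun x => Pm hS (cst a) x i) n = chat S n * a i := by
  have h : (fun x => Pm hS (cst a) x i) =ᵐ[cellMeasure]
      fun x => a i * S.indicator (fun _ => (1 : ℂ)) x := by
    filter_upwards [Pm_coe hS (cst a), Wv_coe a 0] with x h1 h2
    rw [h1]
    by_cases hx : x ∈ S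
    · rw [indicator_of_mem hx, indicator_of_mem hx, cst_apply, h2, mFourier_zero]
      simp
    · rw [indicator_of_notMem hx, indicator_of_notMem hx]
      simp
  rw [fc_congr h]
  unfold chat fc
  rw [mul_comm (∫ x, _ ∂cellMeasure) (a i), ← integral_const_mul]
  congr 1
  funext x
  ring

theorem Slab_fc_cst (a : V3) (i : Fin 3) (n : Fin 3 → ℤ) :
    inner ℂ (Wv (EuclideanSpace.single i 1) n) (cst a) = if 0 = n then a i else 0 := by
  rw [cst_apply, inner_WW]
  by_cases h : (0 : Fin 3 → ℤ) = n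
  · rw [if_pos h, if_pos h, PiLp.inner_apply, Finset.sum_eq_single i]
    · simp
    · intro l _ hl
      simp [hl]
    · intro h; exact absurd (Finset.mem_univ _) h
  · rw [if_neg h, if_neg h]

/-- fields normal to the layers and constant in each layer are gradient fields -/
theorem slab_grd {m : Fin 3 → ℤ} (hm : m ≠ 0) {θ : ℝ} (h0 : 0 ≤ θ) (h1 : θ ≤ 1) :
    Pm (measurableSet_slab m θ) (cst (kv b0 m)) - (θ : ℂ) • cst (kv b0 m) ∈ Grd b0 := by
  apply mem_Grd_of_coeff
  intro n
  have key : ∀ i, fc (fun y => (Pm (measurableSet_slab m θ) (cst (kv b0 m)) -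
      (θ : ℂ) • cst (kv b0 m) : Fld) y i) n =
      chat (slab m θ) n * (m i : ℂ) - (θ : ℂ) * (if 0 = n then (m i : ℂ) else 0) := by
    intro i
    rw [← inner_Wsingle, inner_sub_right, inner_smul_right, Slab_fc_cst, inner_Wsingle,
      fc_Pm_cst, kv_b0]
  simp only [key, waveVec_b0]
  by_cases hn : (0 : Fin 3 → ℤ) = n
  · refine ⟨0, fun i => ?_⟩
    subst hn
    rw [if_pos rfl, chat_zero (measurableSet_slab m θ), measure_slab hm h0 h1]
    ring
  · simp only [if_neg hn, mul_zero, sub_zero]
    by_cases hp : ∃ i j, n i * m j ≠ n j * m i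
    · refine ⟨0, fun i => ?_⟩
      rw [chat_slab m θ n hp]
      ring
    · push Not at hp
      obtain ⟨j, hj⟩ : ∃ j, n j ≠ 0 := by
        by_contra h
        push Not at h
        exact hn (funext h).symm
      have hjc : (n j : ℂ) ≠ 0 := by exact_mod_cast hj
      refine ⟨chat (slab m θ) n * (m j : ℂ) / (n j : ℂ), fun i => ?_⟩
      have h2 : (n i : ℂ) * m j = n j * m i := by exact_mod_cast hp i j
      push_cast
      field_simp
      linear_combination (-(chat (slab m θ) n)) * h2

/-- fields parallel to the layers and constant in each layer are divergence free -/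
theorem slab_orth {m : Fin 3 → ℤ} (hm : m ≠ 0) (θ : ℝ) {a : V3} (ha : inner ℂ (kv b0 m) a = 0) :
    Pm (measurableSet_slab m θ) (cst a) ∈ (Grd b0)ᗮ := by
  rw [mem_Grd_orthogonal]
  intro n
  rw [inner_Wv]
  simp only [fc_Pm_cst, kv_b0]
  have ha' : ∑ i, (m i : ℂ) * a i = 0 := by
    rw [← ha, PiLp.inner_apply]
    refine Finset.sum_congr rfl fun i _ => ?_
    rw [RCLike.inner_apply, kv_b0]
    simp [mul_comm]
  by_cases hp : ∃ i j, n i * m j ≠ n j * m i
  · rw [chat_slab m θ n hp]
    simp
  · push Not at hp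
    obtain ⟨j, hj⟩ : ∃ j, m j ≠ 0 := by
      by_contra h
      push Not at h
      exact hm (funext h)
    have hjc : (m j : ℂ) ≠ 0 := by exact_mod_cast hj
    have h3 : (m j : ℂ) * ∑ i, (starRingEnd ℂ) (n i : ℂ) * (chat (slab m θ) n * a i) =
        chat (slab m θ) n * n j * ∑ i, (m i : ℂ) * a i := by
      rw [Finset.mul_sum, Finset.mul_sum]
      refine Finset.sum_congr rfl fun i _ => ?_
      have h2 : (n i : ℂ) * m j = n j * m i := by exact_mod_cast hp i j
      have h4 : (starRingEnd ℂ) (n i : ℂ) = (n i : ℂ) := by simp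
      rw [h4]
      linear_combination (chat (slab m θ) n * a i) * h2
    rw [ha', mul_zero] at h3
    exact (mul_eq_zero.mp h3).resolve_left hjc

end W_MP_e98908_an.H58
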