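import Pool.Agent.W_MP_e98908_an_h58.TwoScale
import Pool.Agent.W_MP_e98908_an_h58.Slab
import Pool.Agent.W_MP_e98908_an_h58.LA

/-!
# MP_e98908_an (helper58) : one step of lamination of periodic composites
-/

namespace W_MP_e98908_an.H58

open MeasureTheory Set Filter Topology Complex UnitAddTorus Matrix

theorem LamStep_congr {S S' : Set Cell} (h : S = S') (hS : MeasurableSet S)
    (hS' : MeasurableSet S') {σ : ℂ} {M : Matrix (Fin 3) (Fin 3) ℂ} (hM : HasET hS σ M) :
    HasET hS' σ M := by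
  subst h; exact hM

theorem LamStep_compl {S : Set Cell} (hS : MeasurableSet S) (e : Fld) :
    Pm hS.compl e = e - Pm hS e := by
  apply Lp.ext
  filter_upwards [Pm_coe hS.compl e, Pm_coe hS e, Lp.coeFn_sub e (Pm hS e)] with x h1 h2 h3
  rw [h1, h3, Pi.sub_apply, h2]
  by_cases hx : x ∈ S
  · rw [indicator_of_mem hx, indicator_of_notMem (by simpa using hx), sub_self]
  · rw [indicator_of_notMem hx, indicator_of_mem (by simpa using hx), sub_zero]

theorem LamStep_kv (m : Fin 3 → ℤ) : kv b0 m = WithLp.toLp 2 (cv fun i => (m i : ℝ)) := by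
  ext i
  rw [kv_b0]
  simp [cv]

theorem LamStep_inner (m : Fin 3 → ℤ) (v : Fin 3 → ℂ) :
    inner ℂ (kv b0 m) (WithLp.toLp 2 v) = cv (fun i => (m i : ℝ)) ⬝ᵥ v := by
  rw [LamStep_kv, PiLp.inner_apply]
  unfold dotProduct
  refine Finset.sum_congr rfl fun i _ => ?_
  simp only [RCLike.inner_apply, cv, Complex.conj_ofReal]
  ring

theorem LamStep_kv_ne {m : Fin 3 → ℤ} (hm : m ≠ 0) : kv b0 m ≠ 0 := by
  intro h
  apply hm
  funext i
  have := congrArg (fun v : V3 => v i) h
  simp only [kv_b0] at this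
  simpa using this

theorem LamStep_den {m : Fin 3 → ℤ} (hm : m ≠ 0) {θ : ℝ} (h0 : 0 ≤ θ) (h1 : θ ≤ 1) {S T : Set Cell}
    (hS : MeasurableSet S) (hT : MeasurableSet T) {x : ℝ} (hx : 0 < x)
    {A B : Matrix (Fin 3) (Fin 3) ℂ} (hA : HasET hS x A) (hB : HasET hT x B) :
    cv (fun i => (m i : ℝ)) ⬝ᵥ (((1 - θ : ℂ) • A + (θ : ℂ) • B) *ᵥ cv (fun i => (m i : ℝ))) ≠ 0 := by
  intro h
  have hA1 := hA.coercive hx (kv b0 m)
  have hB1 := hB.coercive hx (kv b0 m)
  unfold mv at hA1 hB1
  rw [LamStep_inner] at hA1 hB1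
  have e1 : (WithLp.ofLp (kv b0 m) : Fin 3 → ℂ) = cv (fun i => (m i : ℝ)) := by
    rw [LamStep_kv]
  rw [e1] at hA1 hB1
  rw [Matrix.add_mulVec, Matrix.smul_mulVec, Matrix.smul_mulVec, dotProduct_add,
    dotProduct_smul, dotProduct_smul, smul_eq_mul, smul_eq_mul] at h
  have h2 := congrArg Complex.re h
  rw [Complex.add_re, show (1 - θ : ℂ) = ((1 - θ : ℝ) : ℂ) by push_cast; ring,
    Complex.re_ofReal_mul, Complex.re_ofReal_mul, Complex.zero_re] at h2
  have hk : 0 < ‖kv b0 m‖ ^ 2 := by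
    have := norm_pos_iff.2 (LamStep_kv_ne hm)
    positivity
  have hmin : 0 < min x 1 := lt_min hx one_pos
  have h3 := mul_le_mul_of_nonneg_left hA1 (sub_nonneg.2 h1)
  have h4 := mul_le_mul_of_nonneg_left hB1 h0
  have h5 := mul_pos hmin hk
  nlinarith

/-- one step of lamination of periodic composites, at one point `x`: the two-scale composites with
`S` in the slab and `T` in its complement -/
theorem lam_step {m : Fin 3 → ℤ} (hm : m ≠ 0) {θ : ℝ} (h0 : 0 ≤ θ) (h1 : θ ≤ 1) {S T : Set Cell}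
    (hS : MeasurableSet S) (hT : MeasurableSet T) {x : ℝ} (hx : 0 < x)
    {A B : Matrix (Fin 3) (Fin 3) ℂ} (hA : HasET hS x A) (hB : HasET hT x B)
    {U : ℕ → Set Cell} (hU : ∀ N, MeasurableSet (U N))
    (hUe : ∀ N, U N = (slab m θ ∩ nmap N ⁻¹' S) ∪ ((slab m θ)ᶜ ∩ nmap N ⁻¹' T))
    {δ : ℝ} (hδ : 0 < δ) :
    ∀ᶠ N in atTop, ∀ M, HasET (hU N) x M →
      ∀ i j, ‖M i j - layer (fun i => (m i : ℝ)) θ A B i j‖ ≤ δ := by
  have hden := LamStep_den hm h0 h1 hS hT hx hA hB
  set n : Fin 3 → ℝ := fun i => (m i : ℝ) with hn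
  let R : Bool → Set Cell := fun j => _root_.cond j (slab m θ) (slab m θ)ᶜ
  let SS : Bool → Set Cell := fun j => _root_.cond j S T
  let MM : Bool → Matrix (Fin 3) (Fin 3) ℂ := fun j => _root_.cond j A B
  have hR : ∀ j, MeasurableSet (R j) := by
    rintro (_ | _)
    · exact (measurableSet_slab m θ).compl
    · exact measurableSet_slab m θ
  have hSS : ∀ j, MeasurableSet (SS j) := by
    rintro (_ | _)
    · exact hT
    · exact hS
  have hMM : ∀ j, HasET (hSS j) x (MM j) := by
    rintro (_ | _)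
    · exact hB
    · exact hA
  have hdisj : Pairwise (Function.onFun Disjoint R) := by
    rintro (_ | _) (_ | _) hij
    · exact absurd rfl hij
    · exact disjoint_compl_left
    · exact disjoint_compl_right
    · exact absurd rfl hij
  have hcomb : ∀ N, U N = comb R SS N := by
    intro N
    rw [hUe N]
    unfold comb
    ext y
    simp only [mem_union, mem_iUnion, Bool.exists_bool]
    exact or_comm
  have hreal1 : cellMeasure.real (slab m θ) = θ := measure_slab hm h0 h1
  have hreal0 : cellMeasure.real (slab m θ)ᶜ = 1 - θ := by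
    rw [measureReal_compl (measurableSet_slab m θ), hreal1]
    simp
  have key : ∀ k : Fin 3, ∀ᶠ N in atTop, ∀ M, HasET (hU N) x M →
      ∀ i, ‖M i k - layer n θ A B i k‖ ≤ δ := by
    intro k
    obtain ⟨c, hc1, hc2⟩ := layer_mulVec n θ A B hden (WithLp.ofLp (EuclideanSpace.single k (1:ℂ) : V3))
    set a : V3 := EuclideanSpace.single k (1 : ℂ) with ha
    let E1 : V3 := a + ((1 - θ : ℂ) * c) • kv b0 m
    let E0 : V3 := a - ((θ : ℂ) * c) • kv b0 m
    have hE1 : (WithLp.ofLp E1 : Fin 3 → ℂ) = WithLp.ofLp a + ((1 - θ : ℂ) * c) • cv n := by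
      show WithLp.ofLp (a + ((1 - θ : ℂ) * c) • kv b0 m) = _
      rw [LamStep_kv, WithLp.ofLp_add, WithLp.ofLp_smul]
    have hE0 : (WithLp.ofLp E0 : Fin 3 → ℂ) = WithLp.ofLp a - ((θ : ℂ) * c) • cv n := by
      show WithLp.ofLp (a - ((θ : ℂ) * c) • kv b0 m) = _
      rw [LamStep_kv, WithLp.ofLp_sub, WithLp.ofLp_smul]
    let E : Bool → V3 := fun j => _root_.cond j E1 E0
    have hsum : ∀ v : Bool → V3, ∑ j, Pm (hR j) (cst (v j)) =
        Pm (measurableSet_slab m θ) (cst (v true - v false)) + cst (v false) := by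
      intro v
      rw [Fintype.sum_bool]
      have e1 : Pm (hR true) (cst (v true)) = Pm (measurableSet_slab m θ) (cst (v true)) := rfl
      have e2 : Pm (hR false) (cst (v false)) =
          cst (v false) - Pm (measurableSet_slab m θ) (cst (v false)) :=
        LamStep_compl (measurableSet_slab m θ) _
      rw [e1, e2, map_sub, map_sub]
      abel
    have hEg : ∑ j, Pm (hR j) (cst (E j)) - cst a ∈ Grd b0 := by
      have e3 : ∑ j, Pm (hR j) (cst (E j)) - cst a =
          c • (Pm (measurableSet_slab m θ) (cst (kv b0 m)) - (θ : ℂ) • cst (kv b0 m)) := by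
        rw [hsum]
        have e4 : E true - E false = c • kv b0 m := by
          show (a + ((1 - θ : ℂ) * c) • kv b0 m) - (a - ((θ : ℂ) * c) • kv b0 m) = _
          module
        rw [e4]
        have e5 : cst (E false) = cst a - ((θ : ℂ) * c) • cst (kv b0 m) := by
          show cst (a - ((θ : ℂ) * c) • kv b0 m) = _
          rw [map_sub, map_smul]
        rw [e5, map_smul, map_smul]
        module
      rw [e3]
      exact Submodule.smul_mem _ _ (slab_grd hm h0 h1)
    have hJ : Γ (∑ j, Pm (hR j) (cst (mv (MM j) (E j)))) = 0 := by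
      rw [Submodule.starProjection_apply_eq_zero_iff, hsum]
      refine Submodule.add_mem _ (slab_orth hm θ ?_) (cst_orth _)
      have e6 : mv (MM true) (E true) - mv (MM false) (E false) =
          WithLp.toLp 2 (A *ᵥ (WithLp.ofLp a + ((1 - θ : ℂ) * c) • cv n) -
            B *ᵥ (WithLp.ofLp a - ((θ : ℂ) * c) • cv n)) := by
        show mv A E1 - mv B E0 = _
        unfold mv
        rw [hE1, hE0, WithLp.toLp_sub]
      rw [e6, LamStep_inner]
      exact hc1
    have h2 := two_scale hR hSS hdisj hx MM hMM a E hEg hδ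
    filter_upwards [h2] with N hN M hM i
    have h3 := hN M (LamStep_congr (hcomb N) (hU N) _ hM)
    rw [hJ, norm_zero, mul_zero, zero_add] at h3
    have e7 : ∑ j, (cellMeasure.real (R j) : ℂ) • mv (MM j) (E j) = mv (layer n θ A B) a := by
      rw [Fintype.sum_bool]
      show (cellMeasure.real (slab m θ) : ℂ) • mv A E1 +
        (cellMeasure.real (slab m θ)ᶜ : ℂ) • mv B E0 = _
      rw [hreal1, hreal0]
      unfold mv
      rw [hc2, hE1, hE0, WithLp.toLp_add, WithLp.toLp_smul, WithLp.toLp_smul]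
      push_cast
      rfl
    rw [e7] at h3
    have h4 : ‖(mv M a - mv (layer n θ A B) a) i‖ ≤ δ := (PiLp.norm_apply_le _ i).trans h3
    have e8 : (mv M a - mv (layer n θ A B) a) i = M i k - layer n θ A B i k := by
      unfold mv
      simp [ha]
    rwa [e8] at h4
  have h5 : ∀ᶠ N in atTop, ∀ k : Fin 3, ∀ M, HasET (hU N) x M →
      ∀ i, ‖M i k - layer n θ A B i k‖ ≤ δ := eventually_all.2 key
  filter_upwards [h5] with N hN M hM i j
  exact hN j M hM i

end W_MP_e98908_an.H58
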