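import Pool.Agent.W_MP_e98908_an_h58.Ops1

/-!
# MP_e98908_an (helper58) : multiplication of fields by a plane wave
-/

namespace W_MP_e98908_an.H58

open MeasureTheory Set Filter Topology Complex UnitAddTorus

theorem memLp_mulF (m : Fin 3 → ℤ) (e : Fld) :
    MemLp (fun x => mFourier m x • e x) 2 cellMeasure := by
  refine (Lp.memLp e).of_le ?_ (Eventually.of_forall fun x => ?_)
  · exact (mFourier m).continuous.aestronglyMeasurable.smul (Lp.aestronglyMeasurable e)
  · rw [norm_smul]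
    exact mul_le_of_le_one_left (norm_nonneg _) (norm_mF m x)

/-- multiplication by a plane wave, as a function -/
noncomputable def Ops3F (m : Fin 3 → ℤ) (e : Fld) : Fld :=
  (memLp_mulF m e).toLp (fun x => mFourier m x • e x)

theorem Ops3F_coe (m : Fin 3 → ℤ) (e : Fld) :
    Ops3F m e =ᵐ[cellMeasure] fun x => mFourier m x • e x := by
  unfold Ops3F
  exact MemLp.coeFn_toLp _

theorem Ops3F_add (m : Fin 3 → ℤ) (x y : Fld) : Ops3F m (x + y) = Ops3F m x + Ops3F m y := by
  apply Lp.ext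
  filter_upwards [Ops3F_coe m (x + y), Ops3F_coe m x, Ops3F_coe m y, Lp.coeFn_add x y,
    Lp.coeFn_add (Ops3F m x) (Ops3F m y)] with a h1 h2 h3 h4 h5
  rw [h1, h5, Pi.add_apply, h2, h3, h4, Pi.add_apply, smul_add]

theorem Ops3F_smul (m : Fin 3 → ℤ) (c : ℂ) (x : Fld) : Ops3F m (c • x) = c • Ops3F m x := by
  apply Lp.ext
  filter_upwards [Ops3F_coe m (c • x), Ops3F_coe m x, Lp.coeFn_smul c x,
    Lp.coeFn_smul c (Ops3F m x)] with a h1 h2 h4 h5
  rw [h1, h5, Pi.smul_apply, h2, h4, Pi.smul_apply, smul_comm]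

theorem Ops3F_norm (m : Fin 3 → ℤ) (x : Fld) : ‖Ops3F m x‖ ≤ ‖x‖ := by
  apply Lp.norm_le_norm_of_ae_le
  filter_upwards [Ops3F_coe m x] with a h1
  rw [h1, norm_smul]
  exact mul_le_of_le_one_left (norm_nonneg _) (norm_mF m a)

/-- multiplication by `exp(2πi m·x)` -/
noncomputable def mulF (m : Fin 3 → ℤ) : Fld →L[ℂ] Fld :=
  LinearMap.mkContinuous
    { toFun := fun e => (memLp_mulF m e).toLp (fun x => mFourier m x • e x)
      map_add' := Ops3F_add m
      map_smul' := Ops3F_smul m } 1 (by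
        intro x
        rw [one_mul]
        exact Ops3F_norm m x)

theorem mulF_coe (m : Fin 3 → ℤ) (e : Fld) :
    mulF m e =ᵐ[cellMeasure] fun x => mFourier m x • e x := Ops3F_coe m e

theorem norm_mulF_le (m : Fin 3 → ℤ) (e : Fld) : ‖mulF m e‖ ≤ ‖e‖ := Ops3F_norm m e

theorem mulF_Wv (m n : Fin 3 → ℤ) (a : V3) : mulF m (Wv a n) = Wv a (m + n) := by
  apply Lp.ext
  filter_upwards [mulF_coe m (Wv a n), Wv_coe a n, Wv_coe a (m + n)] with x h1 h2 h3
  rw [h1, h2, h3, mFourier_add, mul_smul]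

theorem Pm_mulF {R : Set Cell} (hR : MeasurableSet R) (m : Fin 3 → ℤ) (e : Fld) :
    Pm hR (mulF m e) = mulF m (Pm hR e) := by
  apply Lp.ext
  filter_upwards [Pm_coe hR (mulF m e), mulF_coe m e, mulF_coe m (Pm hR e), Pm_coe hR e]
    with x h1 h2 h3 h4
  rw [h1, h3, h4]
  by_cases hx : x ∈ R
  · rw [indicator_of_mem hx, indicator_of_mem hx, h2]
  · rw [indicator_of_notMem hx, indicator_of_notMem hx, smul_zero]

end W_MP_e98908_an.H58
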