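import Pool.Agent.W_MP_e98908_an_h58.Ops2
import Pool.Agent.W_MP_e98908_an_h58.Ops3
import Pool.Agent.W_MP_e98908_an_h58.Ops4

/-!
# MP_e98908_an (helper58) : separation of scales
-/

namespace W_MP_e98908_an.H58

open MeasureTheory Set Filter Topology Complex UnitAddTorus

theorem LemM_span {H H' : Type*} [NormedAddCommGroup H] [NormedSpace ℂ H]
    [NormedAddCommGroup H'] [NormedSpace ℂ H']
    {A : ℕ → H →L[ℂ] H'} {C : ℝ} (hA : ∀ N e, ‖A N e‖ ≤ C * ‖e‖) {D : Set H}
    (hD : ∀ e ∈ D, Tendsto (fun N => A N e) atTop (𝓝 0)) {e : H}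
    (he : e ∈ (Submodule.span ℂ D).topologicalClosure) :
    Tendsto (fun N => A N e) atTop (𝓝 0) := by
  have hsp : ∀ x ∈ Submodule.span ℂ D, Tendsto (fun N => A N x) atTop (𝓝 0) := by
    intro x hx
    induction hx using Submodule.span_induction with
    | mem x hx => exact hD x hx
    | zero =>
      simp only [map_zero]
      exact tendsto_const_nhds
    | add x y _ _ hx hy =>
      simp only [map_add]
      simpa using hx.add hy
    | smul c x _ hx =>
      simp only [map_smul]
      simpa using hx.const_smul c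
  rw [Metric.tendsto_atTop]
  intro ε hε
  have hC : 0 < |C| + 1 := by positivity
  have he' : e ∈ closure (Submodule.span ℂ D : Set H) := he
  obtain ⟨x, hx, hd⟩ := Metric.mem_closure_iff.1 he' (ε / (2 * (|C| + 1))) (by positivity)
  obtain ⟨N0, hN0⟩ := (Metric.tendsto_atTop.1 (hsp x hx)) (ε / 2) (by positivity)
  refine ⟨N0, fun N hN => ?_⟩
  have h1 := hN0 N hN
  rw [dist_zero_right] at h1 ⊢
  have h2 : A N e = A N (e - x) + A N x := by rw [← map_add, sub_add_cancel]
  rw [h2]
  have h3 : ‖A N (e - x)‖ ≤ (|C| + 1) * ‖e - x‖ := by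
    refine (hA N (e - x)).trans (mul_le_mul_of_nonneg_right ?_ (norm_nonneg _))
    have := le_abs_self C
    linarith
  rw [dist_eq_norm] at hd
  have h4 : (|C| + 1) * ‖e - x‖ < (|C| + 1) * (ε / (2 * (|C| + 1))) :=
    mul_lt_mul_of_pos_left hd hC
  have h5 : (|C| + 1) * (ε / (2 * (|C| + 1))) = ε / 2 := by
    field_simp
  have h6 := norm_add_le (A N (e - x)) (A N x)
  linarith

/-- bounded families of operators converging to zero on a set converge to zero on its closed span -/
theorem tendsto_of_span {H : Type*} [NormedAddCommGroup H] [NormedSpace ℂ H]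
    {A : ℕ → H →L[ℂ] H} {C : ℝ} (hA : ∀ N e, ‖A N e‖ ≤ C * ‖e‖) {D : Set H}
    (hD : ∀ e ∈ D, Tendsto (fun N => A N e) atTop (𝓝 0)) {e : H}
    (he : e ∈ (Submodule.span ℂ D).topologicalClosure) :
    Tendsto (fun N => A N e) atTop (𝓝 0) := by
  exact LemM_span hA hD he

theorem LemM_closure {D : Set Fld} {e : Fld}
    (h : ∀ x : Fld, (∀ w ∈ D, inner ℂ w x = 0) → inner ℂ x e = 0) :
    e ∈ (Submodule.span ℂ D).topologicalClosure := by
  have hc : CompleteSpace ((Submodule.span ℂ D).topologicalClosure) := inferInstance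
  rw [← Submodule.orthogonal_orthogonal ((Submodule.span ℂ D).topologicalClosure),
    Submodule.orthogonal_closure, Submodule.mem_orthogonal]
  intro x hx
  apply h
  intro w hw
  exact (Submodule.mem_orthogonal _ _).1 hx w (Submodule.subset_span hw)

theorem LemM_dense (e : Fld) :
    e ∈ (Submodule.span ℂ {w : Fld | ∃ (a : V3) (n : Fin 3 → ℤ), w = Wv a n}).topologicalClosure := by
  apply LemM_closure
  intro x hx
  have h0 : x = 0 := by
    apply eq_zero_of_coeff
    intro n i
    rw [← inner_Wsingle]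
    exact hx _ ⟨_, _, rfl⟩
  rw [h0, inner_zero_left]

theorem LemM_dense0 {e : Fld} (h0 : mean e = 0) :
    e ∈ (Submodule.span ℂ {w : Fld | ∃ (a : V3) (n : Fin 3 → ℤ), n ≠ 0 ∧
      w = Wv a n}).topologicalClosure := by
  apply LemM_closure
  intro x hx
  have h1 : x - cst (mean x) = 0 := by
    apply eq_zero_of_coeff
    intro n i
    rw [← inner_Wsingle, inner_sub_right, cst_apply, inner_WW]
    by_cases hn : n = 0
    · subst hn
      rw [if_pos rfl, inner_Wsingle, EuclideanSpace.inner_single_left, mean_apply]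
      simp
    · rw [if_neg (Ne.symm hn), sub_zero]
      exact hx _ ⟨_, _, hn, rfl⟩
  have h2 : x = cst (mean x) := sub_eq_zero.1 h1
  rw [h2, inner_cst, h0, inner_zero_right]

theorem LemM_ne {n : Fin 3 → ℤ} (hn : n ≠ 0) (k : Fin 3 → ℤ) :
    ∀ᶠ N : ℕ in atTop, k ≠ (N + 1 : ℤ) • n := by
  obtain ⟨i, hi⟩ := Function.ne_iff.1 hn
  have hi' : n i ≠ 0 := hi
  filter_upwards [eventually_ge_atTop (k i).natAbs] with N hN heq
  have h1 := congrFun heq i
  rw [Pi.smul_apply, smul_eq_mul] at h1
  have h2 : (k i).natAbs = (N + 1) * (n i).natAbs := by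
    rw [h1, Int.natAbs_mul]
    congr 1
  have h3 : 1 ≤ (n i).natAbs := Int.natAbs_pos.2 hi'
  nlinarith

theorem LemM_kv_add (m k : Fin 3 → ℤ) : kv b0 (m + k) = kv b0 m + kv b0 k := by
  ext i
  rw [PiLp.add_apply, kv_b0, kv_b0, kv_b0, Pi.add_apply]
  push_cast
  ring

theorem LemM_kv_smul (N : ℕ) (n : Fin 3 → ℤ) :
    kv b0 ((N + 1 : ℤ) • n) = (N + 1 : ℂ) • kv b0 n := by
  ext i
  rw [PiLp.smul_apply, kv_b0, kv_b0, Pi.smul_apply, smul_eq_mul, smul_eq_mul]
  push_cast
  ring

theorem LemM_norm_kv (m : Fin 3 → ℤ) (i : Fin 3) : |(m i : ℝ)| ≤ ‖kv b0 m‖ := by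
  have h := PiLp.norm_apply_le (kv b0 m) i
  rw [kv_b0] at h
  have h2 : ‖((m i : ℤ) : ℂ)‖ = |(m i : ℝ)| := Complex.norm_intCast _
  rwa [h2] at h

theorem LemM_kv_tendsto {n : Fin 3 → ℤ} (hn : n ≠ 0) (k : Fin 3 → ℤ) :
    Tendsto (fun N : ℕ => ‖kv b0 ((N + 1 : ℤ) • n + k)‖) atTop atTop := by
  obtain ⟨i, hi⟩ := Function.ne_iff.1 hn
  have hi' : n i ≠ 0 := hi
  have h1 : ∀ N : ℕ, (N : ℝ) + (1 - |(k i : ℝ)|) ≤ ‖kv b0 ((N + 1 : ℤ) • n + k)‖ := by
    intro N
    refine le_trans ?_ (LemM_norm_kv _ i)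
    rw [Pi.add_apply, Pi.smul_apply, smul_eq_mul]
    push_cast
    have h2 : (1 : ℝ) ≤ |(n i : ℝ)| := by
      have h3 : 1 ≤ |n i| := Int.one_le_abs hi'
      exact_mod_cast h3
    have h4 : |((N : ℝ) + 1) * n i| - |(k i : ℝ)| ≤ |((N : ℝ) + 1) * n i + k i| := by
      have h5 := abs_sub_abs_le_abs_sub (((N : ℝ) + 1) * n i) (-(k i : ℝ))
      rwa [abs_neg, sub_neg_eq_add] at h5
    have h6 : (N : ℝ) + 1 ≤ |((N : ℝ) + 1) * n i| := by
      rw [abs_mul, abs_of_nonneg (by positivity : (0 : ℝ) ≤ (N : ℝ) + 1)]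
      exact le_mul_of_one_le_right (by positivity) h2
    linarith
  refine tendsto_atTop_mono h1 ?_
  exact tendsto_atTop_add_const_right _ _ tendsto_natCast_atTop_atTop

theorem LemM_Pm_norm {R : Set Cell} (hR : MeasurableSet R) (x : Fld) : ‖Pm hR x‖ ≤ ‖x‖ :=
  PF_norm hR x

theorem LemM_Γ_norm (x : Fld) : ‖Γ x‖ ≤ ‖x‖ :=
  Submodule.norm_starProjection_apply_le _ x

theorem LemM_shift {R : Set Cell} (hR : MeasurableSet R) (N : ℕ) (a : V3) (n : Fin 3 → ℤ) :
    Pm hR (dil N (Wv a n)) = mulF ((N + 1 : ℤ) • n) (Pm hR (cst a)) := by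
  rw [dil_Wv, ← Pm_mulF, cst_apply, mulF_Wv, add_zero]

/-- rapidly oscillating fields of mean zero tend weakly to zero -/
theorem lemW (h : Fld) {e : Fld} (h0 : mean e = 0) :
    Tendsto (fun N => inner ℂ h (dil N e)) atTop (𝓝 0) := by
  have key : Tendsto (fun N => ((innerSL ℂ h).comp (dil N)) e) atTop (𝓝 0) := by
    refine LemM_span (C := ‖h‖) ?_ ?_ (LemM_dense0 h0)
    · intro N e
      rw [ContinuousLinearMap.comp_apply, innerSL_apply_apply]
      refine (norm_inner_le_norm h (dil N e)).trans ?_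
      rw [norm_dil]
    · rintro w ⟨c, n, hn, rfl⟩
      have h1 : Tendsto (fun N : ℕ => (innerSL ℂ (Wv c ((N + 1 : ℤ) • n))) h) atTop (𝓝 0) := by
        refine LemM_span (A := fun N : ℕ => innerSL ℂ (Wv c ((N + 1 : ℤ) • n))) (C := ‖c‖) ?_ ?_ (LemM_dense h)
        · intro N e
          rw [innerSL_apply_apply]
          refine (norm_inner_le_norm _ e).trans ?_
          rw [norm_Wv]
        · rintro w ⟨a, k, rfl⟩
          refine tendsto_const_nhds.congr' ?_
          filter_upwards [LemM_ne hn k] with N hN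
          rw [innerSL_apply_apply, inner_WW, if_neg hN]
      have h2 := (Complex.continuous_conj.tendsto 0).comp h1
      rw [map_zero] at h2
      refine h2.congr fun N => ?_
      rw [Function.comp_apply, innerSL_apply_apply, inner_conj_symm,
        ContinuousLinearMap.comp_apply, innerSL_apply_apply, dil_Wv]
  refine key.congr fun N => ?_
  rw [ContinuousLinearMap.comp_apply, innerSL_apply_apply]

/-- localised rapidly oscillating divergence free fields of mean zero are almost divergence free -/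
theorem lemM_orth {R : Set Cell} (hR : MeasurableSet R) {e : Fld} (he : e ∈ (Grd b0)ᗮ)
    (h0 : mean e = 0) : Tendsto (fun N => Γ (Pm hR (dil N e))) atTop (𝓝 0) := by
  have key : Tendsto (fun N => (Γ.comp ((Pm hR).comp (dil N))) e) atTop (𝓝 0) := by
    refine tendsto_of_span (C := 1) ?_ ?_ (orth_mean_zero_mem he h0)
    · intro N e
      rw [one_mul]
      exact (LemM_Γ_norm _).trans ((LemM_Pm_norm hR _).trans (norm_dil N e).le)
    · rintro w ⟨a, n, hn, hna, rfl⟩
      have h1 : Tendsto (fun N : ℕ => (Γ.comp (mulF ((N + 1 : ℤ) • n))) (Pm hR (cst a))) atTop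
          (𝓝 0) := by
        refine tendsto_of_span (C := 1) ?_ ?_ (Pm_cst_mem hR a)
        · intro N e
          rw [one_mul]
          exact (LemM_Γ_norm _).trans (norm_mulF_le _ e)
        · rintro w ⟨k, rfl⟩
          have h3 : Tendsto (fun N : ℕ => ‖inner ℂ (kv b0 k) a‖ /
              ‖kv b0 ((N + 1 : ℤ) • n + k)‖) atTop (𝓝 0) :=
            (LemM_kv_tendsto hn k).const_div_atTop _
          refine squeeze_zero_norm (fun N => ?_) h3
          rw [ContinuousLinearMap.comp_apply, mulF_Wv, Γ_Wv]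
          have h4 : inner ℂ (kv b0 ((N + 1 : ℤ) • n + k)) a = inner ℂ (kv b0 k) a := by
            rw [LemM_kv_add, LemM_kv_smul, inner_add_left, inner_smul_left, hna, mul_zero,
              zero_add]
          rw [h4, norm_smul, norm_Wv, norm_div, norm_pow, Complex.norm_real, norm_norm]
          by_cases h5 : ‖kv b0 ((N + 1 : ℤ) • n + k)‖ = 0
          · rw [h5]
            simp
          · rw [div_mul_eq_mul_div, pow_two, mul_div_mul_right _ _ h5]
      refine h1.congr fun N => ?_
      rw [ContinuousLinearMap.comp_apply, ContinuousLinearMap.comp_apply,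
        ContinuousLinearMap.comp_apply, LemM_shift]
  exact key

/-- localised rapidly oscillating gradient fields are almost gradient fields -/
theorem lemM_grd {R : Set Cell} (hR : MeasurableSet R) {e : Fld} (he : e ∈ Grd b0) :
    Tendsto (fun N => Pm hR (dil N e) - Γ (Pm hR (dil N e))) atTop (𝓝 0) := by
  have hT : ∀ x : Fld, ‖(ContinuousLinearMap.id ℂ Fld - Γ) x‖ ≤ 2 * ‖x‖ := by
    intro x
    rw [sub_apply, ContinuousLinearMap.id_apply]
    have h1 := norm_sub_le x (Γ x)
    have h2 := LemM_Γ_norm x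
    linarith
  have key : Tendsto (fun N => ((ContinuousLinearMap.id ℂ Fld - Γ).comp
      ((Pm hR).comp (dil N))) e) atTop (𝓝 0) := by
    have he' : e ∈ (Submodule.span ℂ (range fun n => Wv (kv b0 n) n)).topologicalClosure := he
    refine tendsto_of_span (C := 2) ?_ ?_ he'
    · intro N e
      refine (hT _).trans (mul_le_mul_of_nonneg_left ?_ (by norm_num))
      exact (LemM_Pm_norm hR _).trans (norm_dil N e).le
    · rintro w ⟨n, rfl⟩
      by_cases hn : n = 0
      · subst hn
        have h1 : Wv (kv b0 0) 0 = 0 := by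
          rw [kv_zero, ← cst_apply, map_zero]
        simp only [h1, map_zero]
        exact tendsto_const_nhds
      · have h1 : Tendsto (fun N : ℕ => ((ContinuousLinearMap.id ℂ Fld - Γ).comp
            (mulF ((N + 1 : ℤ) • n))) (Pm hR (cst (kv b0 n)))) atTop (𝓝 0) := by
          refine tendsto_of_span (C := 2) ?_ ?_ (Pm_cst_mem hR (kv b0 n))
          · intro N e
            exact (hT _).trans (mul_le_mul_of_nonneg_left (norm_mulF_le _ e) (by norm_num))
          · rintro w ⟨k, rfl⟩
            have h3 : Tendsto (fun N : ℕ => (2 * ‖kv b0 k‖) / ((N : ℝ) + 1)) atTop (𝓝 0) :=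
              (tendsto_atTop_add_const_right _ _ tendsto_natCast_atTop_atTop).const_div_atTop _
            refine squeeze_zero_norm (fun N => ?_) h3
            have hN : (0 : ℝ) < (N : ℝ) + 1 := by positivity
            rw [ContinuousLinearMap.comp_apply, mulF_Wv]
            obtain ⟨m, hm⟩ : ∃ m, (N + 1 : ℤ) • n + k = m := ⟨_, rfl⟩
            rw [hm]
            have h4 : ((N : ℂ) + 1) • kv b0 n = kv b0 m + (-1 : ℂ) • kv b0 k := by
              rw [← hm, LemM_kv_add, LemM_kv_smul, neg_smul, one_smul]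
              abel
            have h5 : (ContinuousLinearMap.id ℂ Fld - Γ) (Wv (kv b0 m) m) = 0 := by
              rw [sub_apply, ContinuousLinearMap.id_apply, sub_eq_zero]
              exact (Submodule.starProjection_eq_self_iff.2 (Wv_mem b0 m)).symm
            have h6 : ((N : ℂ) + 1) • (ContinuousLinearMap.id ℂ Fld - Γ) (Wv (kv b0 n) m) =
                (-1 : ℂ) • (ContinuousLinearMap.id ℂ Fld - Γ) (Wv (kv b0 k) m) := by
              rw [← map_smul, ← Wv_smul, h4, Wv_add, map_add, h5, zero_add, Wv_smul, map_smul]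
            have h7 := congrArg norm h6
            rw [norm_smul, norm_smul, norm_neg, norm_one, one_mul] at h7
            have h8 : ‖(N : ℂ) + 1‖ = (N : ℝ) + 1 := by
              have h9 : (N : ℂ) + 1 = (((N : ℝ) + 1 : ℝ) : ℂ) := by push_cast; rfl
              rw [h9, Complex.norm_real, Real.norm_of_nonneg hN.le]
            rw [h8] at h7
            rw [le_div_iff₀ hN, mul_comm, h7]
            refine (hT _).trans ?_
            rw [norm_Wv]
        refine h1.congr fun N => ?_
        rw [ContinuousLinearMap.comp_apply, ContinuousLinearMap.comp_apply,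
          ContinuousLinearMap.comp_apply, LemM_shift]
  exact key

end W_MP_e98908_an.H58
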