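import Pool.Agent.W_MP_e98908_an_h3.Trace

/-!
# MP_e98908_an (helper58) : constant fields and mean values
-/

namespace W_MP_e98908_an.H58

open MeasureTheory Set Filter Topology Complex UnitAddTorus

/-- the cubic lattice -/
noncomputable abbrev b0 : Module.Basis (Fin 3) ℝ (Fin 3 → ℝ) := Pi.basisFun ℝ (Fin 3)

theorem waveVec_b0 (n : Fin 3 → ℤ) (i : Fin 3) : waveVec b0 n i = n i := by
  unfold waveVec b0
  rw [Finset.sum_apply, Finset.sum_eq_single i]
  · simp
  · intro j _ hj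
    simp [Pi.single_apply, Ne.symm hj]
  · simp

theorem kv_b0 (n : Fin 3 → ℤ) (i : Fin 3) : kv b0 n i = (n i : ℂ) := by
  show ((waveVec b0 n i : ℝ) : ℂ) = (n i : ℂ)
  rw [waveVec_b0]
  push_cast
  rfl

/-- the projection onto gradient fields -/
noncomputable abbrev Γ : Fld →L[ℂ] Fld := (Grd b0).starProjection

theorem Wv_add (a c : V3) (n : Fin 3 → ℤ) : Wv (a + c) n = Wv a n + Wv c n := by
  apply Lp.ext
  filter_upwards [Wv_coe (a + c) n, Wv_coe a n, Wv_coe c n, Lp.coeFn_add (Wv a n) (Wv c n)]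
    with x h1 h2 h3 h4
  rw [h1, h4, Pi.add_apply, h2, h3, smul_add]

theorem norm_Wv (a : V3) (n : Fin 3 → ℤ) : ‖Wv a n‖ = ‖a‖ := by
  have h1 : inner ℂ (Wv a n) (Wv a n) = inner ℂ a a := by
    rw [inner_WW, if_pos rfl]
  rw [inner_self_eq_norm_sq_to_K, inner_self_eq_norm_sq_to_K] at h1
  have h2 : ((‖Wv a n‖ ^ 2 : ℝ) : ℂ) = ((‖a‖ ^ 2 : ℝ) : ℂ) := by push_cast; exact h1
  have h3 : ‖Wv a n‖ ^ 2 = ‖a‖ ^ 2 := by exact_mod_cast h2
  exact (sq_eq_sq₀ (norm_nonneg _) (norm_nonneg _)).1 h3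

/-- constant fields -/
noncomputable def cst : V3 →L[ℂ] Fld :=
  LinearMap.mkContinuous
    { toFun := fun a => Wv a 0
      map_add' := fun a c => Wv_add a c 0
      map_smul' := fun c a => Wv_smul c a 0 } 1 (fun a => by
        show ‖Wv a 0‖ ≤ 1 * ‖a‖
        rw [norm_Wv, one_mul])

theorem cst_apply (a : V3) : cst a = Wv a 0 := rfl

theorem norm_cst (a : V3) : ‖cst a‖ = ‖a‖ := norm_Wv a 0

theorem Ops1_inner (a : V3) (e : Fld) :
    inner ℂ (cst a) e = inner ℂ a (WithLp.toLp 2 (fun i => fc (fun x => e x i) 0) : V3) := by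
  rw [cst_apply, inner_Wv, PiLp.inner_apply]
  refine Finset.sum_congr rfl fun i _ => ?_
  simp only [RCLike.inner_apply]
  ring

theorem Ops1_norm (e : Fld) :
    ‖(WithLp.toLp 2 (fun i => fc (fun x => e x i) 0) : V3)‖ ≤ ‖e‖ := by
  set z : V3 := WithLp.toLp 2 (fun i => fc (fun x => e x i) 0) with hz
  have h1 : inner ℂ (cst z) e = inner ℂ z z := by
    rw [Ops1_inner, ← hz]
  have h2 : ‖inner ℂ z z‖ = ‖z‖ ^ 2 := by
    rw [inner_self_eq_norm_sq_to_K, norm_pow]
    simp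
  have h3 : ‖inner ℂ (cst z) e‖ ≤ ‖z‖ * ‖e‖ := by
    have h4 := norm_inner_le_norm (𝕜 := ℂ) (cst z) e
    rwa [norm_cst] at h4
  rw [h1, h2] at h3
  rcases eq_or_lt_of_le (norm_nonneg z) with h0 | h0
  · rw [← h0]; exact norm_nonneg e
  · rw [pow_two] at h3
    exact le_of_mul_le_mul_left h3 h0

/-- the mean value of a field -/
noncomputable def mean : Fld →L[ℂ] V3 :=
  LinearMap.mkContinuous
    { toFun := fun e => WithLp.toLp 2 fun i => fc (fun x => e x i) 0
      map_add' := by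
        intro e f
        ext i
        show fc (fun x => (e + f : Fld) x i) 0 = fc (fun x => e x i) 0 + fc (fun x => f x i) 0
        rw [← inner_Wsingle, ← inner_Wsingle, ← inner_Wsingle, inner_add_right]
      map_smul' := by
        intro c e
        ext i
        show fc (fun x => (c • e : Fld) x i) 0 = c • fc (fun x => e x i) 0
        rw [← inner_Wsingle, ← inner_Wsingle, inner_smul_right, smul_eq_mul] } 1 (by
        intro e
        rw [one_mul]
        exact Ops1_norm e)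

theorem mean_apply (e : Fld) (i : Fin 3) : mean e i = fc (fun x => e x i) 0 := rfl

theorem norm_mean_le (e : Fld) : ‖mean e‖ ≤ ‖e‖ := Ops1_norm e

theorem mean_cst (a : V3) : mean (cst a) = a := by
  ext i
  rw [mean_apply, cst_apply, fc_Wv, if_pos rfl]

theorem mean_Wv (a : V3) {n : Fin 3 → ℤ} (hn : n ≠ 0) : mean (Wv a n) = 0 := by
  ext i
  rw [mean_apply, fc_Wv, if_neg hn]
  rfl

theorem inner_cst (a : V3) (e : Fld) : inner ℂ (cst a) e = inner ℂ a (mean e) :=
  Ops1_inner a e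

theorem mean_of_mem {e : Fld} (he : e ∈ Grd b0) : mean e = 0 := by
  ext i
  obtain ⟨c, hc⟩ := Grd_coeff b0 he 0
  rw [mean_apply, hc i, waveVec_b0]
  simp

theorem cst_orth (a : V3) : cst a ∈ (Grd b0)ᗮ := by
  rw [mem_Grd_orthogonal]
  intro n
  rw [cst_apply, inner_WW]
  by_cases h : (0 : Fin 3 → ℤ) = n
  · subst h; simp [kv_zero]
  · simp [h]

theorem Γ_cst (a : V3) : Γ (cst a) = 0 :=
  (Submodule.starProjection_apply_eq_zero_iff _).2 (cst_orth a)

end W_MP_e98908_an.H58
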