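import Pool.Agent.W_MP_e98908_an_h58.OrthA

/-!
# MP_e98908_an (helper58) : laminates in mutually orthogonal directions, the leaf fields
-/

namespace W_MP_e98908_an.H58

open Matrix Complex

/-- Leaf data of a laminate `L` in the directions `v i`: `ι` is the set of leaves, `w` the weights,
`χ` the phase (`1` for phase 1), `W i` the (linear space of) mean free gradient fields in the
direction `v i`, `D i` the projection of `χ` onto `W i`, `E x i` the field in the direction `v i`
when the conductivity of phase 1 is `x`, and `l x i` the effective conductivity. -/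
structure OrthData (v : Fin 3 → Fin 3 → ℝ) (L : CFun) where
  ι : Type
  [fin : Fintype ι]
  w : ι → ℝ
  χ : ι → ℝ
  f : ℝ
  W : Fin 3 → Submodule ℝ (ι → ℝ)
  D : Fin 3 → ι → ℝ
  E : ℝ → Fin 3 → ι → ℝ
  l : ℝ → Fin 3 → ℝ
  w_nonneg : ∀ a, 0 ≤ w a
  w_sum : ∑ a, w a = 1
  χ_val : ∀ a, χ a = 0 ∨ χ a = 1
  χ_mean : ∑ a, w a * χ a = f
  W_mean : ∀ i, ∀ φ ∈ W i, ∑ a, w a * φ a = 0
  D_mem : ∀ i, D i ∈ W i
  D_proj : ∀ i, ∀ φ ∈ W i, ∑ a, w a * (φ a * (χ a - D i a)) = 0
  D_sum : ∀ a, ∑ i, D i a = χ a - f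
  E_pos : ∀ x, 0 < x → ∀ i a, 0 < E x i a
  E_mem : ∀ x, 0 < x → ∀ i, (fun a => E x i a - 1) ∈ W i
  E_orth : ∀ x, 0 < x → ∀ i, ∀ φ ∈ W i, ∑ a, w a * ((1 + (x - 1) * χ a) * E x i a * φ a) = 0
  l_pos : ∀ x, 0 < x → ∀ i, 0 < l x i
  l_eq : ∀ x, 0 < x → ∀ i, ∑ a, w a * ((1 + (x - 1) * χ a) * E x i a) = l x i
  L_eq : ∀ x : ℝ, 0 < x → L x = diagT v (l x)


attribute [local instance] OrthData.fin

section Aux

variable {v : Fin 3 → Fin 3 → ℝ} {L : CFun}

theorem Orth_mean (d : OrthData v L) {i : Fin 3} {φ : d.ι → ℝ} {α : ℝ}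
    (h : (fun a => φ a - α) ∈ d.W i) : ∑ a, d.w a * φ a = α := by
  have h1 := d.W_mean i _ h
  have h2 : ∑ a, d.w a * (φ a - α) = ∑ a, d.w a * φ a - (∑ a, d.w a) * α := by
    rw [Finset.sum_mul, ← Finset.sum_sub_distrib]
    exact Finset.sum_congr rfl fun a _ => by ring
  rw [h2, d.w_sum] at h1
  linarith

theorem Orth_proj (d : OrthData v L) {i : Fin 3} {φ : d.ι → ℝ} {α : ℝ} (c : ℝ)
    (h : (fun a => φ a - α) ∈ d.W i) :
    ∑ a, d.w a * (φ a * (d.χ a - (d.D i a + c))) = α * (d.f - c) := by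
  have h1 := d.D_proj i _ h
  have h2 := d.W_mean i _ h
  have h3 := d.W_mean i _ (d.D_mem i)
  have h4 : ∑ a, d.w a * (φ a * (d.χ a - (d.D i a + c))) =
      ∑ a, d.w a * ((φ a - α) * (d.χ a - d.D i a)) - (∑ a, d.w a * (φ a - α)) * c +
      ((∑ a, d.w a * d.χ a) - (∑ a, d.w a * d.D i a) - (∑ a, d.w a) * c) * α := by
    rw [Finset.sum_mul, Finset.sum_mul, ← Finset.sum_sub_distrib, ← Finset.sum_sub_distrib,
      ← Finset.sum_sub_distrib, Finset.sum_mul, ← Finset.sum_add_distrib]
    exact Finset.sum_congr rfl fun a _ => by ring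
  rw [h4, h1, h2, h3, d.χ_mean, d.w_sum]
  ring

theorem Orth_orth (d : OrthData v L) {i : Fin 3} {φ : d.ι → ℝ} {α : ℝ} {x : ℝ} (hx : 0 < x)
    (c : ℝ) (h : (fun a => φ a - α) ∈ d.W i) :
    ∑ a, d.w a * ((1 + (x - 1) * d.χ a) * (c * d.E x i a) * φ a) = c * α * d.l x i := by
  have h1 := d.E_orth x hx i _ h
  have h2 := d.l_eq x hx i
  have h4 : ∑ a, d.w a * ((1 + (x - 1) * d.χ a) * (c * d.E x i a) * φ a) =
      (∑ a, d.w a * ((1 + (x - 1) * d.χ a) * d.E x i a * (φ a - α))) * c +
      (∑ a, d.w a * ((1 + (x - 1) * d.χ a) * d.E x i a)) * (c * α) := by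
    rw [Finset.sum_mul, Finset.sum_mul, ← Finset.sum_add_distrib]
    exact Finset.sum_congr rfl fun a _ => by ring
  rw [h4, h1, h2]
  ring

theorem Orth_leq (d : OrthData v L) {i : Fin 3} {x : ℝ} (hx : 0 < x) (c : ℝ) :
    ∑ a, d.w a * ((1 + (x - 1) * d.χ a) * (c * d.E x i a)) = c * d.l x i := by
  rw [← d.l_eq x hx i, Finset.mul_sum]
  exact Finset.sum_congr rfl fun a _ => by ring

/-- the mean free gradient fields of the layered material -/
def Orth_W {κ κ' : Type} (WA : Submodule ℝ (κ → ℝ)) (WB : Submodule ℝ (κ' → ℝ)) (θ : ℝ)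
    (p : Prop) : Submodule ℝ (κ ⊕ κ' → ℝ) where
  carrier := {φ | ∃ α β : ℝ, θ * α + (1 - θ) * β = 0 ∧ (¬ p → α = 0 ∧ β = 0) ∧
    (fun a => φ (Sum.inl a) - α) ∈ WA ∧ (fun b => φ (Sum.inr b) - β) ∈ WB}
  zero_mem' := by
    refine ⟨0, 0, by ring, fun _ => ⟨rfl, rfl⟩, ?_, ?_⟩
    · have h : (fun a : κ => (0 : κ ⊕ κ' → ℝ) (Sum.inl a) - 0) = 0 := by
        funext a
        simp
      rw [h]
      exact WA.zero_mem
    · have h : (fun b : κ' => (0 : κ ⊕ κ' → ℝ) (Sum.inr b) - 0) = 0 := by
        funext a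
        simp
      rw [h]
      exact WB.zero_mem
  add_mem' := by
    rintro φ ψ ⟨α, β, h1, h2, h3, h4⟩ ⟨α', β', h1', h2', h3', h4'⟩
    refine ⟨α + α', β + β', by linear_combination h1 + h1', fun hp => ?_, ?_, ?_⟩
    · rw [(h2 hp).1, (h2 hp).2, (h2' hp).1, (h2' hp).2]
      simp
    · have h : (fun a : κ => (φ + ψ) (Sum.inl a) - (α + α')) =
          (fun a => φ (Sum.inl a) - α) + (fun a => ψ (Sum.inl a) - α') := by
        funext a
        simp only [Pi.add_apply]
        ring
      rw [h]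
      exact WA.add_mem h3 h3'
    · have h : (fun a : κ' => (φ + ψ) (Sum.inr a) - (β + β')) =
          (fun a => φ (Sum.inr a) - β) + (fun a => ψ (Sum.inr a) - β') := by
        funext a
        simp only [Pi.add_apply]
        ring
      rw [h]
      exact WB.add_mem h4 h4'
  smul_mem' := by
    rintro c φ ⟨α, β, h1, h2, h3, h4⟩
    refine ⟨c * α, c * β, by linear_combination c * h1, fun hp => ?_, ?_, ?_⟩
    · rw [(h2 hp).1, (h2 hp).2]
      simp
    · have h : (fun a : κ => (c • φ) (Sum.inl a) - c * α) =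
          c • (fun a => φ (Sum.inl a) - α) := by
        funext a
        simp only [Pi.smul_apply, smul_eq_mul]
        ring
      rw [h]
      exact WA.smul_mem c h3
    · have h : (fun a : κ' => (c • φ) (Sum.inr a) - c * β) =
          c • (fun a => φ (Sum.inr a) - β) := by
        funext a
        simp only [Pi.smul_apply, smul_eq_mul]
        ring
      rw [h]
      exact WB.smul_mem c h4

end Aux

/-- the pure phases -/
theorem orthData_phase1 {v : Fin 3 → Fin 3 → ℝ} (hv : IsOrthoBasis v) :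
    Nonempty (OrthData v (fun σ => σ • (1 : Matrix (Fin 3) (Fin 3) ℂ))) := by
  refine ⟨{
    ι := Unit
    w := fun _ => 1
    χ := fun _ => 1
    f := 1
    W := fun _ => ⊥
    D := fun _ _ => 0
    E := fun _ _ _ => 1
    l := fun x _ => x
    w_nonneg := fun _ => zero_le_one
    w_sum := by simp
    χ_val := fun _ => Or.inr rfl
    χ_mean := by simp
    W_mean := fun i φ hφ => by
      rw [Submodule.mem_bot] at hφ
      simp [hφ]
    D_mem := fun i => by
      rw [Submodule.mem_bot]
      rfl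
    D_proj := fun i φ hφ => by
      rw [Submodule.mem_bot] at hφ
      simp [hφ]
    D_sum := fun a => by simp
    E_pos := fun _ _ _ _ => zero_lt_one
    E_mem := fun x _ i => by
      rw [Submodule.mem_bot]
      funext a
      simp
    E_orth := fun x _ i φ hφ => by
      rw [Submodule.mem_bot] at hφ
      simp [hφ]
    l_pos := fun x hx _ => hx
    l_eq := fun x _ i => by simp
    L_eq := fun x _ => (diagT_one hv x).symm }⟩

theorem orthData_phase2 {v : Fin 3 → Fin 3 → ℝ} (hv : IsOrthoBasis v) :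
    Nonempty (OrthData v (fun _ => (1 : Matrix (Fin 3) (Fin 3) ℂ))) := by
  refine ⟨{
    ι := Unit
    w := fun _ => 1
    χ := fun _ => 0
    f := 0
    W := fun _ => ⊥
    D := fun _ _ => 0
    E := fun _ _ _ => 1
    l := fun _ _ => 1
    w_nonneg := fun _ => zero_le_one
    w_sum := by simp
    χ_val := fun _ => Or.inl rfl
    χ_mean := by simp
    W_mean := fun i φ hφ => by
      rw [Submodule.mem_bot] at hφ
      simp [hφ]
    D_mem := fun i => by
      rw [Submodule.mem_bot]
      rfl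
    D_proj := fun i φ hφ => by
      rw [Submodule.mem_bot] at hφ
      simp [hφ]
    D_sum := fun a => by simp
    E_pos := fun _ _ _ _ => zero_lt_one
    E_mem := fun x _ i => by
      rw [Submodule.mem_bot]
      funext a
      simp
    E_orth := fun x _ i φ hφ => by
      rw [Submodule.mem_bot] at hφ
      simp [hφ]
    l_pos := fun x hx _ => zero_lt_one
    l_eq := fun x _ i => by simp
    L_eq := fun x _ => by
      rw [diagT_one hv 1]
      simp }⟩

/-- Layering. In the layers the fields in the direction of layering are `α E` and `β E` with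
`α = l_B / ((1 - θ) l_A + θ l_B)` and `β = l_A / ((1 - θ) l_A + θ l_B)`; the other fields are
unchanged. -/
theorem orthData_layer {v : Fin 3 → Fin 3 → ℝ} (hv : IsOrthoBasis v) (j : Fin 3) {θ : ℝ}
    (h0 : 0 ≤ θ) (h1 : θ ≤ 1) {A B : CFun} (dA : OrthData v A) (dB : OrthData v B) :
    Nonempty (OrthData v (fun σ => layer (v j) θ (A σ) (B σ))) := by
  have hden : ∀ x : ℝ, 0 < x → 0 < (1 - θ) * dA.l x j + θ * dB.l x j := by
    intro x hx
    have hA := dA.l_pos x hx j
    have hB := dB.l_pos x hx j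
    rcases eq_or_lt_of_le h0 with h | h
    · rw [← h]
      simpa using hA
    · have h2 := mul_pos h hB
      have h3 := mul_nonneg (sub_nonneg.2 h1) hA.le
      linarith
  let al : ℝ → Fin 3 → ℝ := fun x i =>
    if i = j then dB.l x j / ((1 - θ) * dA.l x j + θ * dB.l x j) else 1
  let be : ℝ → Fin 3 → ℝ := fun x i =>
    if i = j then dA.l x j / ((1 - θ) * dA.l x j + θ * dB.l x j) else 1
  have hal : ∀ x, 0 < x → ∀ i, 0 < al x i := by
    intro x hx i
    show 0 < (if i = j then _ else _ : ℝ)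
    split_ifs
    · exact div_pos (dB.l_pos x hx j) (hden x hx)
    · exact zero_lt_one
  have hbe : ∀ x, 0 < x → ∀ i, 0 < be x i := by
    intro x hx i
    show 0 < (if i = j then _ else _ : ℝ)
    split_ifs
    · exact div_pos (dA.l_pos x hx j) (hden x hx)
    · exact zero_lt_one
  have hab : ∀ x, 0 < x → ∀ i, θ * al x i + (1 - θ) * be x i = 1 := by
    intro x hx i
    have hd := (hden x hx).ne'
    show θ * (if i = j then _ else _ : ℝ) + (1 - θ) * (if i = j then _ else _ : ℝ) = 1
    split_ifs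
    · field_simp
      ring
    · ring
  let da : Fin 3 → ℝ := fun i => if i = j then (1 - θ) * (dA.f - dB.f) else 0
  let db : Fin 3 → ℝ := fun i => if i = j then -θ * (dA.f - dB.f) else 0
  refine ⟨{
    ι := dA.ι ⊕ dB.ι
    w := Sum.elim (fun a => θ * dA.w a) (fun b => (1 - θ) * dB.w b)
    χ := Sum.elim dA.χ dB.χ
    f := θ * dA.f + (1 - θ) * dB.f
    W := fun i => Orth_W (dA.W i) (dB.W i) θ (i = j)
    D := fun i => Sum.elim (fun a => dA.D i a + da i) (fun b => dB.D i b + db i)
    E := fun x i => Sum.elim (fun a => al x i * dA.E x i a) (fun b => be x i * dB.E x i b)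
    l := fun x i => if i = j then dA.l x j * dB.l x j / ((1 - θ) * dA.l x j + θ * dB.l x j)
      else θ * dA.l x i + (1 - θ) * dB.l x i
    w_nonneg := ?_
    w_sum := ?_
    χ_val := ?_
    χ_mean := ?_
    W_mean := ?_
    D_mem := ?_
    D_proj := ?_
    D_sum := ?_
    E_pos := ?_
    E_mem := ?_
    E_orth := ?_
    l_pos := ?_
    l_eq := ?_
    L_eq := ?_ }⟩
  · rintro (a | b)
    · exact mul_nonneg h0 (dA.w_nonneg a)
    · exact mul_nonneg (sub_nonneg.2 h1) (dB.w_nonneg b)
  · rw [Fintype.sum_sum_type]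
    simp only [Sum.elim_inl, Sum.elim_inr]
    rw [← Finset.mul_sum, ← Finset.mul_sum, dA.w_sum, dB.w_sum]
    ring
  · rintro (a | b)
    · exact dA.χ_val a
    · exact dB.χ_val b
  · rw [Fintype.sum_sum_type]
    simp only [Sum.elim_inl, Sum.elim_inr, mul_assoc]
    rw [← Finset.mul_sum, ← Finset.mul_sum, dA.χ_mean, dB.χ_mean]
  · rintro i φ ⟨α, β, h2, h3, h4, h5⟩
    rw [Fintype.sum_sum_type]
    simp only [Sum.elim_inl, Sum.elim_inr, mul_assoc]
    rw [← Finset.mul_sum, ← Finset.mul_sum, Orth_mean dA h4, Orth_mean dB h5, h2]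
  · intro i
    refine ⟨da i, db i, ?_, ?_, ?_, ?_⟩
    · show θ * (if i = j then _ else _ : ℝ) + (1 - θ) * (if i = j then _ else _ : ℝ) = 0
      split_ifs
      · ring
      · ring
    · intro h
      exact ⟨if_neg h, if_neg h⟩
    · have h2 : (fun a => Sum.elim (fun a => dA.D i a + da i) (fun b => dB.D i b + db i)
          (Sum.inl a) - da i) = dA.D i := by
        funext a
        simp
      rw [h2]
      exact dA.D_mem i
    · have h2 : (fun a => Sum.elim (fun a => dA.D i a + da i) (fun b => dB.D i b + db i)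
          (Sum.inr a) - db i) = dB.D i := by
        funext a
        simp
      rw [h2]
      exact dB.D_mem i
  · rintro i φ ⟨α, β, h2, h3, h4, h5⟩
    rw [Fintype.sum_sum_type]
    simp only [Sum.elim_inl, Sum.elim_inr, mul_assoc]
    rw [← Finset.mul_sum, ← Finset.mul_sum, Orth_proj dA (da i) h4, Orth_proj dB (db i) h5]
    by_cases hij : i = j
    · have ha : da i = (1 - θ) * (dA.f - dB.f) := if_pos hij
      have hb : db i = -θ * (dA.f - dB.f) := if_pos hij
      rw [ha, hb]
      linear_combination (θ * dA.f + (1 - θ) * dB.f) * h2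
    · rw [(h3 hij).1, (h3 hij).2]
      ring
  · have hda : ∑ i, da i = (1 - θ) * (dA.f - dB.f) := by
      show ∑ i, (if i = j then (1 - θ) * (dA.f - dB.f) else 0) = _
      simp
    have hdb : ∑ i, db i = -θ * (dA.f - dB.f) := by
      show ∑ i, (if i = j then -θ * (dA.f - dB.f) else 0) = _
      simp
    rintro (a | b)
    · simp only [Sum.elim_inl]
      rw [Finset.sum_add_distrib, dA.D_sum a, hda]
      ring
    · simp only [Sum.elim_inr]
      rw [Finset.sum_add_distrib, dB.D_sum b, hdb]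
      ring
  · rintro x hx i (a | b)
    · exact mul_pos (hal x hx i) (dA.E_pos x hx i a)
    · exact mul_pos (hbe x hx i) (dB.E_pos x hx i b)
  · intro x hx i
    refine ⟨al x i - 1, be x i - 1, ?_, ?_, ?_, ?_⟩
    · linear_combination hab x hx i
    · intro h
      have h2 : al x i = 1 := if_neg h
      have h3 : be x i = 1 := if_neg h
      rw [h2, h3]
      simp
    · have h2 : (fun a => Sum.elim (fun a => al x i * dA.E x i a) (fun b => be x i * dB.E x i b)
          (Sum.inl a) - 1 - (al x i - 1)) = al x i • fun a => dA.E x i a - 1 := by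
        funext a
        simp only [Sum.elim_inl, Pi.smul_apply, smul_eq_mul]
        ring
      rw [h2]
      exact (dA.W i).smul_mem _ (dA.E_mem x hx i)
    · have h2 : (fun a => Sum.elim (fun a => al x i * dA.E x i a) (fun b => be x i * dB.E x i b)
          (Sum.inr a) - 1 - (be x i - 1)) = be x i • fun a => dB.E x i a - 1 := by
        funext a
        simp only [Sum.elim_inr, Pi.smul_apply, smul_eq_mul]
        ring
      rw [h2]
      exact (dB.W i).smul_mem _ (dB.E_mem x hx i)
  · rintro x hx i φ ⟨α, β, h2, h3, h4, h5⟩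
    rw [Fintype.sum_sum_type]
    simp only [Sum.elim_inl, Sum.elim_inr]
    have h6 : ∑ a, θ * dA.w a * ((1 + (x - 1) * dA.χ a) * (al x i * dA.E x i a) * φ (Sum.inl a)) =
        θ * (al x i * α * dA.l x i) := by
      rw [← Orth_orth dA hx (al x i) h4, Finset.mul_sum]
      exact Finset.sum_congr rfl fun a _ => by ring
    have h7 : ∑ b, (1 - θ) * dB.w b *
        ((1 + (x - 1) * dB.χ b) * (be x i * dB.E x i b) * φ (Sum.inr b)) =
        (1 - θ) * (be x i * β * dB.l x i) := by
      rw [← Orth_orth dB hx (be x i) h5, Finset.mul_sum]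
      exact Finset.sum_congr rfl fun a _ => by ring
    rw [h6, h7]
    by_cases hij : i = j
    · subst hij
      have ha : al x i = dB.l x i / ((1 - θ) * dA.l x i + θ * dB.l x i) := if_pos rfl
      have hb : be x i = dA.l x i / ((1 - θ) * dA.l x i + θ * dB.l x i) := if_pos rfl
      rw [ha, hb]
      linear_combination (dA.l x i * dB.l x i / ((1 - θ) * dA.l x i + θ * dB.l x i)) * h2
    · rw [(h3 hij).1, (h3 hij).2]
      ring
  · intro x hx i
    show 0 < (if i = j then _ else _ : ℝ)
    split_ifs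
    · exact div_pos (mul_pos (dA.l_pos x hx j) (dB.l_pos x hx j)) (hden x hx)
    · have hA := dA.l_pos x hx i
      have hB := dB.l_pos x hx i
      rcases eq_or_lt_of_le h0 with h | h
      · rw [← h]
        simpa using hB
      · have h2 := mul_pos h hA
        have h3 := mul_nonneg (sub_nonneg.2 h1) hB.le
        linarith
  · intro x hx i
    rw [Fintype.sum_sum_type]
    simp only [Sum.elim_inl, Sum.elim_inr, mul_assoc θ, mul_assoc (1 - θ)]
    rw [← Finset.mul_sum, ← Finset.mul_sum, Orth_leq dA hx, Orth_leq dB hx]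
    have hd := (hden x hx).ne'
    by_cases hij : i = j
    · subst hij
      have ha : al x i = dB.l x i / ((1 - θ) * dA.l x i + θ * dB.l x i) := if_pos rfl
      have hb : be x i = dA.l x i / ((1 - θ) * dA.l x i + θ * dB.l x i) := if_pos rfl
      rw [ha, hb, if_pos rfl]
      ring
    · have ha : al x i = 1 := if_neg hij
      have hb : be x i = 1 := if_neg hij
      rw [ha, hb, if_neg hij]
      ring
  · intro x hx
    show layer (v j) θ (A x) (B x) = _
    rw [dA.L_eq x hx, dB.L_eq x hx]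
    exact layer_diagT hv j θ _ _ (hden x hx).ne'

theorem orthData_of_isLaminate {v : Fin 3 → Fin 3 → ℝ} (hv : IsOrthoBasis v) {L : CFun}
    (hL : IsLaminate (Set.range v) L) : Nonempty (OrthData v L) := by
  induction hL with
  | phase1 => exact orthData_phase1 hv
  | phase2 => exact orthData_phase2 hv
  | layer hn h0 h1 _ _ ihA ihB =>
    obtain ⟨j, rfl⟩ := hn
    obtain ⟨dA⟩ := ihA
    obtain ⟨dB⟩ := ihB
    exact orthData_layer hv j h0 h1 dA dB

end W_MP_e98908_an.H58
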