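import Pool.Agent.W_MP_e98908_an_h58.LA

/-!
# MP_e98908_an (helper58) : tensors diagonal in an orthonormal basis
-/

namespace W_MP_e98908_an.H58

open Matrix Complex

/-- `v` is an orthonormal basis of `ℝ³`. -/
def IsOrthoBasis (v : Fin 3 → Fin 3 → ℝ) : Prop := ∀ i j, v i ⬝ᵥ v j = if i = j then 1 else 0

/-- the tensor with eigenvectors `v i` and eigenvalues `l i` -/
noncomputable def diagT (v : Fin 3 → Fin 3 → ℝ) (l : Fin 3 → ℝ) : Matrix (Fin 3) (Fin 3) ℂ :=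
  ∑ i, (l i : ℂ) • vecMulVec (cv (v i)) (cv (v i))

theorem OrthA_apply (v : Fin 3 → Fin 3 → ℝ) (l : Fin 3 → ℝ) (p q : Fin 3) :
    diagT v l p q = ∑ i, (l i : ℂ) * (cv (v i) p * cv (v i) q) := by
  unfold diagT
  rw [Matrix.sum_apply]
  rfl

theorem OrthA_dot {v : Fin 3 → Fin 3 → ℝ} (hv : IsOrthoBasis v) (i j : Fin 3) :
    cv (v i) ⬝ᵥ cv (v j) = if i = j then 1 else 0 := by
  have h2 : cv (v i) ⬝ᵥ cv (v j) = ((v i ⬝ᵥ v j : ℝ) : ℂ) := by
    simp [dotProduct, cv]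
  rw [h2, hv i j]
  split_ifs <;> simp

theorem OrthA_mulVec {v : Fin 3 → Fin 3 → ℝ} (hv : IsOrthoBasis v) (l : Fin 3 → ℝ) (j : Fin 3) :
    diagT v l *ᵥ cv (v j) = (l j : ℂ) • cv (v j) := by
  funext p
  show ∑ q, diagT v l p q * cv (v j) q = (l j : ℂ) * cv (v j) p
  have h1 : ∑ q, diagT v l p q * cv (v j) q =
      ∑ i, (l i : ℂ) * cv (v i) p * (cv (v i) ⬝ᵥ cv (v j)) := by
    simp only [OrthA_apply, Finset.sum_mul, dotProduct, Finset.mul_sum]
    rw [Finset.sum_comm]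
    refine Finset.sum_congr rfl (fun i _ => Finset.sum_congr rfl (fun q _ => ?_))
    ring
  rw [h1]
  simp only [OrthA_dot hv, mul_ite, mul_one, mul_zero, Finset.sum_ite_eq', Finset.mem_univ,
    if_true]

theorem OrthA_symm (v : Fin 3 → Fin 3 → ℝ) (l : Fin 3 → ℝ) : (diagT v l)ᵀ = diagT v l := by
  ext p q
  rw [Matrix.transpose_apply, OrthA_apply, OrthA_apply]
  refine Finset.sum_congr rfl (fun i _ => ?_)
  ring

theorem OrthA_sub (v : Fin 3 → Fin 3 → ℝ) (a b : Fin 3 → ℝ) :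
    diagT v a - diagT v b = diagT v (a - b) := by
  ext p q
  rw [Matrix.sub_apply, OrthA_apply, OrthA_apply, OrthA_apply, ← Finset.sum_sub_distrib]
  refine Finset.sum_congr rfl (fun i _ => ?_)
  rw [Pi.sub_apply, Complex.ofReal_sub]
  ring

theorem OrthA_comb (v : Fin 3 → Fin 3 → ℝ) (x y : ℝ) (a b : Fin 3 → ℝ) :
    (x : ℂ) • diagT v a + (y : ℂ) • diagT v b = diagT v (fun i => x * a i + y * b i) := by
  ext p q
  rw [Matrix.add_apply, Matrix.smul_apply, Matrix.smul_apply, OrthA_apply, OrthA_apply,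
    OrthA_apply, smul_eq_mul, smul_eq_mul, Finset.mul_sum, Finset.mul_sum,
    ← Finset.sum_add_distrib]
  refine Finset.sum_congr rfl (fun i _ => ?_)
  push_cast
  ring

theorem OrthA_vecMul {v : Fin 3 → Fin 3 → ℝ} (hv : IsOrthoBasis v) (l : Fin 3 → ℝ) (j : Fin 3) :
    cv (v j) ᵥ* diagT v l = (l j : ℂ) • cv (v j) := by
  rw [← Matrix.mulVec_transpose, OrthA_symm, OrthA_mulVec hv]

/-- the lamination formula in a direction of the basis -/
theorem layer_diagT {v : Fin 3 → Fin 3 → ℝ} (hv : IsOrthoBasis v) (j : Fin 3) (θ : ℝ)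
    (a b : Fin 3 → ℝ) (h : (1 - θ) * a j + θ * b j ≠ 0) :
    layer (v j) θ (diagT v a) (diagT v b) =
      diagT v (fun i => if i = j then a j * b j / ((1 - θ) * a j + θ * b j)
        else θ * a i + (1 - θ) * b i) := by
  unfold layer
  have hc : (fun i => (v j i : ℂ)) = cv (v j) := rfl
  have hθ : (1 - θ : ℂ) = ((1 - θ : ℝ) : ℂ) := by push_cast; rfl
  rw [hc, hθ, OrthA_comb, OrthA_comb, OrthA_sub, OrthA_mulVec hv, OrthA_mulVec hv,
    OrthA_vecMul hv, dotProduct_smul, OrthA_dot hv, if_pos rfl]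
  ext p q
  rw [Matrix.sub_apply, Matrix.smul_apply, OrthA_apply, OrthA_apply]
  have h1 : vecMulVec (((a - b) j : ℂ) • cv (v j)) (((a - b) j : ℂ) • cv (v j)) p q =
      ((a - b) j : ℂ) * cv (v j) p * (((a - b) j : ℂ) * cv (v j) q) := rfl
  rw [h1, sub_eq_iff_eq_add, ← sub_eq_iff_eq_add', ← Finset.sum_sub_distrib,
    Finset.sum_eq_single j]
  · rw [if_pos rfl]
    have h2 : ((((1 - θ) * a j + θ * b j : ℝ)) : ℂ) ≠ 0 := Complex.ofReal_ne_zero.2 h
    have h3 : ((((1 - θ) * a j + θ * b j : ℝ)) : ℂ) =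
      (1 - (θ : ℂ)) * (a j : ℂ) + (θ : ℂ) * (b j : ℂ) := by push_cast; ring
    rw [h3] at h2
    rw [Pi.sub_apply]
    have key : ∀ t A B D E F : ℂ, D ≠ 0 → D = (1 - t) * A + t * B →
        (t * A + (1 - t) * B) * (E * F) - A * B / D * (E * F) =
          t * (1 - t) / D * ((A - B) * E * ((A - B) * F)) := by
      intro t A B D E F hD hDe
      field_simp
      rw [hDe]
      ring
    push_cast
    simp only [smul_eq_mul, mul_one]
    exact key _ _ _ _ _ _ h2 rfl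
  · intro i _ hi
    rw [if_neg hi, sub_self]
  · intro hj
    exact absurd (Finset.mem_univ j) hj

theorem diagT_one {v : Fin 3 → Fin 3 → ℝ} (hv : IsOrthoBasis v) (x : ℝ) :
    diagT v (fun _ => x) = (x : ℂ) • (1 : Matrix (Fin 3) (Fin 3) ℂ) := by
  have h1 : (Matrix.of v) * (Matrix.of v)ᵀ = 1 := by
    ext i j
    rw [Matrix.mul_apply, Matrix.one_apply]
    exact hv i j
  have h2 : (Matrix.of v)ᵀ * (Matrix.of v) = 1 := mul_eq_one_comm.1 h1
  ext p q
  rw [OrthA_apply, ← Finset.mul_sum, Matrix.smul_apply, smul_eq_mul]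
  congr 1
  have h3 := congrFun (congrFun h2 p) q
  rw [Matrix.mul_apply] at h3
  have h4 : ∑ i, cv (v i) p * cv (v i) q = ((∑ i, v i p * v i q : ℝ) : ℂ) := by
    simp [cv]
  have h5 : ∑ i, v i p * v i q = (1 : Matrix (Fin 3) (Fin 3) ℝ) p q := h3
  rw [h4, h5, Matrix.one_apply, Matrix.one_apply]
  split_ifs <;> simp

theorem trace_diagT {v : Fin 3 → Fin 3 → ℝ} (hv : IsOrthoBasis v) (a : Fin 3 → ℝ) :
    (diagT v a).trace = ((∑ i, a i : ℝ) : ℂ) := by
  have h1 : (diagT v a).trace = ∑ i, (a i : ℂ) * (cv (v i) ⬝ᵥ cv (v i)) := by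
    rw [Matrix.trace]
    simp only [Matrix.diag_apply, OrthA_apply, dotProduct, Finset.mul_sum]
    rw [Finset.sum_comm]
  rw [h1]
  push_cast
  refine Finset.sum_congr rfl (fun i _ => ?_)
  rw [OrthA_dot hv, if_pos rfl, mul_one]

end W_MP_e98908_an.H58
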