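import Pool.Agent.W_MP_e98908_an_h58.Ops1
import Pool.Agent.W_MP_e98908_an_h89.Lam

/-!
# MP_e98908_an (helper58) : solutions of the conductivity equations
-/

namespace W_MP_e98908_an.H58

open MeasureTheory Set Filter Topology Complex UnitAddTorus Matrix

/-- multiplication by the conductivity: `σ` on `S` and `1` elsewhere -/
noncomputable def Tc {S : Set Cell} (hS : MeasurableSet S) (σ : ℂ) : Fld →L[ℂ] Fld :=
  σ • Pm hS + (ContinuousLinearMap.id ℂ Fld - Pm hS)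

theorem Tc_apply {S : Set Cell} (hS : MeasurableSet S) (σ : ℂ) (e : Fld) :
    Tc hS σ e = σ • Pm hS e + (e - Pm hS e) := rfl

theorem Solve_orth {S : Set Cell} (hS : MeasurableSet S) (e : Fld) :
    inner ℂ (Pm hS e) (e - Pm hS e) = 0 := by
  rw [inner_sub_right, Pm_symm hS e e, Pm_symm hS e (Pm hS e), Pm_idem hS e, sub_self]

theorem Solve_norm {S : Set Cell} (hS : MeasurableSet S) (e : Fld) :
    ‖e‖ ^ 2 = ‖Pm hS e‖ ^ 2 + ‖e - Pm hS e‖ ^ 2 := by
  have h1 := norm_add_sq_eq_norm_sq_add_norm_sq_of_inner_eq_zero (𝕜 := ℂ) _ _ (Solve_orth hS e)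
  rw [add_sub_cancel] at h1
  nlinarith [h1]

theorem Solve_normT {S : Set Cell} (hS : MeasurableSet S) (σ : ℂ) (e : Fld) :
    ‖Tc hS σ e‖ ^ 2 = ‖σ‖ ^ 2 * ‖Pm hS e‖ ^ 2 + ‖e - Pm hS e‖ ^ 2 := by
  have h0 : inner ℂ (σ • Pm hS e) (e - Pm hS e) = 0 := by
    rw [inner_smul_left, Solve_orth, mul_zero]
  have h1 := norm_add_sq_eq_norm_sq_add_norm_sq_of_inner_eq_zero (𝕜 := ℂ) _ _ h0
  rw [Tc_apply]
  rw [norm_smul] at h1
  nlinarith [h1]

theorem Solve_inner {S : Set Cell} (hS : MeasurableSet S) (σ : ℂ) (e : Fld) :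
    inner ℂ e (Tc hS σ e) = σ * ((‖Pm hS e‖ ^ 2 : ℝ) : ℂ) + ((‖e - Pm hS e‖ ^ 2 : ℝ) : ℂ) := by
  have h1 : inner ℂ e (Pm hS e) = ((‖Pm hS e‖ ^ 2 : ℝ) : ℂ) := by
    have h2 : inner ℂ e (Pm hS e) = inner ℂ (Pm hS e) (Pm hS e) := by
      rw [Pm_symm hS e (Pm hS e), Pm_idem]
    rw [h2, inner_self_eq_norm_sq_to_K]
    push_cast
    rfl
  have h3 : inner ℂ e (e - Pm hS e) = ((‖e - Pm hS e‖ ^ 2 : ℝ) : ℂ) := by
    have h4 : inner ℂ e (e - Pm hS e) = inner ℂ (e - Pm hS e) (e - Pm hS e) := by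
      rw [inner_sub_left e (Pm hS e) (e - Pm hS e), Solve_orth, sub_zero]
    rw [h4, inner_self_eq_norm_sq_to_K]
    push_cast
    rfl
  rw [Tc_apply, inner_add_right, inner_smul_right, h1, h3]

theorem norm_Tc_le {S : Set Cell} (hS : MeasurableSet S) {x : ℝ} (hx : 0 < x) (e : Fld) :
    ‖Tc hS x e‖ ≤ max x 1 * ‖e‖ := by
  have h1 := Solve_normT hS (x : ℂ) e
  have h2 := Solve_norm hS e
  have h3 : ‖(x : ℂ)‖ = x := by rw [Complex.norm_real, Real.norm_of_nonneg hx.le]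
  rw [h3] at h1
  have h4 : (0 : ℝ) < max x 1 := lt_max_of_lt_left hx
  rw [← sq_le_sq₀ (norm_nonneg _) (by positivity), mul_pow, h1, h2, mul_add]
  refine add_le_add ?_ ?_
  · exact mul_le_mul_of_nonneg_right (pow_le_pow_left₀ hx.le (le_max_left x 1) 2) (by positivity)
  · have h5 : (1 : ℝ) ≤ max x 1 ^ 2 := one_le_pow₀ (le_max_right x 1)
    nlinarith [sq_nonneg ‖e - Pm hS e‖]

theorem Tc_coercive {S : Set Cell} (hS : MeasurableSet S) {x : ℝ} (hx : 0 < x) (e : Fld) :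
    min x 1 * ‖e‖ ^ 2 ≤ (inner ℂ e (Tc hS x e)).re := by
  rw [Solve_inner, Solve_norm hS e, Complex.add_re, Complex.re_ofReal_mul, Complex.ofReal_re,
    Complex.ofReal_re, mul_add]
  refine add_le_add ?_ ?_
  · exact mul_le_mul_of_nonneg_right (min_le_left x 1) (by positivity)
  · nlinarith [min_le_right x 1, sq_nonneg ‖e - Pm hS e‖]

/-- coercivity off the negative axis -/
theorem Tc_coercive' {S : Set Cell} (hS : MeasurableSet S) {σ : ℂ} (hσ : σ ∈ slitPlane) :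
    ∃ c : ℝ, 0 < c ∧ ∀ e : Fld, c * ‖e‖ ^ 2 ≤ (kap σ * inner ℂ e (Tc hS σ e)).re := by
  have h1 : 0 < (kap σ * 1).re := hp_one hσ
  have h2 : 0 < (kap σ * σ).re := hp_self hσ
  refine ⟨min (kap σ * σ).re (kap σ * 1).re, lt_min h2 h1, fun e => ?_⟩
  rw [Solve_inner, Solve_norm hS e]
  have h3 : (kap σ * (σ * ((‖Pm hS e‖ ^ 2 : ℝ) : ℂ) + ((‖e - Pm hS e‖ ^ 2 : ℝ) : ℂ))).re =
      ‖Pm hS e‖ ^ 2 * (kap σ * σ).re + ‖e - Pm hS e‖ ^ 2 * (kap σ * 1).re := by
    have e1 : kap σ * (σ * ((‖Pm hS e‖ ^ 2 : ℝ) : ℂ) + ((‖e - Pm hS e‖ ^ 2 : ℝ) : ℂ)) =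
        ((‖Pm hS e‖ ^ 2 : ℝ) : ℂ) * (kap σ * σ) + ((‖e - Pm hS e‖ ^ 2 : ℝ) : ℂ) * (kap σ * 1) := by
      ring
    rw [e1, Complex.add_re, Complex.re_ofReal_mul, Complex.re_ofReal_mul]
  rw [h3]
  nlinarith [min_le_left (kap σ * σ).re (kap σ * 1).re, min_le_right (kap σ * σ).re (kap σ * 1).re,
    sq_nonneg ‖e - Pm hS e‖, sq_nonneg ‖Pm hS e‖,
    mul_le_mul_of_nonneg_right (min_le_left (kap σ * σ).re (kap σ * 1).re) (sq_nonneg ‖Pm hS e‖),
    mul_le_mul_of_nonneg_right (min_le_right (kap σ * σ).re (kap σ * 1).re)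
      (sq_nonneg ‖e - Pm hS e‖)]

/-- `e` solves the conductivity equations with mean field `a` -/
structure IsSol {S : Set Cell} (hS : MeasurableSet S) (σ : ℂ) (a : V3) (e : Fld) : Prop where
  fld : e - cst a ∈ Grd b0
  cur : Tc hS σ e ∈ (Grd b0)ᗮ

theorem exists_sol {S : Set Cell} (hS : MeasurableSet S) {σ : ℂ} (hσ : σ ∈ slitPlane) (a : V3) :
    ∃ e, IsSol hS σ a e := by
  obtain ⟨c, hc, hcoer⟩ := Tc_coercive' hS hσ
  have hk0 : kap σ ≠ 0 := by
    intro h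
    have h1 : 0 < (kap σ * 1).re := hp_one hσ
    rw [h] at h1
    simp at h1
  have hk : 0 < ‖kap σ‖ := norm_pos_iff.2 hk0
  set B : Grd b0 →L[ℂ] Grd b0 :=
    (Grd b0).orthogonalProjectionOnto ∘L Tc hS σ ∘L (Grd b0).subtypeL with hB
  have hBu : ∀ u : Grd b0, inner ℂ u (B u) = inner ℂ (u : Fld) (Tc hS σ (u : Fld)) := by
    intro u
    have h1 : inner ℂ u (B u) =
        inner ℂ (u : Fld) ((Grd b0).starProjection (Tc hS σ (u : Fld))) := rfl
    have h2 : inner ℂ (u : Fld) (Tc hS σ (u : Fld) - (Grd b0).starProjection (Tc hS σ (u : Fld))) =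
        0 := (Submodule.mem_orthogonal _ _).1
          (Submodule.sub_starProjection_mem_orthogonal (Tc hS σ (u : Fld))) _ u.2
    rw [inner_sub_right] at h2
    rw [h1]
    exact (sub_eq_zero.1 h2).symm
  have hunit : IsUnit B := by
    refine ContinuousLinearMap.isUnit_of_forall_le_norm_inner_map B
      (c := ⟨c / ‖kap σ‖, by positivity⟩) (by exact_mod_cast div_pos hc hk) fun u => ?_
    have h1 := hcoer (u : Fld)
    rw [← hBu] at h1
    have h2 : (kap σ * inner ℂ u (B u)).re ≤ ‖kap σ‖ * ‖inner ℂ u (B u)‖ := by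
      rw [← norm_mul]
      exact Complex.re_le_norm _
    rw [← norm_inner_symm]
    show ‖u‖ ^ 2 * (c / ‖kap σ‖) ≤ ‖inner ℂ u (B u)‖
    rw [← mul_div_assoc, div_le_iff₀ hk]
    have h3 : ‖(u : Fld)‖ = ‖u‖ := rfl
    rw [h3] at h1
    nlinarith [h1, h2]
  rw [ContinuousLinearMap.isUnit_iff_bijective] at hunit
  obtain ⟨u, hu⟩ := hunit.2 (-(Grd b0).orthogonalProjectionOnto (Tc hS σ (cst a)))
  refine ⟨cst a + u, ?_, ?_⟩
  · rw [add_sub_cancel_left]
    exact u.2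
  · have h1 : (Grd b0).orthogonalProjectionOnto (Tc hS σ (cst a + (u : Fld))) = 0 := by
      rw [map_add, map_add]
      have h2 : (Grd b0).orthogonalProjectionOnto (Tc hS σ (u : Fld)) = B u := rfl
      rw [h2, hu, add_neg_cancel]
    have h3 : (Grd b0).starProjection (Tc hS σ (cst a + (u : Fld))) = 0 := by
      show (((Grd b0).orthogonalProjectionOnto (Tc hS σ (cst a + (u : Fld))) : Grd b0) : Fld) = 0
      rw [h1]
      rfl
    have h4 := Submodule.sub_starProjection_mem_orthogonal (K := Grd b0)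
      (Tc hS σ (cst a + (u : Fld)))
    rw [h3, sub_zero] at h4
    exact h4

theorem sol_unique {S : Set Cell} (hS : MeasurableSet S) {σ : ℂ} (hσ : σ ∈ slitPlane) {a : V3}
    {e e' : Fld} (h : IsSol hS σ a e) (h' : IsSol hS σ a e') : e = e' := by
  obtain ⟨c, hc, hcoer⟩ := Tc_coercive' hS hσ
  have h1 : e - e' ∈ Grd b0 := by
    have h2 := (Grd b0).sub_mem h.fld h'.fld
    rwa [sub_sub_sub_cancel_right] at h2
  have h3 : Tc hS σ (e - e') ∈ (Grd b0)ᗮ := by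
    rw [map_sub]
    exact (Grd b0)ᗮ.sub_mem h.cur h'.cur
  have h4 : inner ℂ (e - e') (Tc hS σ (e - e')) = 0 :=
    (Submodule.mem_orthogonal _ _).1 h3 _ h1
  have h5 := hcoer (e - e')
  rw [h4, mul_zero, Complex.zero_re] at h5
  have h6 : ‖e - e'‖ ^ 2 ≤ 0 := by
    by_contra h7
    push Not at h7
    exact absurd h5 (not_le.2 (mul_pos hc h7))
  have h8 : ‖e - e'‖ = 0 := by
    have h9 := sq_nonneg ‖e - e'‖
    exact pow_eq_zero_iff (two_ne_zero) |>.1 (le_antisymm h6 h9)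
  exact sub_eq_zero.1 (norm_eq_zero.1 h8)

/-- **Stability.** An approximate solution is close to the solution. -/
theorem stability {S : Set Cell} (hS : MeasurableSet S) {x : ℝ} (hx : 0 < x) {a : V3}
    {e u : Fld} (he : IsSol hS x a e) :
    ‖mean (Tc hS x e) - mean (Tc hS x u)‖ ≤
      max x 1 / min x 1 * ‖Γ (Tc hS x u)‖ +
        (max x 1 + max x 1 * (max x 1 / min x 1)) * ‖(u - cst a) - Γ (u - cst a)‖ := by
  have hmx : (0 : ℝ) < max x 1 := lt_max_of_lt_left hx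
  have hmn : (0 : ℝ) < min x 1 := lt_min hx one_pos
  set D : Fld := u - cst a with hD
  set r : Fld := D - Γ D with hr
  set z : Fld := Γ D - (e - cst a) with hz
  have hzG : z ∈ Grd b0 := (Grd b0).sub_mem (Submodule.starProjection_apply_mem _ _) he.fld
  have hue : u - e = z + r := by
    rw [hz, hr, hD]
    abel
  have hTz : Tc hS x z = Tc hS x u - Tc hS x e - Tc hS x r := by
    rw [← map_sub, ← map_sub, hue, add_sub_cancel_right]
  have h1 : inner ℂ z (Tc hS x e) = 0 := (Submodule.mem_orthogonal _ _).1 he.cur _ hzG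
  have h2 : inner ℂ z (Tc hS x u) = inner ℂ z (Γ (Tc hS x u)) := by
    have h3 : inner ℂ z (Tc hS x u - Γ (Tc hS x u)) = 0 := (Submodule.mem_orthogonal _ _).1
      (Submodule.sub_starProjection_mem_orthogonal (Tc hS x u)) _ hzG
    rw [inner_sub_right] at h3
    exact sub_eq_zero.1 h3
  have h4 : (inner ℂ z (Tc hS x z)).re ≤ ‖z‖ * (‖Γ (Tc hS x u)‖ + max x 1 * ‖r‖) := by
    rw [hTz, inner_sub_right, inner_sub_right, h1, h2, sub_zero, Complex.sub_re, mul_add]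
    have h5 : (inner ℂ z (Γ (Tc hS x u))).re ≤ ‖z‖ * ‖Γ (Tc hS x u)‖ :=
      re_inner_le_norm (𝕜 := ℂ) z _
    have h6 : -(inner ℂ z (Tc hS x r)).re ≤ ‖z‖ * (max x 1 * ‖r‖) := by
      have h7 : -(inner ℂ z (Tc hS x r)).re = (inner ℂ z (-Tc hS x r)).re := by
        rw [inner_neg_right, Complex.neg_re]
      rw [h7]
      refine (re_inner_le_norm (𝕜 := ℂ) z _).trans ?_
      rw [norm_neg]
      exact mul_le_mul_of_nonneg_left (norm_Tc_le hS hx r) (norm_nonneg _)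
    linarith
  have h8 : min x 1 * ‖z‖ ≤ ‖Γ (Tc hS x u)‖ + max x 1 * ‖r‖ := by
    have h9 := (Tc_coercive hS hx z).trans h4
    rcases (norm_nonneg z).eq_or_lt with h10 | h10
    · rw [← h10, mul_zero]
      positivity
    · have h11 : ‖z‖ * (min x 1 * ‖z‖) ≤ ‖z‖ * (‖Γ (Tc hS x u)‖ + max x 1 * ‖r‖) := by
        nlinarith [h9]
      exact le_of_mul_le_mul_left h11 h10
  have h12 : ‖z‖ ≤ (‖Γ (Tc hS x u)‖ + max x 1 * ‖r‖) / min x 1 := by
    rw [le_div_iff₀ hmn]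
    linarith [h8]
  have h13 : ‖mean (Tc hS x e) - mean (Tc hS x u)‖ ≤ max x 1 * (‖z‖ + ‖r‖) := by
    rw [norm_sub_rev, ← map_sub, ← map_sub, hue]
    refine (norm_mean_le _).trans ((norm_Tc_le hS hx _).trans ?_)
    exact mul_le_mul_of_nonneg_left (norm_add_le _ _) hmx.le
  refine h13.trans ?_
  have h14 : max x 1 * (‖z‖ + ‖r‖) ≤
      max x 1 * ((‖Γ (Tc hS x u)‖ + max x 1 * ‖r‖) / min x 1 + ‖r‖) :=
    mul_le_mul_of_nonneg_left (by linarith) hmx.le
  refine h14.trans_eq ?_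
  field_simp
  ring

end W_MP_e98908_an.H58
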