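import Pool.Agent.W_MP_e98908_an_h58.LemM
import Pool.Agent.W_MP_e98908_an_h58.ET

/-!
# MP_e98908_an (helper58) : two-scale composites
-/

namespace W_MP_e98908_an.H58

open MeasureTheory Set Filter Topology Complex UnitAddTorus Matrix

variable {J : Type} [Fintype J]

/-- two-scale set: in the region `R j` the structure is the `(N+1)`-fold dilation of `S j` -/
def comb (R S : J → Set Cell) (N : ℕ) : Set Cell := ⋃ j, R j ∩ nmap N ⁻¹' S j

theorem measurable_comb {R S : J → Set Cell} (hR : ∀ j, MeasurableSet (R j))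
    (hS : ∀ j, MeasurableSet (S j)) (N : ℕ) : MeasurableSet (comb R S N) :=
  MeasurableSet.iUnion fun j => (hR j).inter ((continuous_nmap N).measurable (hS j))

open Classical in
theorem TwoScale_Tc_comb1 {R S : J → Set Cell} (hR : ∀ j, MeasurableSet (R j))
    (hS : ∀ j, MeasurableSet (S j)) (hdisj : Pairwise (Function.onFun Disjoint R))
    (σ : ℂ) (N : ℕ) (j : J) (e : Fld) :
    Tc (measurable_comb hR hS N) σ (Pm (hR j) (dil N e)) =
      Pm (hR j) (dil N (Tc (hS j) σ e)) := by
  apply Lp.ext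
  have h6 := (nmap_mp N).quasiMeasurePreserving.ae (current_coe' (hS j) σ e)
  filter_upwards [current_coe' (measurable_comb hR hS N) σ (Pm (hR j) (dil N e)),
    Pm_coe (hR j) (dil N e), dil_coe N e, Pm_coe (hR j) (dil N (Tc (hS j) σ e)),
    dil_coe N (Tc (hS j) σ e), h6] with x h1 h2 h3 h4 h5 h6
  rw [Tc_apply, h1, h4, h2]
  by_cases hx : x ∈ R j
  · rw [indicator_of_mem hx, indicator_of_mem hx, h5, h3, Tc_apply, h6]
    have hiff : x ∈ comb R S N ↔ nmap N x ∈ S j := by
      unfold comb
      rw [mem_iUnion]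
      constructor
      · rintro ⟨i, hi1, hi2⟩
        by_cases hij : i = j
        · subst hij; exact hi2
        · exact absurd hx (Set.disjoint_left.1 (hdisj hij) hi1)
      · intro h
        exact ⟨j, hx, h⟩
    by_cases hS' : nmap N x ∈ S j
    · rw [if_pos hS', if_pos (hiff.2 hS')]
    · rw [if_neg hS', if_neg (fun h => hS' (hiff.1 h))]
  · rw [indicator_of_notMem hx, indicator_of_notMem hx, smul_zero]

/-- the local conductivity of a two-scale composite -/
theorem Tc_comb {R S : J → Set Cell} (hR : ∀ j, MeasurableSet (R j))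
    (hS : ∀ j, MeasurableSet (S j)) (hdisj : Pairwise (Function.onFun Disjoint R))
    (σ : ℂ) (N : ℕ) (e : J → Fld) :
    Tc (measurable_comb hR hS N) σ (∑ j, Pm (hR j) (dil N (e j))) =
      ∑ j, Pm (hR j) (dil N (Tc (hS j) σ (e j))) := by
  rw [map_sum]
  exact Finset.sum_congr rfl fun j _ => TwoScale_Tc_comb1 hR hS hdisj σ N j (e j)

theorem mean_Pm_cst {R : Set Cell} (hR : MeasurableSet R) (a : V3) :
    mean (Pm hR (cst a)) = (cellMeasure.real R : ℂ) • a := by
  ext i
  rw [mean_apply, PiLp.smul_apply, smul_eq_mul, ← chat_zero hR]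
  have h : (fun x => Pm hR (cst a) x i) =ᵐ[cellMeasure]
      fun x => R.indicator (fun _ => (1 : ℂ)) x * a i := by
    filter_upwards [Pm_coe hR (cst a), Wv_coe a 0] with x h1 h2
    rw [h1]
    by_cases hx : x ∈ R
    · rw [indicator_of_mem hx, cst_apply, h2, mFourier_zero, indicator_of_mem hx]
      simp
    · rw [indicator_of_notMem hx, indicator_of_notMem hx]
      simp
  rw [fc_congr h]
  unfold chat fc
  rw [← integral_mul_const]
  congr 1
  funext x
  ring

theorem TwoScale_dil_cst (N : ℕ) (a : V3) : dil N (cst a) = cst a := by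
  rw [cst_apply, dil_Wv, smul_zero]

/-- mean values of localised rapidly oscillating fields -/
theorem mean_Pm_dil {R : Set Cell} (hR : MeasurableSet R) (e : Fld) :
    Tendsto (fun N => mean (Pm hR (dil N e))) atTop (𝓝 ((cellMeasure.real R : ℂ) • mean e)) := by
  have h0 : mean (e - cst (mean e)) = 0 := by
    rw [map_sub, mean_cst, sub_self]
  have h1 : Tendsto (fun N => mean (Pm hR (dil N (e - cst (mean e))))) atTop (𝓝 0) := by
    have h2 : Tendsto (fun N => WithLp.ofLp (mean (Pm hR (dil N (e - cst (mean e)))))) atTop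
        (𝓝 (0 : Fin 3 → ℂ)) := by
      rw [tendsto_pi_nhds]
      intro i
      have h3 : ∀ N, WithLp.ofLp (mean (Pm hR (dil N (e - cst (mean e))))) i =
          inner ℂ (Pm hR (cst (EuclideanSpace.single i 1))) (dil N (e - cst (mean e))) := by
        intro N
        rw [Pm_symm]
        exact (inner_Wsingle i 0 _).symm
      simp_rw [h3]
      exact lemW _ h0
    have h4 := ((PiLp.continuous_toLp 2 (fun _ : Fin 3 => ℂ)).tendsto (0 : Fin 3 → ℂ)).comp h2
    exact h4
  have h5 : ∀ N, mean (Pm hR (dil N e)) = (cellMeasure.real R : ℂ) • mean e +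
      mean (Pm hR (dil N (e - cst (mean e)))) := by
    intro N
    rw [← mean_Pm_cst hR, map_sub, map_sub, map_sub, TwoScale_dil_cst]
    abel
  simp_rw [h5]
  have h6 := h1.const_add ((cellMeasure.real R : ℂ) • mean e)
  rwa [add_zero] at h6

/-- **Homogenization of two-scale composites** (with compatible piecewise constant macroscopic
fields `E j`). -/
theorem two_scale {R S : J → Set Cell} (hR : ∀ j, MeasurableSet (R j))
    (hS : ∀ j, MeasurableSet (S j)) (hdisj : Pairwise (Function.onFun Disjoint R))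
    {x : ℝ} (hx : 0 < x) (M : J → Matrix (Fin 3) (Fin 3) ℂ)
    (hM : ∀ j, HasET (hS j) x (M j)) (a : V3) (E : J → V3)
    (hE : ∑ j, Pm (hR j) (cst (E j)) - cst a ∈ Grd b0) {δ : ℝ} (hδ : 0 < δ) :
    ∀ᶠ N in atTop, ∀ M', HasET (measurable_comb hR hS N) x M' →
      ‖mv M' a - ∑ j, (cellMeasure.real (R j) : ℂ) • mv (M j) (E j)‖ ≤
        max x 1 / min x 1 * ‖Γ (∑ j, Pm (hR j) (cst (mv (M j) (E j))))‖ + δ := by
  choose e he hme using fun j => hM j (E j)
  -- the approximate solution
  set u : ℕ → Fld := fun N => ∑ j, Pm (hR j) (dil N (e j)) with hu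
  have hTu : ∀ N, Tc (measurable_comb hR hS N) x (u N) =
      ∑ j, Pm (hR j) (dil N (Tc (hS j) x (e j))) := fun N => Tc_comb hR hS hdisj x N e
  -- almost a gradient
  have hA : Tendsto (fun N => (u N - cst a) - Γ (u N - cst a)) atTop (𝓝 0) := by
    have h1 : ∀ N, (u N - cst a) - Γ (u N - cst a) =
        ∑ j, (Pm (hR j) (dil N (e j - cst (E j))) - Γ (Pm (hR j) (dil N (e j - cst (E j))))) := by
      intro N
      have h2 : u N - cst a = (∑ j, Pm (hR j) (cst (E j)) - cst a) +
          ∑ j, Pm (hR j) (dil N (e j - cst (E j))) := by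
        have h3 : ∑ j, Pm (hR j) (dil N (e j - cst (E j))) =
            u N - ∑ j, Pm (hR j) (cst (E j)) := by
          rw [hu, ← Finset.sum_sub_distrib]
          refine Finset.sum_congr rfl fun j _ => ?_
          rw [map_sub, map_sub, TwoScale_dil_cst]
        rw [h3]
        abel
      have h4 : Γ (∑ j, Pm (hR j) (cst (E j)) - cst a) = ∑ j, Pm (hR j) (cst (E j)) - cst a :=
        Submodule.starProjection_eq_self_iff.2 hE
      rw [h2, map_add, h4, map_sum, Finset.sum_sub_distrib]
      abel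
    simp_rw [h1]
    have h5 : Tendsto (fun N => ∑ j, (Pm (hR j) (dil N (e j - cst (E j))) -
        Γ (Pm (hR j) (dil N (e j - cst (E j)))))) atTop (𝓝 (∑ _j : J, (0 : Fld))) :=
      tendsto_finsetSum _ fun j _ => lemM_grd (hR j) (he j).fld
    rwa [Finset.sum_const_zero] at h5
  -- the projection of the current
  have hB : Tendsto (fun N => Γ (Tc (measurable_comb hR hS N) x (u N))) atTop
      (𝓝 (Γ (∑ j, Pm (hR j) (cst (mv (M j) (E j)))))) := by
    have h1 : ∀ N, Γ (Tc (measurable_comb hR hS N) x (u N)) =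
        Γ (∑ j, Pm (hR j) (cst (mv (M j) (E j)))) +
        ∑ j, Γ (Pm (hR j) (dil N (Tc (hS j) x (e j) - cst (mv (M j) (E j))))) := by
      intro N
      rw [hTu, ← map_sum, ← map_add]
      congr 1
      rw [← Finset.sum_add_distrib]
      refine Finset.sum_congr rfl fun j _ => ?_
      rw [map_sub, map_sub, TwoScale_dil_cst]
      abel
    simp_rw [h1]
    have h2 : Tendsto (fun N => ∑ j, Γ (Pm (hR j) (dil N (Tc (hS j) x (e j) -
        cst (mv (M j) (E j)))))) atTop (𝓝 (∑ _j : J, (0 : Fld))) := by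
      refine tendsto_finsetSum _ fun j _ => lemM_orth (hR j) ?_ ?_
      · exact Submodule.sub_mem _ (he j).cur (cst_orth _)
      · rw [map_sub, hme, mean_cst, sub_self]
    have h3 := h2.const_add (Γ (∑ j, Pm (hR j) (cst (mv (M j) (E j)))))
    rwa [Finset.sum_const_zero, add_zero] at h3
  -- the mean current
  have hC : Tendsto (fun N => mean (Tc (measurable_comb hR hS N) x (u N))) atTop
      (𝓝 (∑ j, (cellMeasure.real (R j) : ℂ) • mv (M j) (E j))) := by
    simp_rw [hTu, map_sum]
    refine tendsto_finsetSum _ fun j _ => ?_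
    rw [← hme j]
    exact mean_Pm_dil (hR j) _
  have hC' : Tendsto (fun N => ‖mean (Tc (measurable_comb hR hS N) x (u N)) -
      ∑ j, (cellMeasure.real (R j) : ℂ) • mv (M j) (E j)‖) atTop (𝓝 0) := by
    have h1 := (hC.sub_const (∑ j, (cellMeasure.real (R j) : ℂ) • mv (M j) (E j))).norm
    rwa [sub_self, norm_zero] at h1
  have hA' : Tendsto (fun N => ‖(u N - cst a) - Γ (u N - cst a)‖) atTop (𝓝 0) := by
    have h1 := hA.norm
    rwa [norm_zero] at h1
  have hlim := ((hB.norm.const_mul (max x 1 / min x 1)).add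
    (hA'.const_mul (max x 1 + max x 1 * (max x 1 / min x 1)))).add hC'
  rw [mul_zero, add_zero, add_zero] at hlim
  have hev := hlim.eventually (gt_mem_nhds (lt_add_of_pos_right
    (max x 1 / min x 1 * ‖Γ (∑ j, Pm (hR j) (cst (mv (M j) (E j))))‖) hδ))
  filter_upwards [hev] with N hN M' hM'
  obtain ⟨f, hf, hmf⟩ := hM' a
  have hst := stability (measurable_comb hR hS N) hx (u := u N) hf
  rw [hmf] at hst
  calc ‖mv M' a - ∑ j, (cellMeasure.real (R j) : ℂ) • mv (M j) (E j)‖
      ≤ ‖mv M' a - mean (Tc (measurable_comb hR hS N) x (u N))‖ +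
        ‖mean (Tc (measurable_comb hR hS N) x (u N)) -
          ∑ j, (cellMeasure.real (R j) : ℂ) • mv (M j) (E j)‖ := norm_sub_le_norm_sub_add_norm_sub _ _ _
    _ ≤ _ := by
        refine le_trans (add_le_add_left hst _) hN.le

end W_MP_e98908_an.H58
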