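import Pool.Agent.W_MP_e98908_an_h58.Eval

/-!
# MP_e98908_an (helper58) : the values of the example at the test points
-/

namespace W_MP_e98908_an.H58

theorem val1 : (312.3675472650 : ℚ) ≤ exG 10000 ∧ exG 10000 ≤ 312.3675472651 := by
  norm_num [exG, exT, layP, layZ]

theorem val2 : (43.1106681512 : ℚ) ≤ exG 1000 ∧ exG 1000 ≤ 43.1106681513 := by
  norm_num [exG, exT, layP, layZ]

theorem val3 : (2.99837754649207934692 : ℚ) ≤ exG (999 / 1000) ∧
    exG (999 / 1000) ≤ 2.99837754649207934693 := by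
  norm_num [exG, exT, layP, layZ]

theorem val4 : 1.62220512820487 / 10 ^ 12 ≤ exG (1 + 1 / 10 ^ 12) - 3 := by
  norm_num [exG, exT, layP, layZ]

theorem val5 : 3 - exG (1 - 1 / 10 ^ 12) ≤ 1.62220512820538 / 10 ^ 12 := by
  norm_num [exG, exT, layP, layZ]

end W_MP_e98908_an.H58
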